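import Pool.Agent.Lib.MP_7f6eca_an.Defs

/-! Basic estimates in the Kalton-Peck space. -/

namespace Pool.Agent.Lib.MP_7f6eca_an

open Real Filter Topology

/-- Bounded linear operators on the Kalton-Peck space. -/
def Bdd (T : Z2 →ₗ[ℝ] Z2) : Prop := ∃ C : ℝ, ∀ z, qnorm (T z) ≤ C * qnorm z

/-- Complex structures on the Kalton-Peck space. -/
def IsComplexStructure (J : Z2 →ₗ[ℝ] Z2) : Prop := Bdd J ∧ ∀ z, J (J z) = -z

/-- The sum of squares. -/
noncomputable def sq2 (x : ℕ → ℝ) : ℝ := ∑' n, x n ^ 2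

/-- A quantity equivalent to the square of the quasi-norm. -/
noncomputable def Q (z : Z2) : ℝ := sq2 (z.1.1 - KP z.1.2) + sq2 z.1.2

lemma sq2_nonneg (x : ℕ → ℝ) : 0 ≤ sq2 x := tsum_nonneg fun _ => sq_nonneg _

lemma l2norm_sq' (x : ℕ → ℝ) : l2norm x ^ 2 = sq2 x := l2norm_sq x

lemma sq2_zero : sq2 0 = 0 := by simp [sq2]

lemma KP_zero : KP 0 = 0 := by ext; simp [KP]

lemma sq2_le {x g : ℕ → ℝ} (hg : Summable g) (h : ∀ n, x n ^ 2 ≤ g n) : sq2 x ≤ ∑' n, g n :=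
  (Summable.of_nonneg_of_le (fun _ => sq_nonneg _) h hg).tsum_le_tsum h hg

lemma sq2_le2 {x y z : ℕ → ℝ} (hy : L2 y) (hz : L2 z) (a b : ℝ)
    (h : ∀ n, x n ^ 2 ≤ a * y n ^ 2 + b * z n ^ 2) : sq2 x ≤ a * sq2 y + b * sq2 z := by
  have := sq2_le ((hy.summable.mul_left a).add (hz.summable.mul_left b)) h
  rwa [(hy.summable.mul_left a).tsum_add (hz.summable.mul_left b), tsum_mul_left,
    tsum_mul_left] at this

lemma sq2_add_le {x y : ℕ → ℝ} (hx : L2 x) (hy : L2 y) : sq2 (x + y) ≤ 2 * sq2 x + 2 * sq2 y :=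
  sq2_le2 hx hy 2 2 fun n => by rw [Pi.add_apply]; nlinarith [sq_nonneg (x n - y n)]

lemma sq2_smul (c : ℝ) (x : ℕ → ℝ) : sq2 (c • x) = c ^ 2 * sq2 x := by
  simp only [sq2, Pi.smul_apply, smul_eq_mul, mul_pow, tsum_mul_left]

lemma l2norm_le {x : ℕ → ℝ} {M : ℝ} (hM : 0 ≤ M) (h : sq2 x ≤ M ^ 2) : l2norm x ≤ M :=
  (sqrt_le_left hM).2 h

lemma sq2_KP_add {x y : ℕ → ℝ} (hx : L2 x) (hy : L2 y) :
    sq2 (KP (x + y) - KP x - KP y) ≤ 384 * (sq2 x + sq2 y) := by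
  have h0 := sq2_nonneg x
  have h1 := sq2_nonneg y
  set M := √(2 * (sq2 x + sq2 y)) with hM
  have hM2 : M ^ 2 = 2 * (sq2 x + sq2 y) := sq_sqrt (by positivity)
  have a1 := sq_log_sq_le (l2norm_nonneg _) (l2norm_le (x := x + y) (M := M) (sqrt_nonneg _)
    (by have := sq2_add_le hx hy; linarith))
  have a2 := sq_log_sq_le (l2norm_nonneg _) (l2norm_le (x := x) (M := M) (sqrt_nonneg _)
    (by linarith))
  have a3 := sq_log_sq_le (l2norm_nonneg _) (l2norm_le (x := y) (M := M) (sqrt_nonneg _)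
    (by linarith))
  have s1 := (hx.summable.add hy.summable).mul_left 288
  have s2 := ((hx.add hy).summable.mul_right ((log (l2norm (x + y)) - log M) ^ 2)).mul_left 4
  have s3 := (hx.summable.mul_right ((log (l2norm x) - log M) ^ 2)).mul_left 4
  have s4 := (hy.summable.mul_right ((log (l2norm y) - log M) ^ 2)).mul_left 4
  have h := sq2_le (x := KP (x + y) - KP x - KP y) (((s1.add s2).add s3).add s4)
    (KP_add_le hx hy (log M))
  rw [((s1.add s2).add s3).tsum_add s4, (s1.add s2).tsum_add s3, s1.tsum_add s2, tsum_mul_left,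
    tsum_mul_left, tsum_mul_left, tsum_mul_left, tsum_mul_right, tsum_mul_right, tsum_mul_right,
    hx.summable.tsum_add hy.summable] at h
  rw [l2norm_sq] at a1 a2 a3
  simp only [sq2] at hM2 h ⊢
  linarith

lemma Q_nonneg (z : Z2) : 0 ≤ Q z := add_nonneg (sq2_nonneg _) (sq2_nonneg _)

lemma Q_add_le (z w : Z2) : Q (z + w) ≤ 1000 * (Q z + Q w) := by
  have h1 := sq2_KP_add z.2.1 w.2.1
  have h2 := sq2_add_le z.2.1 w.2.1
  have h3 := sq2_add_le z.2.2 w.2.2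
  have h4 := sq2_add_le (z.2.2.add w.2.2) ((z.2.1.KP_add w.2.1).smul (-1))
  have h5 : (z + w).1.1 - KP (z + w).1.2 = z.1.1 - KP z.1.2 + (w.1.1 - KP w.1.2) +
      (-1 : ℝ) • (KP (z.1.2 + w.1.2) - KP z.1.2 - KP w.1.2) := by
    ext n
    simp only [Submodule.coe_add, Prod.fst_add, Prod.snd_add, Pi.add_apply, Pi.sub_apply,
      Pi.smul_apply, smul_eq_mul]
    ring
  rw [sq2_smul, ← h5] at h4
  have := sq2_nonneg z.1.2
  have := sq2_nonneg w.1.2
  have := sq2_nonneg (z.1.1 - KP z.1.2)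
  have := sq2_nonneg (w.1.1 - KP w.1.2)
  simp only [Q, Submodule.coe_add, Prod.snd_add] at h4 ⊢
  linarith

lemma Q_smul (c : ℝ) (z : Z2) : Q (c • z) = c ^ 2 * Q z := by
  simp only [Q, Submodule.coe_smul, Prod.smul_fst, Prod.smul_snd, KP_smul, ← smul_sub, sq2_smul]
  ring

lemma Q_zero : Q 0 = 0 := by simpa using Q_smul 0 0

lemma Q_neg (z : Z2) : Q (-z) = Q z := by
  rw [← neg_one_smul ℝ z, Q_smul]; norm_num

lemma Q_sub_le (z w : Z2) : Q (z - w) ≤ 1000 * (Q z + Q w) := by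
  rw [sub_eq_add_neg, ← Q_neg w]; exact Q_add_le _ _

lemma Q_sum_le (f : ℕ → Z2) (N : ℕ) :
    Q (∑ k ∈ Finset.range N, f k) ≤ 1000 ^ N * ∑ k ∈ Finset.range N, Q (f k) := by
  induction N with
  | zero => simp [Q_zero]
  | succ N ih =>
    rw [Finset.sum_range_succ, Finset.sum_range_succ]
    have h1 := Q_add_le (∑ k ∈ Finset.range N, f k) (f N)
    have h2 : Q (f N) ≤ 1000 ^ N * Q (f N) :=
      le_mul_of_one_le_left (Q_nonneg _) (one_le_pow₀ (by norm_num))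
    rw [pow_succ]
    linarith

lemma Q_sum_le' {f : ℕ → Z2} {N : ℕ} {δ : ℝ} (h : ∀ k < N, Q (f k) ≤ δ) :
    Q (∑ k ∈ Finset.range N, f k) ≤ 1000 ^ N * (N * δ) := by
  refine (Q_sum_le f N).trans (mul_le_mul_of_nonneg_left ?_ (by positivity))
  simpa using Finset.sum_le_card_nsmul _ _ δ fun k hk => h k (Finset.mem_range.1 hk)

/-- Boundedness with an explicit constant. -/
def BQ (T : Z2 →ₗ[ℝ] Z2) (C : ℝ) : Prop := 1 ≤ C ∧ ∀ z, Q (T z) ≤ C * Q z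

lemma Q_le_qnorm (z : Z2) : Q z ≤ qnorm z ^ 2 ∧ qnorm z ^ 2 ≤ 2 * Q z := by
  rw [Q, qnorm, ← l2norm_sq', ← l2norm_sq']
  have := l2norm_nonneg (z.1.1 - KP z.1.2)
  have := l2norm_nonneg z.1.2
  constructor <;> nlinarith [sq_nonneg (l2norm (z.1.1 - KP z.1.2) - l2norm z.1.2)]

lemma qnorm_nonneg (z : Z2) : 0 ≤ qnorm z := add_nonneg (l2norm_nonneg _) (l2norm_nonneg _)

lemma Bdd.bq {T : Z2 →ₗ[ℝ] Z2} (h : Bdd T) : ∃ C, BQ T C := by
  obtain ⟨C, hC⟩ := h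
  refine ⟨2 * C ^ 2 + 1, by nlinarith [sq_nonneg C], fun z => ?_⟩
  have h1 := pow_le_pow_left₀ (qnorm_nonneg _) (hC z) 2
  have h2 := mul_le_mul_of_nonneg_left (Q_le_qnorm z).2 (sq_nonneg C)
  have h3 := (Q_le_qnorm (T z)).1
  have := Q_nonneg z
  rw [mul_pow] at h1
  linarith

lemma BQ.bdd {T : Z2 →ₗ[ℝ] Z2} {C : ℝ} (h : BQ T C) : Bdd T := by
  refine ⟨2 * C, fun z => abs_le_of_sq_le_sq' ?_ (by have := h.1; have := qnorm_nonneg z; positivity)
    |>.2⟩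
  have h1 := (Q_le_qnorm (T z)).2
  have h2 := h.2 z
  have h3 := mul_le_mul_of_nonneg_left (Q_le_qnorm z).1 (zero_le_one.trans h.1)
  have h4 : C * qnorm z ^ 2 ≤ C ^ 2 * qnorm z ^ 2 :=
    mul_le_mul_of_nonneg_right (by nlinarith [h.1]) (sq_nonneg _)
  have := h.1
  have : 0 ≤ C ^ 2 * qnorm z ^ 2 := by positivity
  rw [mul_pow, mul_pow]
  linarith

lemma L2.ind {x : ℕ → ℝ} (hx : L2 x) (B : Set ℕ) : L2 (B.indicator x) :=
  hx.of_le 1 fun n => by by_cases h : n ∈ B <;> simp [h, sq_nonneg]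

lemma sq2_ind_le {x : ℕ → ℝ} (hx : L2 x) (B : Set ℕ) : sq2 (B.indicator x) ≤ sq2 x :=
  sq2_le hx fun n => by by_cases h : n ∈ B <;> simp [h, sq_nonneg]

lemma ind_sub_KP {y x : ℕ → ℝ} (hx : L2 x) (B : Set ℕ) :
    B.indicator y - KP (B.indicator x) = B.indicator (y - KP x) +
      (log (l2norm (B.indicator x)) - log (l2norm x)) • B.indicator x := by
  ext n
  rw [Pi.sub_apply, (hx.ind B).KP_eq]
  by_cases h : n ∈ B
  · simp only [Set.indicator_of_mem h, Pi.add_apply, Pi.sub_apply, Pi.smul_apply, smul_eq_mul,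
      hx.KP_eq]
    ring
  · simp [h]

/-- The coordinate projection onto a set of indices. -/
noncomputable def P (B : Set ℕ) : Z2 →ₗ[ℝ] Z2 where
  toFun z := ⟨(B.indicator z.1.1, B.indicator z.1.2), z.2.1.ind B, by
    dsimp only
    rw [ind_sub_KP z.2.1]
    exact (z.2.2.ind B).add ((z.2.1.ind B).smul _)⟩
  map_add' z w := by
    ext n <;> by_cases h : n ∈ B <;> simp [h]
  map_smul' c z := by
    ext n <;> by_cases h : n ∈ B <;> simp [h]

@[simp] lemma P_fst (B : Set ℕ) (z : Z2) : (P B z).1.1 = B.indicator z.1.1 := rfl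

@[simp] lemma P_snd (B : Set ℕ) (z : Z2) : (P B z).1.2 = B.indicator z.1.2 := rfl

lemma Q_P_le' (B : Set ℕ) (z : Z2) : Q (P B z) ≤ 2 * sq2 (B.indicator (z.1.1 - KP z.1.2)) +
    9 * (l2norm (B.indicator z.1.2) * l2norm z.1.2) := by
  have h1 := sq2_add_le (z.2.2.ind B) ((z.2.1.ind B).smul
    (log (l2norm (B.indicator z.1.2)) - log (l2norm z.1.2)))
  have h2 : l2norm (B.indicator z.1.2) ≤ l2norm z.1.2 :=
    l2norm_le (l2norm_nonneg _) (by rw [l2norm_sq']; exact sq2_ind_le z.2.1 B)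
  have h0 := l2norm_nonneg (B.indicator z.1.2)
  have h3 := mul_le_mul_of_nonneg_left (mul_log_sq_le h0 h2) h0
  have h4 := mul_le_mul_of_nonneg_left h2 h0
  rw [sq2_smul, ← ind_sub_KP z.2.1] at h1
  rw [Q, P_fst, P_snd]
  rw [← l2norm_sq' (B.indicator z.1.2)] at h1 ⊢
  nlinarith

lemma Q_P_le (B : Set ℕ) (z : Z2) : Q (P B z) ≤ 9 * Q z := by
  have h1 := Q_P_le' B z
  have h2 : l2norm (B.indicator z.1.2) ≤ l2norm z.1.2 :=
    l2norm_le (l2norm_nonneg _) (by rw [l2norm_sq']; exact sq2_ind_le z.2.1 B)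
  have h3 := mul_le_mul_of_nonneg_right h2 (l2norm_nonneg z.1.2)
  have h4 := sq2_ind_le z.2.2 B
  have := sq2_nonneg (z.1.1 - KP z.1.2)
  refine h1.trans ?_
  rw [Q, ← l2norm_sq' z.1.2]
  nlinarith

lemma P_P (A B : Set ℕ) (z : Z2) : P A (P B z) = P (A ∩ B) z := by
  ext n <;> simp [Set.indicator_indicator]

lemma P_compl (B : Set ℕ) (z : Z2) : P Bᶜ z = z - P B z := by
  ext n <;> by_cases h : n ∈ B <;> simp [h]

lemma P_Ici (m : ℕ) (z : Z2) : P (Set.Ici m) z = z - P (Set.Iio m) z := by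
  rw [← P_compl, Set.compl_Iio]

lemma sub_P_Ico {a b : ℕ} (h : a ≤ b) (z : Z2) :
    z - P (Set.Ico a b) z = P (Set.Iio a) z + P (Set.Ici b) z := by
  ext n <;> by_cases h1 : n < a <;> by_cases h2 : n < b <;>
    simp [Set.indicator, h1, h2, not_lt.1, not_le.2] <;> omega

lemma P_Iio_mono {a b : ℕ} (h : a ≤ b) {z : Z2} (hz : P (Set.Iio b) z = 0) :
    P (Set.Iio a) z = 0 := by
  rw [← Set.inter_eq_left.2 (Set.Iio_subset_Iio h), ← P_P, hz, map_zero]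

lemma P_Iio_Ici (m : ℕ) (z : Z2) : P (Set.Iio m) (P (Set.Ici m) z) = 0 := by
  rw [P_P, Set.Iio_inter_Ici, Set.Ico_self]
  ext n <;> simp

lemma tendsto_sq2_tail {x : ℕ → ℝ} (hx : L2 x) :
    Tendsto (fun m => sq2 ((Set.Ici m).indicator x)) atTop (𝓝 0) := by
  refine (tendsto_sum_nat_add fun n => x n ^ 2).congr fun m => ?_
  rw [sq2, ← (hx.ind (Set.Ici m)).summable.sum_add_tsum_nat_add m, Finset.sum_eq_zero, zero_add]
  · exact tsum_congr fun n => by simp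
  · exact fun n hn => by simp [not_le.2 (Finset.mem_range.1 hn)]

lemma tendsto_tail (z : Z2) : Tendsto (fun m => Q (P (Set.Ici m) z)) atTop (𝓝 0) := by
  have h1 := ((tendsto_sq2_tail z.2.2).const_mul 2).add
    (((tendsto_sq2_tail z.2.1).sqrt.mul_const (l2norm z.1.2)).const_mul 9)
  simp only [mul_zero, sqrt_zero, zero_mul, add_zero] at h1
  exact squeeze_zero (fun m => Q_nonneg _) (fun m => Q_P_le' _ z) h1

/-- The nilpotent operator `(y, x) ↦ (x, 0)`. -/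
def al : Z2 →ₗ[ℝ] Z2 where
  toFun z := ⟨(z.1.2, 0), by simp [L2, summable_zero], by simpa [KP_zero] using z.2.1⟩
  map_add' z w := by ext n <;> simp
  map_smul' c z := by ext n <;> simp

@[simp] lemma al_fst (z : Z2) : (al z).1.1 = z.1.2 := rfl

@[simp] lemma al_snd (z : Z2) : (al z).1.2 = 0 := rfl

lemma Q_of_snd {z : Z2} (h : z.1.2 = 0) : Q z = sq2 z.1.1 := by
  simp [Q, h, KP_zero, sq2_zero]

lemma Q_al (z : Z2) : Q (al z) = sq2 z.1.2 := Q_of_snd rfl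

lemma Q_al_le (z : Z2) : Q (al z) ≤ Q z := by
  rw [Q_al]; exact le_add_of_nonneg_left (sq2_nonneg _)

lemma al_P (B : Set ℕ) (z : Z2) : al (P B z) = P B (al z) := by ext n <;> simp

lemma al_al (z : Z2) : al (al z) = 0 := by ext n <;> simp

/-- The component of `z` in the subspace of pairs `(y, 0)`. -/
noncomputable def vec (z : Z2) : Z2 :=
  ⟨(z.1.1 - KP z.1.2, 0), by simp [L2, summable_zero], by simpa [KP_zero] using z.2.2⟩

lemma Q_sub_vec (z : Z2) : Q (z - vec z) = Q (al z) := by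
  simp [Q, vec, sq2_zero, KP_zero]

lemma snd_sq_le (z : Z2) (j : ℕ) : z.1.2 j ^ 2 ≤ Q z :=
  (z.2.1.le_tsum j fun _ _ => sq_nonneg _).trans (le_add_of_nonneg_left (sq2_nonneg _))

lemma KP_sq_le {x : ℕ → ℝ} (hx : L2 x) (j : ℕ) : KP x j ^ 2 ≤ 4 * sq2 x := by
  have := sq_log_sq_le (abs_nonneg _) (hx.abs_le j)
  rwa [sq_abs, ← mul_pow, mul_sub, ← hx.KP_eq, l2norm_sq'] at this

lemma fst_sq_le (z : Z2) (j : ℕ) : z.1.1 j ^ 2 ≤ 8 * Q z := by
  have h1 : (z.1.1 j - KP z.1.2 j) ^ 2 ≤ sq2 (z.1.1 - KP z.1.2) :=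
    z.2.2.le_tsum j fun _ _ => sq_nonneg _
  have h2 := KP_sq_le z.2.1 j
  have := sq2_nonneg (z.1.1 - KP z.1.2)
  rw [Q]
  nlinarith [sq_nonneg (z.1.1 j - 2 * KP z.1.2 j)]

lemma L2_of_fin {x : ℕ → ℝ} {m : ℕ} (h : ∀ j, m ≤ j → x j = 0) : L2 x :=
  summable_of_ne_finset_zero (s := Finset.range m) fun j hj => by
    rw [h j (by simpa using hj)]; simp

lemma sq2_of_fin {x : ℕ → ℝ} {m : ℕ} (h : ∀ j, m ≤ j → x j = 0) :
    sq2 x = ∑ j ∈ Finset.range m, x j ^ 2 :=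
  tsum_eq_sum fun j hj => by rw [h j (by simpa using hj)]; simp

lemma mem_of_fin {y x : ℕ → ℝ} {m : ℕ} (hy : ∀ j, m ≤ j → y j = 0) (hx : ∀ j, m ≤ j → x j = 0) :
    (y, x) ∈ Z2 := ⟨L2_of_fin hx, L2_of_fin (m := m) fun j hj => by simp [KP, hy j hj, hx j hj]⟩

/-- The first unit vectors. -/
def e1 (j : ℕ) : Z2 := ⟨(Pi.single j 1, 0), mem_of_fin (m := j + 1)
  (fun i hi => Pi.single_eq_of_ne (by omega) _) fun _ _ => rfl⟩

/-- The second unit vectors. -/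
def e2 (j : ℕ) : Z2 := ⟨(0, Pi.single j 1), mem_of_fin (m := j + 1) (fun _ _ => rfl)
  fun i hi => Pi.single_eq_of_ne (by omega) _⟩

lemma P_Iio_eq (n : ℕ) (z : Z2) :
    P (Set.Iio n) z = ∑ j ∈ Finset.range n, (z.1.1 j • e1 j + z.1.2 j • e2 j) := by
  ext i <;> simp [e1, e2, Prod.fst_sum, Prod.snd_sum, Finset.sum_apply, Pi.single_apply,
    Set.indicator]

lemma Q_P_Iio_le (W : Z2 →ₗ[ℝ] Z2) (n : ℕ) (z : Z2) {a δ : ℝ} (ha : ∀ j < n, z.1.1 j ^ 2 ≤ a ∧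
    z.1.2 j ^ 2 ≤ a) (h : ∀ j < n, Q (W (e1 j)) + Q (W (e2 j)) ≤ δ) :
    Q (W (P (Set.Iio n) z)) ≤ 1000 ^ n * (n * (1000 * (a * δ))) := by
  rw [P_Iio_eq, map_sum]
  refine Q_sum_le' fun j hj => ?_
  rw [map_add, map_smul, map_smul]
  refine (Q_add_le _ _).trans (mul_le_mul_of_nonneg_left ?_ (by norm_num))
  rw [Q_smul, Q_smul]
  have h1 := mul_le_mul_of_nonneg_right (ha j hj).1 (Q_nonneg (W (e1 j)))
  have h2 := mul_le_mul_of_nonneg_right (ha j hj).2 (Q_nonneg (W (e2 j)))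
  have h3 := mul_le_mul_of_nonneg_left (h j hj) ((sq_nonneg _).trans (ha j hj).1)
  linarith

/-- Tails are uniformly small on finite-dimensional coordinate subspaces. -/
lemma eventually_tail (W : Z2 →ₗ[ℝ] Z2) (n : ℕ) {η : ℝ} (hη : 0 < η) :
    ∀ᶠ m in atTop, ∀ z, Q (P (Set.Ici m) (W (P (Set.Iio n) z))) ≤ η * Q z := by
  set c : ℝ := 1000 ^ n * (n * 8000) + 1 with hc
  have hc0 : 0 < c := by positivity
  have h1 : ∀ᶠ m in atTop, ∀ j ∈ Finset.range n,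
      Q (P (Set.Ici m) (W (e1 j))) + Q (P (Set.Ici m) (W (e2 j))) ≤ η / c :=
    (eventually_all_finset _).2 fun j _ => by
      have := (tendsto_tail (W (e1 j))).add (tendsto_tail (W (e2 j)))
      rw [add_zero] at this
      exact this.eventually (ge_mem_nhds (by positivity))
  refine h1.mono fun m hm z => ?_
  have h0 := Q_nonneg z
  have h2 := Q_P_Iio_le (P (Set.Ici m) ∘ₗ W) n z (a := 8 * Q z)
    (fun j _ => ⟨fst_sq_le z j, (snd_sq_le z j).trans (by linarith)⟩)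
    fun j hj => hm j (Finset.mem_range.2 hj)
  refine h2.trans ?_
  have h3 : (1000 : ℝ) ^ n * (n * (1000 * (8 * Q z * (η / c)))) = (c - 1) * (η / c) * Q z := by
    rw [hc]; ring
  rw [h3]
  refine mul_le_mul_of_nonneg_right ?_ h0
  rw [sub_mul, mul_div_cancel₀ _ hc0.ne']
  exact sub_le_self _ (by positivity)

end Pool.Agent.Lib.MP_7f6eca_an
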