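import Pool.Agent.Lib.MP_7f6eca_an.Basic

/-! Block sequences in the Kalton-Peck space and the commutator with the nilpotent operator. -/

namespace Pool.Agent.Lib.MP_7f6eca_an

open Real Filter Topology Finset

lemma blk_eq {a : ℕ → ℕ} (ha : Monotone a) {f : ℕ → ℕ → ℝ}
    (hf : ∀ k j, j ∉ Set.Ico (a k) (a (k + 1)) → f k j = 0) {N j k : ℕ} (hk : k < N)
    (hj : j ∈ Set.Ico (a k) (a (k + 1))) : ∑ i ∈ range N, f i j = f k j := by
  refine sum_eq_single k (fun i _ hi => hf i j fun h => ?_) fun h => absurd (mem_range.2 hk) h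
  rcases lt_or_gt_of_ne hi with h1 | h1
  · have := ha (show i + 1 ≤ k from h1); have := h.2; have := hj.1; omega
  · have := ha (show k + 1 ≤ i from h1); have := h.1; have := hj.2; omega

lemma sq2_blk {a : ℕ → ℕ} (ha : Monotone a) {f : ℕ → ℕ → ℝ}
    (hf : ∀ k j, j ∉ Set.Ico (a k) (a (k + 1)) → f k j = 0) (hL : ∀ k, L2 (f k)) (N : ℕ) :
    sq2 (∑ k ∈ range N, f k) = ∑ k ∈ range N, sq2 (f k) := by
  simp only [sq2]
  rw [← Summable.tsum_finsetSum fun k _ => (hL k).summable]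
  refine tsum_congr fun j => ?_
  rw [Finset.sum_apply]
  by_cases h : ∃ k < N, j ∈ Set.Ico (a k) (a (k + 1))
  · obtain ⟨k, hk, hj⟩ := h
    rw [blk_eq ha hf hk hj, blk_eq (f := fun k j => f k j ^ 2) ha
      (fun k j h => by rw [hf k j h]; simp) hk hj]
  · push Not at h
    rw [sum_eq_zero fun k hk => hf k j (h k (mem_range.1 hk)),
      sum_eq_zero fun k hk => by rw [hf k j (h k (mem_range.1 hk))]; simp]
    simp

lemma sum_fst (z : ℕ → Z2) (N : ℕ) : (∑ k ∈ range N, z k).1.1 = ∑ k ∈ range N, (z k).1.1 := by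
  simp [Prod.fst_sum]

lemma sum_snd (z : ℕ → Z2) (N : ℕ) : (∑ k ∈ range N, z k).1.2 = ∑ k ∈ range N, (z k).1.2 := by
  simp [Prod.snd_sum]

lemma blocks_exact {a : ℕ → ℕ} (ha : Monotone a) {z : ℕ → Z2}
    (hz : ∀ k j, j ∉ Set.Ico (a k) (a (k + 1)) → (z k).1.1 j = 0 ∧ (z k).1.2 j = 0) {ρ : ℝ}
    (hρ : 0 < ρ) {n : ℕ} (hn : 0 < n) (hQ : ∀ k < n ^ 2, Q (z k) ≤ ρ ^ 2) :
    Q (∑ k ∈ range (n ^ 2), z k - log n • al (∑ k ∈ range (n ^ 2), z k)) ≤ 35 * (n ^ 2 * ρ ^ 2) := by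
  have hn' : (0 : ℝ) < n := by exact_mod_cast hn
  set x := ∑ k ∈ range (n ^ 2), (z k).1.2 with hx
  have hxL : L2 x := by rw [hx, ← sum_snd]; exact (∑ k ∈ range (n ^ 2), z k).2.1
  have h1 : sq2 x = ∑ k ∈ range (n ^ 2), sq2 (z k).1.2 :=
    sq2_blk ha (fun k j h => (hz k j h).2) (fun k => (z k).2.1) _
  have h2 : ∀ k < n ^ 2, sq2 (z k).1.2 ≤ ρ ^ 2 := fun k hk =>
    (le_add_of_nonneg_left (sq2_nonneg _)).trans (hQ k hk)
  have h3 : sq2 x ≤ (n * ρ) ^ 2 := by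
    rw [h1, mul_pow]
    simpa using sum_le_card_nsmul _ _ _ fun k hk => h2 k (mem_range.1 hk)
  set c := log (l2norm x) - log (n * ρ) with hc
  let u : ℕ → ℕ → ℝ := fun k => (z k).1.1 - KP (z k).1.2 +
    (c - (log (l2norm (z k).1.2) - log ρ)) • (z k).1.2
  have hu : ∀ k j, j ∉ Set.Ico (a k) (a (k + 1)) → u k j = 0 := fun k j h => by
    simp [u, KP, (hz k j h).1, (hz k j h).2]
  have h4 : ∑ k ∈ range (n ^ 2), (z k).1.1 - log n • x - KP x = ∑ k ∈ range (n ^ 2), u k := by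
    ext j
    simp only [Pi.sub_apply, Pi.smul_apply, smul_eq_mul, hxL.KP_eq, Finset.sum_apply]
    by_cases h : ∃ k < n ^ 2, j ∈ Set.Ico (a k) (a (k + 1))
    · obtain ⟨k, hk, hj⟩ := h
      have h5 : x j = (z k).1.2 j := by
        rw [hx, Finset.sum_apply, blk_eq ha (fun k j h => (hz k j h).2) hk hj]
      rw [blk_eq ha hu hk hj, blk_eq ha (fun k j h => (hz k j h).1) hk hj, h5]
      simp only [u, Pi.add_apply, Pi.sub_apply, Pi.smul_apply, smul_eq_mul, (z k).2.1.KP_eq, hc,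
        log_mul hn'.ne' hρ.ne']
      ring
    · push Not at h
      have h5 : x j = 0 := by
        rw [hx, Finset.sum_apply]
        exact sum_eq_zero fun k hk => (hz k j (h k (mem_range.1 hk))).2
      rw [sum_eq_zero fun k hk => hu k j (h k (mem_range.1 hk)),
        sum_eq_zero fun k hk => (hz k j (h k (mem_range.1 hk))).1, h5]
      simp
  have h5 : ∀ k ∈ range (n ^ 2), sq2 (u k) ≤ 18 * ρ ^ 2 + 4 * c ^ 2 * sq2 (z k).1.2 := by
    intro k hk
    have h6 := sq2_add_le (z k).2.2 ((z k).2.1.smul (c - (log (l2norm (z k).1.2) - log ρ)))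
    have h7 := sq_log_sq_le (l2norm_nonneg _) (l2norm_le hρ.le (h2 k (mem_range.1 hk)))
    have h8 : sq2 ((z k).1.1 - KP (z k).1.2) ≤ ρ ^ 2 :=
      (le_add_of_nonneg_right (sq2_nonneg _)).trans (hQ k (mem_range.1 hk))
    rw [sq2_smul] at h6
    rw [l2norm_sq'] at h7
    have h9 := mul_nonneg (sq_nonneg (c + (log (l2norm (z k).1.2) - log ρ))) (sq2_nonneg (z k).1.2)
    refine h6.trans ?_
    nlinarith
  have h6 := sum_le_sum h5
  rw [← sq2_blk ha hu (fun k => (z k).2.2.add ((z k).2.1.smul _)), ← h4, sum_add_distrib, ← mul_sum,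
    ← mul_sum, ← h1] at h6
  have h7 := sq_log_sq_le (l2norm_nonneg _) (l2norm_le (by positivity) h3)
  rw [l2norm_sq', ← hc] at h7
  simp only [Q, Submodule.coe_sub, Submodule.coe_smul, Prod.fst_sub, Prod.snd_sub, Prod.smul_fst,
    Prod.smul_snd, al_fst, al_snd, smul_zero, sub_zero, sum_fst, sum_snd, ← hx]
  simp only [sum_const, card_range, nsmul_eq_mul, Nat.cast_pow] at h6
  rw [mul_pow] at h3 h7
  nlinarith

/-- The element `z` is supported in the interval from `a` to `b` up to an error `δ`. -/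
def Ab (a b : ℕ) (δ : ℝ) (z : Z2) : Prop := Q (z - P (Set.Ico a b) z) ≤ δ

lemma Q_one_sub_al (l : ℝ) (z : Z2) : Q (z - l • al z) ≤ 1000 * (1 + l ^ 2) * Q z := by
  have h1 := Q_sub_le z (l • al z)
  have h2 := mul_le_mul_of_nonneg_left (Q_al_le z) (sq_nonneg l)
  rw [Q_smul] at h1
  linarith

lemma blocks_approx {n : ℕ} (hn : 0 < n) : ∃ δ > 0, ∀ (a : ℕ → ℕ) (z : ℕ → Z2) (R : ℝ), Monotone a →
    1 ≤ R → (∀ k < n ^ 2, Q (z k) ≤ R ∧ Ab (a k) (a (k + 1)) δ (z k)) →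
    Q (∑ k ∈ range (n ^ 2), z k - log n • al (∑ k ∈ range (n ^ 2), z k)) ≤
      400000 * (n ^ 2 * R) := by
  set c : ℝ := 1000 * (1 + log n ^ 2) * 1000 ^ (n ^ 2) with hc
  have hc0 : 0 < c := by positivity
  refine ⟨1 / c, by positivity, fun a z R ha hR h => ?_⟩
  have h1 := blocks_exact ha (z := fun k => P (Set.Ico (a k) (a (k + 1))) (z k))
    (fun k j hj => by simp [Set.indicator_of_notMem hj]) (ρ := 3 * √R) (by positivity) hn
    fun k hk => by
      rw [mul_pow, sq_sqrt (by linarith)]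
      have := Q_P_le (Set.Ico (a k) (a (k + 1))) (z k)
      have := (h k hk).1
      linarith
  have h2 := (Q_one_sub_al (log n) _).trans (mul_le_mul_of_nonneg_left
    (Q_sum_le' fun k hk => (h k hk).2) (by positivity))
  have h3 := (Q_add_le _ _).trans (mul_le_mul_of_nonneg_left (add_le_add h1 h2) (by norm_num))
  rw [← mul_assoc _ (1000 ^ _ : ℝ), ← hc, mul_left_comm c, mul_one_div_cancel hc0.ne', mul_pow,
    sq_sqrt (by linarith)] at h3
  refine le_trans (le_of_eq ?_) (h3.trans ?_)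
  · congr 1
    simp only [sum_sub_distrib, map_sub, smul_sub]
    abel
  · have : (0 : ℝ) ≤ n ^ 2 := by positivity
    push_cast
    nlinarith

lemma blocks_lower {η : ℝ} (hη : 0 < η) (N : ℕ) : ∃ δ > 0, ∀ (a : ℕ → ℕ) (s : ℕ → Z2), Monotone a →
    (∀ k < N, η ≤ Q (s k) ∧ Q (al (s k)) ≤ δ ∧ Ab (a k) (a (k + 1)) δ (s k)) →
    N * η ≤ 2000000 * Q (∑ k ∈ range N, s k) := by
  set c : ℝ := 1000 ^ N with hc
  have hc1 : 1 ≤ c := one_le_pow₀ (by norm_num)
  set δ := η / (10 ^ 11 * c) with hδ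
  have hδ0 : 0 < δ := by positivity
  have hδ1 : η = 10 ^ 11 * c * δ := by rw [hδ]; field_simp
  refine ⟨δ, hδ0, fun a s ha h => ?_⟩
  let r : ℕ → Z2 := fun k => P (Set.Ico (a k) (a (k + 1))) (vec (s k))
  have h1 : ∀ k < N, Q (s k - r k) ≤ 10000 * δ := fun k hk => by
    have h2 := Q_add_le (s k - P (Set.Ico (a k) (a (k + 1))) (s k))
      (P (Set.Ico (a k) (a (k + 1))) (s k - vec (s k)))
    have h3 := Q_P_le (Set.Ico (a k) (a (k + 1))) (s k - vec (s k))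
    rw [Q_sub_vec] at h3
    rw [map_sub, sub_add_sub_cancel] at h2
    have h4 := (h k hk).2.1
    have h5 : Q _ ≤ δ := (h k hk).2.2
    rw [map_sub] at h3
    linarith
  have h2 : ∀ k, (r k).1.2 = 0 := fun k => by simp [r, vec]
  have h3 : Q (∑ k ∈ range N, r k) = ∑ k ∈ range N, Q (r k) := by
    rw [Q_of_snd (by rw [sum_snd]; exact sum_eq_zero fun k _ => h2 k), sum_fst,
      sq2_blk ha (fun k j hj => by simp [r, Set.indicator_of_notMem hj])
        (fun k => by simpa [h2 k, KP_zero] using (r k).2.2)]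
    exact sum_congr rfl fun k _ => (Q_of_snd (h2 k)).symm
  have h4 : ∀ k ∈ range N, η / 1000 - 10000 * δ ≤ Q (r k) := fun k hk => by
    have h5 := Q_add_le (s k - r k) (r k)
    rw [sub_add_cancel] at h5
    have := h1 k (mem_range.1 hk)
    have := (h k (mem_range.1 hk)).1
    linarith
  have h5 := card_nsmul_le_sum _ _ _ h4
  have h6 := Q_sub_le (∑ k ∈ range N, s k) (∑ k ∈ range N, (s k - r k))
  have h7 := Q_sum_le' h1
  rw [sum_sub_distrib, sub_sub_cancel, ← sum_sub_distrib, h3] at h6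
  simp only [card_range, nsmul_eq_mul] at h5
  rw [← hc] at h7
  have h8 : (0 : ℝ) ≤ N * δ := by positivity
  have h9 : N * δ ≤ c * (N * δ) := le_mul_of_one_le_left h8 hc1
  have h10 : N * η = 10 ^ 11 * (c * (N * δ)) := by rw [hδ1]; ring
  nlinarith

lemma exists_seq {Φ : ℕ → ℕ → Z2 → Prop} (h : ∀ a, ∃ b, a ≤ b ∧ ∃ z, Φ a b z) :
    ∃ (a : ℕ → ℕ) (z : ℕ → Z2), Monotone a ∧ ∀ k, Φ (a k) (a (k + 1)) (z k) := by
  choose f hf z hz using h
  refine ⟨fun k => f^[k] 0, fun k => z (f^[k] 0), monotone_nat_of_le_succ fun k => ?_, fun k => ?_⟩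
  · rw [Function.iterate_succ_apply']; exact hf _
  · dsimp only
    rw [Function.iterate_succ_apply']; exact hz _

lemma eventually_Ab {a : ℕ} {δ : ℝ} (hδ : 0 < δ) {z : Z2} (h : Q (P (Set.Iio a) z) ≤ δ / 2000) :
    ∀ᶠ b in atTop, Ab a b δ z := by
  filter_upwards [eventually_ge_atTop a,
    (tendsto_tail z).eventually (ge_mem_nhds (by positivity : 0 < δ / 2000))] with b hb h1
  rw [Ab, sub_P_Ico hb]
  have := Q_add_le (P (Set.Iio a) z) (P (Set.Ici b) z)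
  linarith

lemma normalise {F : Z2 → ℝ} (hF : ∀ (c : ℝ) z, F (c • z) = c ^ 2 * F z) {C η : ℝ}
    (hC : ∀ z, F z ≤ C * Q z) {n : ℕ} (h : ¬ ∀ z, P (Set.Iio n) z = 0 → F z ≤ η * Q z) :
    ∃ z, P (Set.Iio n) z = 0 ∧ Q z = 1 ∧ η < F z := by
  push Not at h
  obtain ⟨z, hz, h1⟩ := h
  have h2 : 0 < Q z := (Q_nonneg z).lt_of_ne fun h3 => by
    have := hC z
    rw [← h3, mul_zero] at this h1
    linarith
  refine ⟨(√(Q z))⁻¹ • z, by rw [map_smul, hz, smul_zero], ?_, ?_⟩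
  · rw [Q_smul, inv_pow, sq_sqrt h2.le, inv_mul_cancel₀ h2.ne']
  · rwa [hF, inv_pow, sq_sqrt h2.le, ← div_eq_inv_mul, lt_div_iff₀ h2]

lemma frequently_of_not {F : Z2 → ℝ} {η : ℝ}
    (h : ¬ ∀ᶠ n in atTop, ∀ z, P (Set.Iio n) z = 0 → F z ≤ η * Q z) (n : ℕ) :
    ¬ ∀ z, P (Set.Iio n) z = 0 → F z ≤ η * Q z := fun h1 =>
  h ((eventually_ge_atTop n).mono fun _ hm z hz => h1 z (P_Iio_mono hm hz))

lemma log_sq_le {n : ℕ} (hn : 0 < n) : log n ^ 2 ≤ 4 * n := by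
  simpa using mul_log_sq_le zero_le_one (M := n) (by exact_mod_cast hn)

/-- Bounded functionals are small on far out vectors. -/
lemma shrinking (φ : Z2 →ₗ[ℝ] ℝ) {C : ℝ} (hC : ∀ z, φ z ^ 2 ≤ C * Q z) {η : ℝ} (hη : 0 < η) :
    ∀ᶠ m in atTop, ∀ z, P (Set.Iio m) z = 0 → φ z ^ 2 ≤ η * Q z := by
  by_contra h
  obtain ⟨n, hn⟩ := exists_nat_gt (10 ^ 10 * |C| / η)
  have hn' : (0 : ℝ) < n := lt_of_le_of_lt (by positivity) hn
  have hn0 : 0 < n := by exact_mod_cast hn'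
  obtain ⟨δ, hδ, hB⟩ := blocks_approx hn0
  obtain ⟨a, z, ha, hz⟩ := exists_seq (Φ := fun a b z => Q z ≤ 1 ∧ Ab a b δ z ∧ √η ≤ φ z) fun a => by
    obtain ⟨z, h1, h2, h3⟩ := normalise (F := fun z => φ z ^ 2) (fun c z => by simp [mul_pow]) hC
      (frequently_of_not h a)
    obtain ⟨w, h4, h5, h6⟩ : ∃ w, P (Set.Iio a) w = 0 ∧ Q w = 1 ∧ √η ≤ φ w := by
      have h7 : √η ≤ |φ z| := by rw [← sqrt_sq_eq_abs]; exact sqrt_le_sqrt h3.le
      rcases le_total 0 (φ z) with h8 | h8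
      · exact ⟨z, h1, h2, by rwa [abs_of_nonneg h8] at h7⟩
      · exact ⟨-z, by rw [map_neg, h1, neg_zero], by rw [Q_neg, h2],
          by rwa [abs_of_nonpos h8, ← map_neg] at h7⟩
    obtain ⟨b, hb, hb'⟩ := ((eventually_ge_atTop a).and (eventually_Ab hδ (a := a) (z := w)
      (by rw [h4, Q_zero]; positivity))).exists
    exact ⟨b, hb, w, h5.le, hb', h6⟩
  have h1 := hB a z 1 ha le_rfl fun k _ => ⟨(hz k).1, (hz k).2.1⟩
  set s := ∑ k ∈ range (n ^ 2), z k with hs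
  have h2 : Q (al s) ≤ Q (s - log n • al s) := by
    have := Q_al_le (s - log n • al s)
    rwa [map_sub, map_smul, al_al, smul_zero, sub_zero] at this
  have h3 := Q_add_le (s - log n • al s) (log n • al s)
  rw [sub_add_cancel, Q_smul] at h3
  have h4 : n ^ 2 * √η ≤ φ s := by
    rw [hs, map_sum]
    have := card_nsmul_le_sum (range (n ^ 2)) (fun k => φ (z k)) _ fun k _ => (hz k).2.2
    rwa [card_range, nsmul_eq_mul, Nat.cast_pow] at this
  have h5 := pow_le_pow_left₀ (by positivity) h4 2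
  rw [mul_pow, sq_sqrt hη.le] at h5
  have h6 : Q s ≤ 1000 * (5 * n * (400000 * n ^ 2)) := by
    have h7 := mul_le_mul (log_sq_le hn0) (h2.trans h1) (Q_nonneg _) (by positivity)
    have h8 : (1 : ℝ) ≤ n := by exact_mod_cast hn0
    have h9 : (n : ℝ) ^ 2 ≤ n * n ^ 2 := le_mul_of_one_le_left (by positivity) h8
    linarith
  have h7 := (hC s).trans (mul_le_mul (le_abs_self C) h6 (Q_nonneg _) (abs_nonneg _))
  rw [div_lt_iff₀ hη] at hn
  have h8 := mul_lt_mul_of_pos_right hn (by positivity : (0 : ℝ) < n ^ 3)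
  have h9 : 0 ≤ |C| * n ^ 3 := by positivity
  nlinarith

lemma shrinking' {T : Z2 →ₗ[ℝ] Z2} {C : ℝ} (hT : BQ T C) (a : ℕ) {η : ℝ} (hη : 0 < η) :
    ∀ᶠ m in atTop, ∀ z, P (Set.Iio m) z = 0 → Q (P (Set.Iio a) (T z)) ≤ η * Q z := by
  set D := ∑ j ∈ range a, (Q (e1 j) + Q (e2 j)) with hD
  have hD0 : 0 ≤ D := sum_nonneg fun j _ => add_nonneg (Q_nonneg _) (Q_nonneg _)
  set c : ℝ := 1000 ^ a * (a * (1000 * D)) + 1 with hc
  have hc0 : 0 < c := by positivity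
  have h1 : ∀ᶠ m in atTop, ∀ j ∈ range a,
      (∀ z, P (Set.Iio m) z = 0 → (T z).1.1 j ^ 2 ≤ η / c * Q z) ∧
      ∀ z, P (Set.Iio m) z = 0 → (T z).1.2 j ^ 2 ≤ η / c * Q z :=
    (eventually_all_finset _).2 fun j _ => by
      refine Eventually.and
        (shrinking (LinearMap.proj j ∘ₗ LinearMap.fst ℝ _ _ ∘ₗ Z2.subtype ∘ₗ T) (C := 8 * C)
          (fun z => (fst_sq_le (T z) j).trans ?_) (by positivity))
        (shrinking (LinearMap.proj j ∘ₗ LinearMap.snd ℝ _ _ ∘ₗ Z2.subtype ∘ₗ T) (C := C)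
          (fun z => (snd_sq_le (T z) j).trans (hT.2 z)) (by positivity))
      have := hT.2 z
      linarith
  refine h1.mono fun m hm z hz => ?_
  have h0 := Q_nonneg z
  have h2 := Q_P_Iio_le LinearMap.id a (T z) (a := η / c * Q z) (δ := D)
    (fun j hj => ⟨(hm j (mem_range.2 hj)).1 z hz, (hm j (mem_range.2 hj)).2 z hz⟩)
    fun j hj => single_le_sum (f := fun j => Q (e1 j) + Q (e2 j))
      (fun j _ => add_nonneg (Q_nonneg _) (Q_nonneg _)) (mem_range.2 hj)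
  refine h2.trans ?_
  have h3 : (1000 : ℝ) ^ a * (a * (1000 * (η / c * Q z * D))) = (c - 1) * (η / c) * Q z := by
    rw [hc]; ring
  rw [h3]
  refine mul_le_mul_of_nonneg_right ?_ h0
  rw [sub_mul, mul_div_cancel₀ _ hc0.ne']
  exact sub_le_self _ (by positivity)

/-- The commutator with the nilpotent operator. -/
def cm (T : Z2 →ₗ[ℝ] Z2) : Z2 →ₗ[ℝ] Z2 := T ∘ₗ al - al ∘ₗ T

lemma cm_apply (T : Z2 →ₗ[ℝ] Z2) (z : Z2) : cm T z = T (al z) - al (T z) := rfl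

lemma BQ.cm {T : Z2 →ₗ[ℝ] Z2} {C : ℝ} (hT : BQ T C) : BQ (cm T) (2000 * C) := by
  refine ⟨by linarith [hT.1], fun z => ?_⟩
  have h1 := Q_sub_le (T (al z)) (al (T z))
  have h2 := (hT.2 _).trans (mul_le_mul_of_nonneg_left (Q_al_le z) (zero_le_one.trans hT.1))
  have h3 := (Q_al_le _).trans (hT.2 z)
  rw [cm_apply]
  linarith

lemma cm_core {T : Z2 →ₗ[ℝ] Z2} {C : ℝ} (hT : BQ T C) {L : Z2 →ₗ[ℝ] Z2} (hL : ∀ z, Q (L z) ≤ Q z)
    (hLP : ∀ B z, L (P B z) = P B (L z))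
    (h0 : ∀ δ > 0, ∀ᶠ n in atTop, ∀ z, P (Set.Iio n) z = 0 → Q (al (L (cm T z))) ≤ δ * Q z)
    {η : ℝ} (hη : 0 < η) :
    ∀ᶠ n in atTop, ∀ z, P (Set.Iio n) z = 0 → Q (L (cm T z)) ≤ η * Q z := by
  by_contra h
  have hC := hT.1
  obtain ⟨n, hn, hn0⟩ := ((tendsto_log_atTop.comp tendsto_natCast_atTop_atTop).eventually_ge_atTop
    (10 ^ 16 * C / η + 1)).and (eventually_gt_atTop 0) |>.exists
  obtain ⟨δ₁, hδ₁, hB⟩ := blocks_approx hn0
  obtain ⟨δ₂, hδ₂, hB'⟩ := blocks_lower hη (n ^ 2)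
  obtain ⟨a, z, ha, hz⟩ := exists_seq (Φ := fun a b z => (Q z ≤ 1 ∧ Ab a b δ₁ z) ∧ Ab a b δ₁ (T z) ∧
      η ≤ Q (L (cm T z)) ∧ Q (al (L (cm T z))) ≤ δ₂ ∧ Ab a b δ₂ (L (cm T z))) fun a => by
    obtain ⟨m, hm, h1, h2, h3⟩ := ((eventually_ge_atTop a).and ((shrinking' hT a
      (by positivity : 0 < δ₁ / 2000)).and ((shrinking' hT.cm a
      (by positivity : 0 < δ₂ / 2000)).and (h0 δ₂ hδ₂)))).exists
    obtain ⟨z, h4, h5, h6⟩ := normalise (F := fun z => Q (L (cm T z)))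
      (fun c z => by simp only [map_smul, Q_smul]) (fun z => (hL _).trans (hT.cm.2 z))
      (frequently_of_not h m)
    have h7 := h1 z h4
    have h8 := h2 z h4
    have h9 := h3 z h4
    rw [h5, mul_one] at h7 h8 h9
    obtain ⟨b, hb, hb1, hb2, hb3⟩ := ((eventually_ge_atTop a).and ((eventually_Ab hδ₁ (a := a)
      (z := z) (by rw [P_Iio_mono hm h4, Q_zero]; positivity)).and ((eventually_Ab hδ₁ h7).and
      (eventually_Ab hδ₂ (a := a) (z := L (cm T z))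
        (by rw [← hLP]; exact (hL _).trans h8))))).exists
    exact ⟨b, hb, z, ⟨h5.le, hb1⟩, hb2, h6.le, h9, hb3⟩
  have h1 := hB a z 1 ha le_rfl fun k _ => (hz k).1
  have h2 := hB a (fun k => T (z k)) C ha hC fun k _ => ⟨(hT.2 _).trans
    (mul_le_of_le_one_right (by linarith) (hz k).1.1), (hz k).2.1⟩
  have h3 := hB' a (fun k => L (cm T (z k))) ha fun k _ => (hz k).2.2
  rw [← map_sum] at h2
  rw [← map_sum, ← map_sum] at h3
  set s := ∑ k ∈ range (n ^ 2), z k with hs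
  have h4 := Q_sub_le (T s - log n • al (T s)) (T (s - log n • al s))
  have h5 : T s - log n • al (T s) - T (s - log n • al s) = log n • cm T s := by
    rw [cm_apply, map_sub, map_smul, smul_sub]; abel
  have h6 := (hT.2 _).trans (mul_le_mul_of_nonneg_left h1 (by linarith))
  rw [h5, Q_smul] at h4
  have h7 := mul_le_mul_of_nonneg_left (h3.trans (mul_le_mul_of_nonneg_left (hL _) (by norm_num)))
    (sq_nonneg (log n))
  have hn' : (0 : ℝ) < n ^ 2 := by positivity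
  have h8 : 10 ^ 16 * C < log n ^ 2 * η := by
    have h9 : 0 < 10 ^ 16 * C / η := by positivity
    rw [← div_lt_iff₀ hη]
    simp only [Function.comp] at hn
    nlinarith
  have h9 := mul_lt_mul_of_pos_right h8 hn'
  have h10 : 0 < C * n ^ 2 := by positivity
  push_cast at h7
  nlinarith

/-- The commutator with the nilpotent operator is small on far out vectors. -/
theorem cm_small {T : Z2 →ₗ[ℝ] Z2} {C : ℝ} (hT : BQ T C) {η : ℝ} (hη : 0 < η) :
    ∀ᶠ n in atTop, ∀ z, P (Set.Iio n) z = 0 → Q (cm T z) ≤ η * Q z :=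
  cm_core hT (L := LinearMap.id) (fun _ => le_rfl) (fun _ _ => rfl) (fun _ hδ =>
    cm_core hT Q_al_le al_P (fun δ hδ => Eventually.of_forall fun n z _ => by
      rw [al_al, Q_zero]; exact mul_nonneg hδ.le (Q_nonneg z)) hδ) hη

end Pool.Agent.Lib.MP_7f6eca_an
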