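import Pool.Agent.Lib.MP_7f6eca_an.Basic
import Pool.Agent.Shared.Kuhn.Sperner

/-! A change of density lemma for operators on finite sections of the Kalton-Peck space. -/

namespace Pool.Agent.Lib.MP_7f6eca_an

open Real Finset

section Ex

variable {V : Type*} [AddCommGroup V]

/-- The average of `F` over all signed sums of the elements of a list. -/
noncomputable def Ex : List V → (V → ℝ) → ℝ
  | [], F => F 0
  | v :: l, F => (Ex l (fun x => F (x + v)) + Ex l (fun x => F (x - v))) / 2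

lemma Ex_mono (l : List V) {F G : V → ℝ} (h : ∀ x, F x ≤ G x) : Ex l F ≤ Ex l G := by
  induction l generalizing F G with
  | nil => exact h 0
  | cons v l ih =>
    have h1 := ih (F := fun x => F (x + v)) (G := fun x => G (x + v)) fun x => h _
    have h2 := ih (F := fun x => F (x - v)) (G := fun x => G (x - v)) fun x => h _
    simp only [Ex]
    linarith

lemma Ex_add (l : List V) (F G : V → ℝ) : Ex l (fun x => F x + G x) = Ex l F + Ex l G := by
  induction l generalizing F G with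
  | nil => rfl
  | cons v l ih =>
    simp only [Ex]
    rw [ih (fun x => F (x + v)) (fun x => G (x + v)), ih (fun x => F (x - v)) (fun x => G (x - v))]
    ring

lemma Ex_mul (l : List V) (c : ℝ) (F : V → ℝ) : Ex l (fun x => c * F x) = c * Ex l F := by
  induction l generalizing F with
  | nil => rfl
  | cons v l ih =>
    simp only [Ex]
    rw [ih (fun x => F (x + v)), ih (fun x => F (x - v))]
    ring

lemma Ex_const (l : List V) (c : ℝ) : Ex l (fun _ => c) = c := by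
  induction l with
  | nil => rfl
  | cons v l ih => simp only [Ex, ih]; ring

lemma Ex_sum {ι : Type*} (l : List V) (s : Finset ι) (F : ι → V → ℝ) :
    Ex l (fun x => ∑ i ∈ s, F i x) = ∑ i ∈ s, Ex l (F i) := by
  classical
  induction s using Finset.induction_on with
  | empty => simpa using Ex_const l 0
  | insert a s ha ih => simp only [sum_insert ha]; rw [Ex_add, ih]

/-- Nonnegative quadratic forms. -/
structure IsQ (q : V → ℝ) : Prop where
  par : ∀ c v, q (c + v) + q (c - v) = 2 * q c + 2 * q v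
  cs : ∀ c v, (q (c + v) - q (c - v)) ^ 2 ≤ 16 * q c * q v
  nonneg : ∀ v, 0 ≤ q v

lemma IsQ.zero {q : V → ℝ} (h : IsQ q) : q 0 = 0 := by
  have := h.par 0 0
  simp only [add_zero, sub_zero] at this
  linarith

lemma IsQ.sum_nonneg {q : V → ℝ} (h : IsQ q) (l : List V) : 0 ≤ (l.map q).sum :=
  List.sum_nonneg fun a ha => by
    obtain ⟨v, -, rfl⟩ := List.mem_map.1 ha
    exact h.nonneg v

lemma IsQ.Ex_shift {q : V → ℝ} (h : IsQ q) (l : List V) (c : V) :
    Ex l (fun x => q (x + c)) = q c + (l.map q).sum ∧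
    Ex l (fun x => q (x + c) ^ 2) ≤ q c ^ 2 + 6 * q c * (l.map q).sum + 3 * (l.map q).sum ^ 2 := by
  induction l generalizing c with
  | nil => simp [Ex]
  | cons v l ih =>
    have e1 : ∀ x, x + v + c = x + (c + v) := fun x => by abel
    have e2 : ∀ x, x - v + c = x + (c - v) := fun x => by abel
    obtain ⟨a1, a2⟩ := ih (c + v)
    obtain ⟨b1, b2⟩ := ih (c - v)
    have h1 := h.par c v
    have h2 := h.cs c v
    have h3 := h.sum_nonneg l
    have h4 := h.nonneg v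
    simp only [Ex, e1, e2, List.map_cons, List.sum_cons]
    refine ⟨by linarith, ?_⟩
    have h5 : q (c + v) ^ 2 + q (c - v) ^ 2 ≤ 2 * (q c + q v) ^ 2 + 8 * q c * q v := by
      have : 2 * (q (c + v) ^ 2 + q (c - v) ^ 2) =
        (q (c + v) + q (c - v)) ^ 2 + (q (c + v) - q (c - v)) ^ 2 := by ring
      rw [h1] at this
      linarith
    have h6 : (q (c + v) + q (c - v)) * (l.map q).sum = (2 * q c + 2 * q v) * (l.map q).sum := by
      rw [h1]
    nlinarith [sq_nonneg (q v)]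

lemma IsQ.Ex_eq {q : V → ℝ} (h : IsQ q) (l : List V) : Ex l q = (l.map q).sum := by
  simpa [h.zero] using (h.Ex_shift l 0).1

lemma IsQ.Ex_sq {q : V → ℝ} (h : IsQ q) (l : List V) :
    Ex l (fun x => q x ^ 2) ≤ 3 * Ex l q ^ 2 := by
  simpa [h.zero, h.Ex_eq] using (h.Ex_shift l 0).2

lemma isQ_sum {ι : Type*} (s : Finset ι) (φ : ι → V → ℝ) (h : ∀ i c v, φ i (c + v) = φ i c + φ i v)
    (h' : ∀ i c v, φ i (c - v) = φ i c - φ i v) : IsQ fun x => ∑ i ∈ s, φ i x ^ 2 where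
  par c v := by
    simp only [h, h', mul_sum, ← sum_add_distrib]
    exact sum_congr rfl fun i _ => by ring
  cs c v := by
    have h1 : ∑ i ∈ s, φ i (c + v) ^ 2 - ∑ i ∈ s, φ i (c - v) ^ 2 =
        4 * ∑ i ∈ s, φ i c * φ i v := by
      simp only [h, h', mul_sum, ← sum_sub_distrib]
      exact sum_congr rfl fun i _ => by ring
    have h2 := sum_mul_sq_le_sq_mul_sq s (fun i => φ i c) fun i => φ i v
    rw [h1]
    linarith
  nonneg v := sum_nonneg fun _ _ => sq_nonneg _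

end Ex

lemma log_split {t M β : ℝ} (ht : 0 ≤ t) (hM : 0 < M) (hβ : 0 < β) :
    t ^ 2 * (log t - log M) ^ 2 ≤ β * M ^ 2 + 4 / β * t ^ 2 + 1 / M ^ 2 * (t ^ 2) ^ 2 := by
  rcases le_total t M with h | h
  · have h1 := mul_le_mul_of_nonneg_left (mul_log_sq_le ht h) ht
    have h2 : 0 ≤ (β * M - 2 * t) ^ 2 / β := by positivity
    have h3 : (β * M - 2 * t) ^ 2 / β = β * M ^ 2 - 4 * M * t + 4 / β * t ^ 2 := by
      field_simp; ring
    have h4 : 0 ≤ 1 / M ^ 2 * (t ^ 2) ^ 2 := by positivity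
    nlinarith
  · have ht' : 0 < t := hM.trans_le h
    have h1 : log t - log M ≤ t / M := by
      rw [← log_div ht'.ne' hM.ne']
      exact (log_le_sub_one_of_pos (by positivity)).trans (by linarith)
    have h2 := mul_le_mul_of_nonneg_left (pow_le_pow_left₀ (sub_nonneg.2 (log_le_log hM h)) h1 2)
      (sq_nonneg t)
    have h3 : t ^ 2 * (t / M) ^ 2 = 1 / M ^ 2 * (t ^ 2) ^ 2 := by field_simp
    have h4 : 0 ≤ β * M ^ 2 + 4 / β * t ^ 2 := by positivity
    linarith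

/-- The element `z` is supported below `m`. -/
def Win (m : ℕ) (z : Z2) : Prop := ∀ j, m ≤ j → z.1.1 j = 0 ∧ z.1.2 j = 0

lemma win_P (m : ℕ) (z : Z2) : Win m (P (Set.Iio m) z) := fun j hj => by simp [not_lt.2 hj]

/-- The Hilbertian squared norm attached to the weights `w`. -/
noncomputable def qY (m : ℕ) (w : ℕ → ℝ) (z : Z2) : ℝ :=
  ∑ j ∈ range m, (z.1.1 j - log (w j) * z.1.2 j) ^ 2 + ∑ j ∈ range m, z.1.2 j ^ 2

/-- The squared distance between the Kalton-Peck map and the diagonal operator. -/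
noncomputable def dY (m : ℕ) (w : ℕ → ℝ) (z : Z2) : ℝ :=
  ∑ j ∈ range m, (KP z.1.2 j - log (w j) * z.1.2 j) ^ 2

lemma Win.Q_eq {m : ℕ} {z : Z2} (h : Win m z) :
    Q z = ∑ j ∈ range m, (z.1.1 j - KP z.1.2 j) ^ 2 + ∑ j ∈ range m, z.1.2 j ^ 2 := by
  rw [Q, sq2_of_fin (m := m) fun j hj => (h j hj).2,
    sq2_of_fin (m := m) fun j hj => by simp [KP, (h j hj).1, (h j hj).2]]
  rfl

lemma Win.compare {m : ℕ} {z : Z2} (h : Win m z) (w : ℕ → ℝ) :
    qY m w z ≤ 2 * Q z + 2 * dY m w z ∧ Q z ≤ 2 * qY m w z + 2 * dY m w z := by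
  have h0 : 0 ≤ ∑ j ∈ range m, z.1.2 j ^ 2 := sum_nonneg fun _ _ => sq_nonneg _
  have h1 : ∑ j ∈ range m, (z.1.1 j - log (w j) * z.1.2 j) ^ 2 ≤ ∑ j ∈ range m,
      (2 * (z.1.1 j - KP z.1.2 j) ^ 2 + 2 * (KP z.1.2 j - log (w j) * z.1.2 j) ^ 2) :=
    sum_le_sum fun j _ => by
      nlinarith [sq_nonneg (z.1.1 j - KP z.1.2 j - (KP z.1.2 j - log (w j) * z.1.2 j))]
  have h2 : ∑ j ∈ range m, (z.1.1 j - KP z.1.2 j) ^ 2 ≤ ∑ j ∈ range m,
      (2 * (z.1.1 j - log (w j) * z.1.2 j) ^ 2 + 2 * (KP z.1.2 j - log (w j) * z.1.2 j) ^ 2) :=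
    sum_le_sum fun j _ => by
      nlinarith [sq_nonneg (z.1.1 j - log (w j) * z.1.2 j + (KP z.1.2 j - log (w j) * z.1.2 j))]
  rw [sum_add_distrib, ← mul_sum, ← mul_sum] at h1 h2
  rw [h.Q_eq, qY, dY]
  constructor <;> linarith

lemma Win.dY_le {m : ℕ} {z : Z2} (h : Win m z) {w : ℕ → ℝ} (hw : ∀ j, 0 < w j) {μ β : ℝ}
    (hμ : 0 < μ) (hβ : 0 < β) : dY m w z ≤ 2 * ∑ j ∈ range m,
      (β * (μ * w j) ^ 2 + 4 / β * z.1.2 j ^ 2 + 1 / (μ * w j) ^ 2 * (z.1.2 j ^ 2) ^ 2) +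
      2 * (β * μ ^ 2 + 4 / β * ∑ j ∈ range m, z.1.2 j ^ 2 +
        1 / μ ^ 2 * (∑ j ∈ range m, z.1.2 j ^ 2) ^ 2) := by
  have h1 := log_split (l2norm_nonneg z.1.2) hμ hβ
  rw [l2norm_sq', sq2_of_fin (m := m) fun j hj => (h j hj).2] at h1
  refine le_trans ?_ (add_le_add le_rfl (mul_le_mul_of_nonneg_left h1 zero_le_two))
  rw [sum_mul, mul_sum, mul_sum, ← sum_add_distrib]
  refine sum_le_sum fun j _ => ?_
  have h2 := log_split (abs_nonneg (z.1.2 j)) (mul_pos hμ (hw j)) hβ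
  rw [sq_abs, log_mul hμ.ne' (hw j).ne', ← mul_pow] at h2
  rw [z.2.1.KP_eq, ← mul_pow (z.1.2 j)]
  nlinarith [sq_nonneg (z.1.2 j * (log |z.1.2 j| - (log μ + log (w j))) +
    z.1.2 j * (log (l2norm z.1.2) - log μ))]

lemma isQ_snd (W : Z2 →ₗ[ℝ] Z2) (s : Finset ℕ) : IsQ fun z => ∑ j ∈ s, (W z).1.2 j ^ 2 :=
  isQ_sum s (fun j z => (W z).1.2 j) (fun _ _ _ => by simp) fun _ _ _ => by simp

lemma isQ_snd' (W : Z2 →ₗ[ℝ] Z2) (j : ℕ) : IsQ fun z => (W z).1.2 j ^ 2 := by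
  simpa using isQ_snd W {j}

lemma Ex_dY {m : ℕ} {W : Z2 →ₗ[ℝ] Z2} (hW : ∀ z, Win m (W z)) (l : List Z2) {w : ℕ → ℝ}
    (hw : ∀ j, 0 < w j) {μ β : ℝ} (hμ : 0 < μ) (hβ : 0 < β) (h1 : ∑ j ∈ range m, w j ^ 2 ≤ 1)
    (h2 : ∀ j, Ex l (fun z => (W z).1.2 j ^ 2) ≤ (μ * w j) ^ 2) :
    Ex l (fun z => dY m w (W z)) ≤
      4 * (β * μ ^ 2) + 4 * (4 / β + 3) * Ex l (fun z => ∑ j ∈ range m, (W z).1.2 j ^ 2) := by
  refine (Ex_mono l fun z => (hW z).dY_le hw hμ hβ).trans ?_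
  have key : ∀ {q : Z2 → ℝ}, IsQ q → ∀ {M : ℝ}, 0 < M → Ex l q ≤ M ^ 2 →
      Ex l (fun z => β * M ^ 2 + 4 / β * q z + 1 / M ^ 2 * q z ^ 2) ≤
        β * M ^ 2 + (4 / β + 3) * Ex l q := fun {q} hq M hM h => by
    rw [Ex_add, Ex_add, Ex_const, Ex_mul, Ex_mul]
    have h3 : 0 ≤ Ex l q := hq.Ex_eq l ▸ hq.sum_nonneg l
    have h4 : 1 / M ^ 2 * Ex l (fun z => q z ^ 2) ≤ 3 * Ex l q := by
      rw [one_div, inv_mul_le_iff₀ (by positivity)]
      have := hq.Ex_sq l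
      nlinarith
    linarith
  have h3 : ∑ j ∈ range m, (μ * w j) ^ 2 ≤ μ ^ 2 := by
    simp only [mul_pow, ← mul_sum]
    exact mul_le_of_le_one_right (sq_nonneg _) h1
  have h4 := sum_le_sum fun j (_ : j ∈ range m) => key (isQ_snd' W j) (mul_pos hμ (hw j)) (h2 j)
  have h5 := key (isQ_snd W (range m)) hμ
    (by rw [Ex_sum]; exact (sum_le_sum fun j _ => h2 j).trans h3)
  rw [sum_add_distrib, ← mul_sum, ← mul_sum, ← Ex_sum, ← Ex_sum] at h4
  rw [Ex_add, Ex_mul, Ex_mul]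
  have h6 := mul_le_mul_of_nonneg_left h3 hβ.le
  linarith

/-- The Euclidean squared norm of the first `m` coordinates. -/
def eu (m : ℕ) (z : Z2) : ℝ := ∑ j ∈ range m, z.1.1 j ^ 2 + ∑ j ∈ range m, z.1.2 j ^ 2

lemma eu_le (m : ℕ) (z : Z2) : eu m z ≤ 9 * m * Q z := by
  have h1 := sum_le_card_nsmul (range m) _ _ fun j _ => fst_sq_le z j
  have h2 := sum_le_card_nsmul (range m) _ _ fun j _ => snd_sq_le z j
  simp only [card_range, nsmul_eq_mul] at h1 h2
  rw [eu]; linarith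

lemma eu_P (m : ℕ) (z : Z2) : eu m (P (Set.Iio m) z) = eu m z := by
  simp only [eu, P_fst, P_snd]
  congr 1 <;> exact sum_congr rfl fun j hj => by simp [mem_range.1 hj]

lemma Win.le_eu {m : ℕ} {z : Z2} (h : Win m z) : Q z ≤ (8 * m + 3) * eu m z := by
  have h1 : ∑ j ∈ range m, (z.1.1 j - KP z.1.2 j) ^ 2 ≤
      ∑ j ∈ range m, (2 * z.1.1 j ^ 2 + 8 * sq2 z.1.2) := sum_le_sum fun j _ => by
    nlinarith [KP_sq_le z.2.1 j, sq_nonneg (z.1.1 j + KP z.1.2 j)]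
  rw [sum_add_distrib, ← mul_sum, sum_const, card_range, nsmul_eq_mul,
    sq2_of_fin (m := m) fun j hj => (h j hj).2] at h1
  have h2 : 0 ≤ ∑ j ∈ range m, z.1.1 j ^ 2 := sum_nonneg fun _ _ => sq_nonneg _
  have h3 : 0 ≤ ∑ j ∈ range m, z.1.2 j ^ 2 := sum_nonneg fun _ _ => sq_nonneg _
  have h4 := mul_nonneg (Nat.cast_nonneg m : (0 : ℝ) ≤ m) h2
  rw [h.Q_eq, eu]
  nlinarith

lemma Ex_two {W : Z2 →ₗ[ℝ] Z2} (l : List Z2) (m : ℕ) (c : ℕ → ℝ) :
    Ex l (fun z => ∑ j ∈ range m, ((W z).1.1 j - c j * (W z).1.2 j) ^ 2 +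
      ∑ j ∈ range m, (W z).1.2 j ^ 2) = (l.map fun z =>
      ∑ j ∈ range m, ((W z).1.1 j - c j * (W z).1.2 j) ^ 2 + ∑ j ∈ range m, (W z).1.2 j ^ 2).sum := by
  rw [Ex_add, (isQ_snd W _).Ex_eq, (isQ_sum _ (fun j z => (W z).1.1 j - c j * (W z).1.2 j)
    (fun _ _ _ => by simp; ring) fun _ _ _ => by simp; ring).Ex_eq, List.sum_map_add]

lemma sum_pairs (f : ℕ → ℝ) (n : ℕ) :
    ∑ j ∈ range (2 * n), f j = ∑ a ∈ range n, (f (2 * a) + f (2 * a + 1)) := by
  induction n with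
  | zero => simp
  | succ n ih => rw [Nat.mul_succ, sum_range_succ, sum_range_succ, sum_range_succ, ih]; ring

lemma core_ineq {ι : Type*} [Fintype ι] {C : ℝ} (hC : 1 ≤ C) {n : ℕ} {W : ι → Z2 →ₗ[ℝ] Z2}
    (hW : ∀ i z, Win (2 * n) (W i z)) (hWC : ∀ i z, Q (W i z) ≤ C * Q (P (Set.Iio (2 * n)) z))
    {i₀ : ι} (h0 : W i₀ = P (Set.Iio (2 * n))) (l : List Z2) (hl : (l.map (eu (2 * n))).sum = 1)
    {S : ι → ℕ → ℝ} (hS : ∀ i j, Ex l (fun z => (W i z).1.2 j ^ 2) = S i j) {τ ν κ : ℝ}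
    (hτ : τ = 1 / (9 * (2 * n + 1) ^ 2)) (hκ : κ = 2 * Fintype.card ι * C + 1)
    (hν : ν = 2 * ∑ i, ∑ j ∈ range (2 * n), S i j + (2 * n + 1) * τ) {w : ℕ → ℝ}
    (hw : ∀ a, w a = √((∑ i, (S i (2 * a) + S i (2 * a + 1)) + τ) / ν)) :
    (∀ a, w a ∈ Set.Icc √(τ / (κ * (16 * n + 3))) 1) ∧ ∀ i,
      (l.map fun z => qY (2 * n) (fun j => w (j / 2)) (W i z)).sum ≤
        (2 * C + 1 + 8 * (64 * κ + 3) * C) * (4 + 16 * (64 * κ + 3)) *
          (l.map fun z => qY (2 * n) (fun j => w (j / 2)) (W i₀ z)).sum := by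
  have hτ0 : 0 < τ := by rw [hτ]; positivity
  have hκ0 : 0 < κ := by rw [hκ]; positivity
  have hS0 : ∀ i j, 0 ≤ S i j := fun i j => by
    rw [← hS, (isQ_snd' _ _).Ex_eq]; exact (isQ_snd' _ _).sum_nonneg l
  have hS1 : ∀ i j, 2 * n ≤ j → S i j = 0 := fun i j hj => by
    simp only [← hS, (hW i _ j hj).2]; simpa using Ex_const l 0
  have hs0 : 0 ≤ ∑ i, ∑ j ∈ range (2 * n), S i j :=
    sum_nonneg fun i _ => sum_nonneg fun j _ => hS0 i j
  have hν0 : 0 < ν := by rw [hν]; positivity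
  set A := Ex l fun z => Q (W i₀ z) with hA
  have he : Ex l (eu (2 * n)) = 1 := by
    have := Ex_two (W := LinearMap.id) l (2 * n) 0
    simp only [LinearMap.id_apply, Pi.zero_apply, zero_mul, sub_zero] at this
    exact this.trans hl
  have hA1 : 1 ≤ 9 * (2 * n) * A := by
    rw [← he, hA, ← Ex_mul]
    exact Ex_mono l fun z => by
      have := eu_le (2 * n) (P (Set.Iio (2 * n)) z)
      rwa [eu_P, ← h0, Nat.cast_mul, Nat.cast_ofNat] at this
  have hA2 : A ≤ 16 * n + 3 := by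
    have := Ex_mono l fun z => (hW i₀ z).le_eu
    rw [Ex_mul] at this
    simp only [h0, eu_P] at this
    rw [he] at this
    push_cast at this
    rw [hA, h0]
    linarith
  have hA0 : 0 ≤ A := (Ex_const l 0).symm.trans_le (Ex_mono l fun z => Q_nonneg _)
  have hQ : ∀ i, Ex l (fun z => Q (W i z)) ≤ C * A := fun i => by
    rw [hA, ← Ex_mul, h0]; exact Ex_mono l (hWC i)
  have hm : ∀ i, Ex l (fun z => ∑ j ∈ range (2 * n), (W i z).1.2 j ^ 2) ≤ C * A := fun i =>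
    (Ex_mono l fun z => by
      rw [(hW i z).Q_eq]; exact le_add_of_nonneg_left (sum_nonneg fun _ _ => sq_nonneg _)).trans (hQ i)
  have hν1 : ν ≤ κ * A := by
    have h1 := sum_le_card_nsmul univ (fun i => ∑ j ∈ range (2 * n), S i j) (C * A) fun i _ => by
      simpa only [Ex_sum, hS] using hm i
    have h2 : (2 * n + 1) * τ ≤ A := by
      rw [hτ, mul_one_div, div_le_iff₀ (by positivity)]
      have : (0 : ℝ) ≤ n := Nat.cast_nonneg n
      nlinarith [mul_nonneg this hA0]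
    rw [card_univ, nsmul_eq_mul] at h1
    rw [hν, hκ]
    linarith
  have hnum : ∀ a, 0 ≤ ∑ i, (S i (2 * a) + S i (2 * a + 1)) := fun a =>
    sum_nonneg fun i _ => add_nonneg (hS0 _ _) (hS0 _ _)
  have hw2 : ∀ a, ν * w a ^ 2 = ∑ i, (S i (2 * a) + S i (2 * a + 1)) + τ := fun a => by
    rw [hw, sq_sqrt (div_nonneg (add_nonneg (hnum a) hτ0.le) hν0.le), mul_div_cancel₀ _ hν0.ne']
  have hw0 : ∀ a, 0 < w a := fun a => by
    rw [hw]; exact sqrt_pos.2 (div_pos (add_pos_of_nonneg_of_pos (hnum a) hτ0) hν0)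
  have hsum : ∑ a ∈ range n, ∑ i, (S i (2 * a) + S i (2 * a + 1)) =
      ∑ i, ∑ j ∈ range (2 * n), S i j := by
    rw [sum_comm]; exact sum_congr rfl fun i _ => (sum_pairs _ _).symm
  refine ⟨fun a => ⟨?_, ?_⟩, fun i => ?_⟩
  · rw [hw]
    refine sqrt_le_sqrt (div_le_div₀ (add_nonneg (hnum a) hτ0.le) (le_add_of_nonneg_left (hnum a))
      hν0 (hν1.trans (mul_le_mul_of_nonneg_left hA2 hκ0.le)))
  · rw [hw, sqrt_le_one, div_le_one hν0, hν]
    have h1 : ∑ i, (S i (2 * a) + S i (2 * a + 1)) ≤ ∑ i, ∑ j ∈ range (2 * n), S i j := by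
      by_cases ha : a < n
      · rw [← hsum]
        exact single_le_sum (f := fun a => ∑ i, (S i (2 * a) + S i (2 * a + 1)))
          (fun a _ => hnum a) (mem_range.2 ha)
      · rw [sum_eq_zero fun i _ => by rw [hS1 i _ (by omega), hS1 i _ (by omega), add_zero]]
        exact hs0
    have : 0 ≤ n * τ := by positivity
    linarith
  · have h1 : ∑ j ∈ range (2 * n), w (j / 2) ^ 2 ≤ 1 := by
      rw [sum_pairs]
      have h2 : ∀ a, w (2 * a / 2) ^ 2 + w ((2 * a + 1) / 2) ^ 2 = 2 * w a ^ 2 := fun a => by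
        rw [show 2 * a / 2 = a by omega, show (2 * a + 1) / 2 = a by omega]; ring
      simp only [h2]
      refine le_of_mul_le_mul_left ?_ hν0
      rw [← mul_sum, mul_left_comm, mul_sum]
      simp only [hw2]
      rw [sum_add_distrib, hsum, sum_const, card_range, nsmul_eq_mul, hν]
      linarith
    have h2 : ∀ i j, Ex l (fun z => (W i z).1.2 j ^ 2) ≤ (√ν * w (j / 2)) ^ 2 := fun i j => by
      rw [hS, mul_pow, sq_sqrt hν0.le, hw2]
      refine le_add_of_le_of_nonneg (le_trans ?_ (single_le_sum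
        (f := fun i => S i (2 * (j / 2)) + S i (2 * (j / 2) + 1))
        (fun i _ => add_nonneg (hS0 _ _) (hS0 _ _)) (mem_univ i))) hτ0.le
      rcases Nat.even_or_odd' j with ⟨a, rfl | rfl⟩
      · rw [show 2 * a / 2 = a by omega]; exact le_add_of_nonneg_right (hS0 _ _)
      · rw [show (2 * a + 1) / 2 = a by omega]; exact le_add_of_nonneg_left (hS0 _ _)
    have h3 : ∀ i, Ex l (fun z => dY (2 * n) (fun j => w (j / 2)) (W i z)) ≤ A / 4 +
        4 * (64 * κ + 3) * Ex l (fun z => ∑ j ∈ range (2 * n), (W i z).1.2 j ^ 2) := fun i => by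
      have h4 := Ex_dY (hW i) l (fun j => hw0 (j / 2)) (sqrt_pos.2 hν0)
        (by positivity : 0 < 1 / (16 * κ)) h1 (h2 i)
      have h5 : 1 / (16 * κ) * ν ≤ A / 16 := by
        rw [one_div, inv_mul_le_iff₀ (by positivity)]; linarith
      rw [sq_sqrt hν0.le, show 4 / (1 / (16 * κ)) = 64 * κ by field_simp; norm_num] at h4
      linarith
    simp only [qY]
    rw [← Ex_two, ← Ex_two]
    set B := Ex l fun z => qY (2 * n) (fun j => w (j / 2)) (W i₀ z) with hB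
    have h4 := Ex_mono l fun z => ((hW i z).compare fun j => w (j / 2)).1
    have h5 := Ex_mono l fun z => ((hW i₀ z).compare fun j => w (j / 2)).2
    rw [Ex_add, Ex_mul, Ex_mul] at h4 h5
    have h6 : Ex l (fun z => ∑ j ∈ range (2 * n), (W i₀ z).1.2 j ^ 2) ≤ B :=
      Ex_mono l fun z => le_add_of_nonneg_left (sum_nonneg fun _ _ => sq_nonneg _)
    have hc : 0 < 64 * κ + 3 := by positivity
    have h7 := mul_le_mul_of_nonneg_left h6 hc.le
    have h8 := mul_le_mul_of_nonneg_left (hm i) hc.le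
    have h9 : A ≤ (4 + 16 * (64 * κ + 3)) * B := by
      have := h3 i₀
      rw [← hA, ← hB] at h5
      linarith
    have h10 := mul_le_mul_of_nonneg_left h9
      (by positivity : 0 ≤ 2 * C + 1 + 8 * (64 * κ + 3) * C)
    have := h3 i
    have := hQ i
    change Ex l (fun z => qY (2 * n) (fun j => w (j / 2)) (W i z)) ≤ _ * B
    linarith

lemma qY_smul (m : ℕ) (w : ℕ → ℝ) (c : ℝ) (z : Z2) : qY m w (c • z) = c ^ 2 * qY m w z := by
  simp only [qY, Submodule.coe_smul, Prod.smul_fst, Prod.smul_snd, Pi.smul_apply, smul_eq_mul,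
    mul_add, mul_sum]
  congr 1 <;> exact sum_congr rfl fun j _ => by ring

lemma eu_smul (m : ℕ) (c : ℝ) (z : Z2) : eu m (c • z) = c ^ 2 * eu m z := by
  simp only [eu, Submodule.coe_smul, Prod.smul_fst, Prod.smul_snd, Pi.smul_apply, smul_eq_mul,
    mul_add, mul_sum, mul_pow]

lemma qY_nonneg (m : ℕ) (w : ℕ → ℝ) (z : Z2) : 0 ≤ qY m w z :=
  add_nonneg (sum_nonneg fun _ _ => sq_nonneg _) (sum_nonneg fun _ _ => sq_nonneg _)

lemma qY_eq_zero (m : ℕ) (w : ℕ → ℝ) {z : Z2} (h : Q z ≤ 0) : qY m w z = 0 := by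
  have h1 : ∀ j, z.1.1 j = 0 := fun j => pow_eq_zero_iff two_ne_zero |>.1
    (le_antisymm ((fst_sq_le z j).trans (by linarith)) (sq_nonneg _))
  have h2 : ∀ j, z.1.2 j = 0 := fun j => pow_eq_zero_iff two_ne_zero |>.1
    (le_antisymm ((snd_sq_le z j).trans h) (sq_nonneg _))
  simp [qY, h1, h2]

lemma list_sum_eq {I : Type*} [Fintype I] (z : I → Z2) {t : I → ℝ} (ht : ∀ a, 0 ≤ t a)
    {q : Z2 → ℝ} (hq : ∀ (c : ℝ) z, q (c • z) = c ^ 2 * q z) :
    ((univ.toList.map fun a => √(t a) • z a).map q).sum = ∑ a, t a * q (z a) := by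
  rw [List.map_map, Finset.sum_map_toList]
  exact sum_congr rfl fun a _ => by rw [Function.comp, hq, sq_sqrt (ht a)]

/-- The change of density lemma. -/
theorem dens (ι : Type*) [Fintype ι] {C : ℝ} (hC : 1 ≤ C) : ∃ C' : ℝ, 1 ≤ C' ∧
    ∀ (n : ℕ) (W : ι → Z2 →ₗ[ℝ] Z2), (∀ i z, Win (2 * n) (W i z)) →
      (∀ i z, Q (W i z) ≤ C * Q (P (Set.Iio (2 * n)) z)) → ∀ i₀, W i₀ = P (Set.Iio (2 * n)) →
      ∃ w : ℕ → ℝ, ∀ i z, qY (2 * n) (fun j => w (j / 2)) (W i z) ≤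
        C' * qY (2 * n) (fun j => w (j / 2)) (W i₀ z) := by
  classical
  obtain ⟨κ, hκ⟩ : ∃ κ : ℝ, κ = 2 * Fintype.card ι * C + 1 := ⟨_, rfl⟩
  have hκ0 : 0 < κ := by rw [hκ]; positivity
  obtain ⟨c, hc⟩ : ∃ c : ℝ, c = (2 * C + 1 + 8 * (64 * κ + 3) * C) * (4 + 16 * (64 * κ + 3)) :=
    ⟨_, rfl⟩
  have hc0 : 0 ≤ c := by rw [hc]; positivity
  refine ⟨Fintype.card ι * c + 1, le_add_of_nonneg_left (by positivity), fun n W hW hWC i₀ h0 => ?_⟩
  obtain ⟨τ, hτ⟩ : ∃ τ : ℝ, τ = 1 / (9 * (2 * n + 1) ^ 2) := ⟨_, rfl⟩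
  have hτ0 : 0 < τ := by rw [hτ]; positivity
  let F : (ℕ → ℝ) → Z2 → ℝ := fun Y z => ∑ i, qY (2 * n) (fun j => exp (Y (j / 2))) (W i z) -
    Fintype.card ι * c * qY (2 * n) (fun j => exp (Y (j / 2))) (W i₀ z)
  have hFc : ∀ z, Continuous fun Y => F Y z := fun z => by
    simp only [F, qY, log_exp]; fun_prop
  have hFs : ∀ Y (a : ℝ) z, F Y (a • z) = a ^ 2 * F Y z := fun Y a z => by
    simp only [F, map_smul, qY_smul, ← mul_sum]; ring
  by_contra hcon
  have h1 : ∀ Y, ∃ z, eu (2 * n) z = 1 ∧ 0 < F Y z := fun Y => by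
    obtain ⟨z, hz⟩ : ∃ z, 0 < F Y z := by
      by_contra h2
      push Not at h2
      refine hcon ⟨fun a => exp (Y a), fun i z => ?_⟩
      have h3 := single_le_sum (f := fun i => qY (2 * n) (fun j => exp (Y (j / 2))) (W i z))
        (fun i _ => qY_nonneg _ _ _) (mem_univ i)
      have h4 := h2 z
      have h5 := qY_nonneg (2 * n) (fun j => exp (Y (j / 2))) (W i₀ z)
      simp only [F] at h4
      linarith
    have h2 : 0 < eu (2 * n) z := by
      by_contra h3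
      have h4 := (win_P (2 * n) z).le_eu
      rw [eu_P] at h4
      have h5 : Q (P (Set.Iio (2 * n)) z) ≤ 0 :=
        h4.trans (mul_nonpos_of_nonneg_of_nonpos (by positivity) (not_lt.1 h3))
      have h6 : ∀ i, qY (2 * n) (fun j => exp (Y (j / 2))) (W i z) = 0 := fun i => qY_eq_zero _ _
        ((hWC i z).trans (mul_nonpos_of_nonneg_of_nonpos (by linarith) h5))
      simp [F, h6] at hz
    refine ⟨(√(eu (2 * n) z))⁻¹ • z, ?_, ?_⟩
    · rw [eu_smul, inv_pow, sq_sqrt h2.le, inv_mul_cancel₀ h2.ne']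
    · rw [hFs]; positivity
  obtain ⟨s, hs⟩ := (isCompact_univ_pi fun _ : ℕ => isCompact_Icc
    (a := log √(τ / (κ * (16 * n + 3)))) (b := 0)).elim_finite_subcover
    (fun z : {z : Z2 // eu (2 * n) z = 1} => {Y | 0 < F Y z})
    (fun z => isOpen_lt continuous_const (hFc z)) fun Y _ => by
      obtain ⟨z, h2, h3⟩ := h1 Y
      exact Set.mem_iUnion.2 ⟨⟨z, h2⟩, h3⟩
  let z : Option s → Z2 := fun a => a.elim (h1 0).choose fun a => a.1.1
  have hz : ∀ a, eu (2 * n) (z a) = 1 := fun a => by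
    cases a with
    | none => exact (h1 0).choose_spec.1
    | some a => exact a.1.2
  let S : (Option s → ℝ) → ι → ℕ → ℝ := fun t i j => ∑ a, t a * (W i (z a)).1.2 j ^ 2
  let ν : (Option s → ℝ) → ℝ := fun t => 2 * ∑ i, ∑ j ∈ range (2 * n), S t i j + (2 * n + 1) * τ
  let w : (Option s → ℝ) → ℕ → ℝ := fun t a =>
    √((∑ i, (S t i (2 * a) + S t i (2 * a + 1)) + τ) / ν t)
  have hω : 0 < √(τ / (κ * (16 * n + 3))) := by positivity
  have h2 : ∀ t ∈ stdSimplex ℝ (Option s), (∀ a, w t a ∈ Set.Icc √(τ / (κ * (16 * n + 3))) 1) ∧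
      ∑ a, t a * F (fun a => log (w t a)) (z a) ≤ 0 := fun t ht => by
    obtain ⟨h3, h4⟩ := core_ineq hC hW hWC h0 (univ.toList.map fun a => √(t a) • z a)
      (by rw [list_sum_eq z ht.1 (eu_smul _)]; simpa [hz] using ht.2) (S := S t) (fun i j => by
        rw [(isQ_snd' _ _).Ex_eq, list_sum_eq z ht.1 fun c z => by simp [mul_pow]])
      hτ hκ (ν := ν t) rfl (w := w t) fun a => rfl
    refine ⟨h3, ?_⟩
    have h5 : ∀ a, exp (log (w t a)) = w t a := fun a => exp_log (hω.trans_le (h3 a).1)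
    have h6 := sum_le_card_nsmul univ _ _ fun i _ => h4 i
    have h7 := fun i => list_sum_eq z ht.1
      (q := fun z => qY (2 * n) (fun j => w t (j / 2)) (W i z))
      fun c z => by simp only [map_smul, qY_smul]
    simp only [h7] at h6
    rw [card_univ, nsmul_eq_mul, ← hc, sum_comm, ← mul_assoc, mul_sum] at h6
    simp only [F, h5, mul_sub, sum_sub_distrib, mul_sum]
    refine sub_nonpos.2 (h6.trans (le_of_eq (sum_congr rfl fun a _ => by ring)))
  have hν : ∀ t ∈ stdSimplex ℝ (Option s), ν t ≠ 0 := fun t ht => by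
    have : 0 ≤ ∑ i, ∑ j ∈ range (2 * n), S t i j := sum_nonneg fun i _ => sum_nonneg fun j _ =>
      sum_nonneg fun a _ => mul_nonneg (ht.1 a) (sq_nonneg _)
    simp only [ν]; positivity
  have h3 : ContinuousOn (fun t a => log (w t a)) (stdSimplex ℝ (Option s)) :=
    continuousOn_pi.2 fun a => ContinuousOn.log (ContinuousOn.sqrt (ContinuousOn.div
      (by simp only [S]; fun_prop) (by simp only [ν, S]; fun_prop) hν))
      fun t ht => (hω.trans_le ((h2 t ht).1 a).1).ne'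
  obtain ⟨t, ht, h4⟩ := Pool.Agent.Shared.Kuhn.kkm
    (fun a => stdSimplex ℝ (Option s) ∩ (fun t => F (fun a => log (w t a)) (z a)) ⁻¹' Set.Iic 0)
    (fun a => ((hFc (z a)).comp_continuousOn h3).preimage_isClosed_of_isClosed
      (isClosed_stdSimplex ℝ _) isClosed_Iic) fun t ht => by
      by_contra h5
      push Not at h5
      refine absurd (h2 t ht).2 (not_le.2 (sum_pos' (fun a _ => ?_) ?_))
      · rcases (ht.1 a).eq_or_lt with h6 | h6
        · rw [← h6, zero_mul]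
        · exact (mul_pos h6 (not_le.1 fun h7 => h5 a h6 ⟨ht, h7⟩)).le
      · obtain ⟨a, -, ha⟩ := exists_lt_of_sum_lt (s := univ) (f := fun _ => (0 : ℝ)) (g := t)
          (by rw [ht.2]; simp)
        exact ⟨a, mem_univ a, mul_pos ha (not_le.1 fun h7 => h5 a ha ⟨ht, h7⟩)⟩
  obtain ⟨a, ha, h5⟩ := Set.mem_iUnion₂.1 (hs (a := fun a => log (w t a)) fun a _ =>
    ⟨log_le_log hω ((h2 t ht).1 a).1, log_nonpos (hω.le.trans ((h2 t ht).1 a).1) ((h2 t ht).1 a).2⟩)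
  have h6 : F (fun a => log (w t a)) a.1 ≤ 0 := Set.mem_Iic.1 (Set.mem_preimage.1 (h4 (some ⟨a, ha⟩)).2)
  exact absurd h6 (not_le.2 h5)

end Pool.Agent.Lib.MP_7f6eca_an
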