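import Pool.Agent.Lib.MP_7f6eca_an.Blocks
import Pool.Agent.Lib.MP_7f6eca_an.Dens

/-! Two complex structures on the Kalton-Peck space and complex coordinates on finite sections. -/

namespace Pool.Agent.Lib.MP_7f6eca_an

open Real Finset Complex

lemma sq2_perm (g : ℕ ≃ ℕ) {s : ℕ → ℝ} (hs : ∀ n, s n ^ 2 = 1) (x : ℕ → ℝ) :
    sq2 (fun n => s n * x (g n)) = sq2 x := by
  simp only [sq2, mul_pow, hs, one_mul]
  exact g.tsum_eq fun n => x n ^ 2

lemma L2.perm (g : ℕ ≃ ℕ) {s : ℕ → ℝ} (hs : ∀ n, s n ^ 2 = 1) {x : ℕ → ℝ} (hx : L2 x) :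
    L2 fun n => s n * x (g n) := by
  simp only [L2, mul_pow, hs, one_mul]
  exact g.summable_iff.2 hx

lemma sub_KP_perm (g : ℕ ≃ ℕ) {s : ℕ → ℝ} (hs : ∀ n, s n ^ 2 = 1) (y x : ℕ → ℝ) :
    (fun n => s n * y (g n)) - KP (fun n => s n * x (g n)) = fun n => s n * (y - KP x) (g n) := by
  ext n
  have h1 : l2norm (fun n => s n * x (g n)) = l2norm x := congrArg Real.sqrt (sq2_perm g hs x)
  have h2 : |s n| = 1 := by rw [← sq_eq_sq₀ (abs_nonneg _) zero_le_one, sq_abs, hs, one_pow]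
  simp only [Pi.sub_apply, KP, h1, abs_mul, h2, one_mul]
  ring

/-- Signed permutations of the coordinates. -/
def sp (g : ℕ ≃ ℕ) (s : ℕ → ℝ) (hs : ∀ n, s n ^ 2 = 1) : Z2 →ₗ[ℝ] Z2 where
  toFun z := ⟨(fun n => s n * z.1.1 (g n), fun n => s n * z.1.2 (g n)), z.2.1.perm g hs, by
    dsimp only
    rw [sub_KP_perm g hs]
    exact z.2.2.perm g hs⟩
  map_add' z w := by ext n <;> simp [mul_add]
  map_smul' c z := by ext n <;> simp [mul_left_comm]

lemma Q_sp (g : ℕ ≃ ℕ) (s : ℕ → ℝ) (hs : ∀ n, s n ^ 2 = 1) (z : Z2) : Q (sp g s hs z) = Q z := by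
  simp only [Q, sp, LinearMap.coe_mk, AddHom.coe_mk]
  rw [sub_KP_perm g hs, sq2_perm g hs, sq2_perm g hs]

/-- The standard complex structure. -/
def J1 : Z2 →ₗ[ℝ] Z2 :=
  sp (Function.Involutive.toPerm (fun n => if n % 2 = 0 then n + 1 else n - 1) fun n => by
    dsimp only; split_ifs <;> omega) (fun n => if n % 2 = 0 then -1 else 1)
    fun n => by split_ifs <;> simp

/-- The shifted signed permutation. -/
def J0 : Z2 →ₗ[ℝ] Z2 :=
  sp (Function.Involutive.toPerm (fun n => if n % 2 = 0 then n - 1 else n + 1) fun n => by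
    dsimp only; split_ifs <;> omega) (fun n => if n % 2 = 0 then 1 else -1)
    fun n => by split_ifs <;> simp

/-- The second complex structure. -/
noncomputable def J2 : Z2 →ₗ[ℝ] Z2 := J0 ∘ₗ P (Set.Ici 1) +
  (LinearMap.proj 0 ∘ₗ LinearMap.fst ℝ _ _ ∘ₗ Z2.subtype).smulRight (e2 0) -
  (LinearMap.proj 0 ∘ₗ LinearMap.snd ℝ _ _ ∘ₗ Z2.subtype).smulRight (e1 0)

lemma J1_even (z : Z2) (a : ℕ) :
    (J1 z).1.1 (2 * a) = -z.1.1 (2 * a + 1) ∧ (J1 z).1.2 (2 * a) = -z.1.2 (2 * a + 1) := by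
  simp [J1, sp, Function.Involutive.toPerm]

lemma J1_odd (z : Z2) (a : ℕ) :
    (J1 z).1.1 (2 * a + 1) = z.1.1 (2 * a) ∧ (J1 z).1.2 (2 * a + 1) = z.1.2 (2 * a) := by
  simp [J1, sp, Function.Involutive.toPerm]

lemma J2_zero (z : Z2) : (J2 z).1.1 0 = -z.1.2 0 ∧ (J2 z).1.2 0 = z.1.1 0 := by
  simp [J2, J0, sp, Function.Involutive.toPerm, e1, e2]

lemma J2_odd (z : Z2) (a : ℕ) :
    (J2 z).1.1 (2 * a + 1) = -z.1.1 (2 * a + 1 + 1) ∧
    (J2 z).1.2 (2 * a + 1) = -z.1.2 (2 * a + 1 + 1) := by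
  simp [J2, J0, sp, Function.Involutive.toPerm, e1, e2]

lemma J2_even (z : Z2) (a : ℕ) :
    (J2 z).1.1 (2 * a + 1 + 1) = z.1.1 (2 * a + 1) ∧
    (J2 z).1.2 (2 * a + 1 + 1) = z.1.2 (2 * a + 1) := by
  have h : (2 * a + 1 + 1) % 2 = 0 := by omega
  simp [J2, J0, sp, Function.Involutive.toPerm, e1, e2, h]

lemma cases3 (n : ℕ) : n = 0 ∨ (∃ a, n = 2 * a + 1) ∨ ∃ a, n = 2 * a + 1 + 1 := by
  rcases Nat.even_or_odd' n with ⟨_ | a, rfl | rfl⟩
  exacts [Or.inl rfl, Or.inr (Or.inl ⟨0, rfl⟩), Or.inr (Or.inr ⟨a, rfl⟩), Or.inr (Or.inl ⟨_, rfl⟩)]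

lemma J1_cs : IsComplexStructure J1 := by
  refine ⟨BQ.bdd (C := 1) ⟨le_rfl, fun z => by rw [J1, Q_sp, one_mul]⟩, fun z => ?_⟩
  ext n <;> rcases Nat.even_or_odd' n with ⟨a, rfl | rfl⟩ <;> simp [J1_even, J1_odd]

lemma J2_cs : IsComplexStructure J2 := by
  refine ⟨BQ.bdd (C := 1000 * (1000 * (9 + 8 * Q (e2 0)) + Q (e1 0))) ⟨?_, fun z => ?_⟩, fun z => ?_⟩
  · have := Q_nonneg (e2 0); have := Q_nonneg (e1 0); linarith
  · have h1 := Q_sub_le (J0 (P (Set.Ici 1) z) + z.1.1 0 • e2 0) (z.1.2 0 • e1 0)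
    have h2 := Q_add_le (J0 (P (Set.Ici 1) z)) (z.1.1 0 • e2 0)
    have h3 := Q_P_le (Set.Ici 1) z
    have h4 := mul_le_mul_of_nonneg_right (fst_sq_le z 0) (Q_nonneg (e2 0))
    have h5 := mul_le_mul_of_nonneg_right (snd_sq_le z 0) (Q_nonneg (e1 0))
    rw [Q_smul] at h1 h2
    rw [J0, Q_sp, ← J0] at h2
    change Q (J0 (P (Set.Ici 1) z) + z.1.1 0 • e2 0 - z.1.2 0 • e1 0) ≤ _
    linarith
  · ext n <;> rcases cases3 n with rfl | ⟨a, rfl⟩ | ⟨a, rfl⟩ <;> simp [J2_zero, J2_odd, J2_even]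

lemma Win.P_eq {m : ℕ} {z : Z2} (h : Win m z) : P (Set.Iio m) z = z := by
  ext j <;> rcases lt_or_ge j m with hj | hj <;> simp [hj, h j, Set.indicator]

lemma Win.J1 {n : ℕ} {z : Z2} (h : Win (2 * n) z) : Win (2 * n) (J1 z) := fun j hj => by
  rcases Nat.even_or_odd' j with ⟨a, rfl | rfl⟩
  · simp [J1_even, h (2 * a + 1) (by omega)]
  · simp [J1_odd, h (2 * a) (by omega)]

lemma Win.J2 {n : ℕ} {z : Z2} (h : Win (2 * n + 1) z) : Win (2 * n + 1) (J2 z) := fun j hj => by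
  rcases cases3 j with rfl | ⟨a, rfl⟩ | ⟨a, rfl⟩
  · omega
  · simp [J2_odd, h (2 * a + 1 + 1) (by omega)]
  · simp [J2_even, h (2 * a + 1) (by omega)]

/-- Complex Euclidean space. -/
abbrev Hc (n : ℕ) : Type := EuclideanSpace ℂ (Fin n)

/-- Complex coordinates of a real sequence. -/
noncomputable def rho (n o : ℕ) : (ℕ → ℝ) →ₗ[ℝ] Hc n where
  toFun x := WithLp.toLp 2 fun a => ⟨x (2 * a + o), x (2 * a + 1 + o)⟩
  map_add' x y := by ext a; apply Complex.ext <;> simp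
  map_smul' c x := by ext a; apply Complex.ext <;> simp

/-- Real coordinates of a complex vector. -/
noncomputable def iot (n o : ℕ) : Hc n →ₗ[ℝ] (ℕ → ℝ) where
  toFun v j := if h : o ≤ j ∧ (j - o) / 2 < n then
    (if (j - o) % 2 = 0 then (v ⟨_, h.2⟩).re else (v ⟨_, h.2⟩).im) else 0
  map_add' x y := by ext j; simp only [Pi.add_apply]; split_ifs <;> simp
  map_smul' c x := by ext j; simp only [Pi.smul_apply]; split_ifs <;> simp

lemma rho_re (n o : ℕ) (x : ℕ → ℝ) (a : Fin n) : (rho n o x a).re = x (2 * a + o) := rfl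

lemma rho_im (n o : ℕ) (x : ℕ → ℝ) (a : Fin n) : (rho n o x a).im = x (2 * a + 1 + o) := rfl

lemma iot_zero {n o j : ℕ} (v : Hc n) (h : j < o ∨ 2 * n + o ≤ j) : iot n o v j = 0 :=
  dif_neg (by omega)

lemma iot_zero' {n j : ℕ} (v : Hc n) (h : 2 * n ≤ j) : iot n 0 v j = 0 := iot_zero v (Or.inr h)

lemma iot_re (n o : ℕ) (v : Hc n) (a : Fin n) : iot n o v (2 * a + o) = (v a).re := by
  simp [iot]

lemma iot_im (n o : ℕ) (v : Hc n) (a : Fin n) : iot n o v (2 * a + 1 + o) = (v a).im := by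
  have h1 : (2 * (a : ℕ) + 1) / 2 = a := by omega
  simp [iot, h1]

lemma rho_iot (n o : ℕ) (v : Hc n) : rho n o (iot n o v) = v := by
  ext a; apply Complex.ext <;> simp [rho_re, rho_im, iot_re, iot_im]

lemma iot_rho {n o j : ℕ} (x : ℕ → ℝ) (h : o ≤ j) (h' : j < 2 * n + o) :
    iot n o (rho n o x) j = x j := by
  obtain ⟨i, rfl⟩ := Nat.exists_eq_add_of_le' h
  rcases Nat.even_or_odd' i with ⟨a, rfl | rfl⟩
  · exact iot_re n o _ ⟨a, by omega⟩
  · exact iot_im n o _ ⟨a, by omega⟩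

lemma norm_rho (n o : ℕ) (x : ℕ → ℝ) : ‖rho n o x‖ ^ 2 = ∑ j ∈ range (2 * n), x (j + o) ^ 2 := by
  rw [EuclideanSpace.norm_sq_eq, sum_pairs, Finset.sum_range]
  exact sum_congr rfl fun a _ => by rw [Complex.sq_norm, normSq_apply, rho_re, rho_im]; ring

/-- Coordinates on the even window. -/
noncomputable def phi (n : ℕ) (Y : ℕ → ℝ) : Z2 →ₗ[ℝ] Hc n × Hc n where
  toFun z := (rho n 0 fun j => z.1.1 j - Y (j / 2) * z.1.2 j, rho n 0 z.1.2)
  map_add' z w := by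
    ext a <;> apply Complex.ext <;> simp [rho_re, rho_im] <;> ring
  map_smul' c z := by
    ext a <;> apply Complex.ext <;> simp [rho_re, rho_im] <;> ring

/-- The inverse coordinates on the even window. -/
noncomputable def psi (n : ℕ) (Y : ℕ → ℝ) : Hc n × Hc n →ₗ[ℝ] Z2 where
  toFun v := ⟨(fun j => iot n 0 v.1 j + Y (j / 2) * iot n 0 v.2 j, iot n 0 v.2),
    mem_of_fin (m := 2 * n) (fun j hj => by simp [iot_zero' _ hj]) fun j hj => iot_zero' _ hj⟩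
  map_add' z w := by ext j <;> simp; ring
  map_smul' c z := by ext j <;> simp; ring

lemma phi_psi (n : ℕ) (Y : ℕ → ℝ) (v : Hc n × Hc n) : phi n Y (psi n Y v) = v := by
  simp [phi, psi, rho_iot]

lemma psi_phi (n : ℕ) (Y : ℕ → ℝ) (z : Z2) : psi n Y (phi n Y z) = P (Set.Iio (2 * n)) z := by
  ext j <;> rcases lt_or_ge j (2 * n) with hj | hj <;>
    simp [phi, psi, hj, iot_rho _ (Nat.zero_le j), iot_zero']

lemma win_psi (n : ℕ) (Y : ℕ → ℝ) (v : Hc n × Hc n) : Win (2 * n) (psi n Y v) := fun j hj => by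
  simp [psi, iot_zero' _ hj]

lemma phi_J1 (n : ℕ) (Y : ℕ → ℝ) (z : Z2) : phi n Y (J1 z) = I • phi n Y z := by
  have h1 : ∀ a : ℕ, (2 * a + 1) / 2 = a := fun a => by omega
  ext a <;> apply Complex.ext <;> simp [phi, rho_re, rho_im, J1_even, J1_odd, h1]
  ring

lemma psi_I (n : ℕ) (Y : ℕ → ℝ) (v : Hc n × Hc n) : psi n Y (I • v) = J1 (psi n Y v) := by
  rw [← (win_psi n Y v).J1.P_eq, ← psi_phi n Y, phi_J1, phi_psi]

lemma phi_al (n : ℕ) (Y : ℕ → ℝ) (z : Z2) : phi n Y (al z) = ((phi n Y z).2, 0) := by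
  simp [phi]

lemma psi_al (n : ℕ) (Y : ℕ → ℝ) (v : Hc n × Hc n) : psi n Y (v.2, 0) = al (psi n Y v) := by
  ext j <;> simp [psi]

lemma qY_eq (n : ℕ) (w : ℕ → ℝ) (z : Z2) : qY (2 * n) (fun j => w (j / 2)) z =
    ‖(phi n (fun a => Real.log (w a)) z).1‖ ^ 2 + ‖(phi n (fun a => Real.log (w a)) z).2‖ ^ 2 := by
  simp [phi, norm_rho, qY]

/-- Coordinates on the odd window. -/
noncomputable def phi' (n : ℕ) : Z2 →ₗ[ℝ] ℂ × Hc n × Hc n where
  toFun z := (⟨z.1.1 0, z.1.2 0⟩, rho n 1 z.1.1, rho n 1 z.1.2)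
  map_add' z w := by simp [Complex.ext_iff]
  map_smul' c z := by simp [Complex.ext_iff]

/-- The inverse coordinates on the odd window. -/
noncomputable def psi' (n : ℕ) : ℂ × Hc n × Hc n →ₗ[ℝ] Z2 where
  toFun v := ⟨(Pi.single 0 v.1.re + iot n 1 v.2.1, Pi.single 0 v.1.im + iot n 1 v.2.2),
    mem_of_fin (m := 2 * n + 1)
      (fun j hj => by simp [iot_zero _ (Or.inr hj), Pi.single_eq_of_ne (show j ≠ 0 by omega)])
      fun j hj => by simp [iot_zero _ (Or.inr hj), Pi.single_eq_of_ne (show j ≠ 0 by omega)]⟩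
  map_add' z w := by ext j <;> simp [Pi.single_apply] <;> split_ifs <;> ring
  map_smul' c z := by ext j <;> simp [Pi.single_apply]

lemma phi_psi' (n : ℕ) (v : ℂ × Hc n × Hc n) : phi' n (psi' n v) = v := by
  have h1 : ∀ r : ℝ, rho n 1 (Pi.single 0 r) = 0 := fun r => by
    ext a; apply Complex.ext <;> simp [rho_re, rho_im]
  simp [phi', psi', rho_iot, h1, iot_zero _ (Or.inl zero_lt_one)]

lemma psi_phi' (n : ℕ) (z : Z2) : psi' n (phi' n z) = P (Set.Iio (2 * n + 1)) z := by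
  ext j <;> rcases Nat.eq_zero_or_pos j with rfl | h
  · simp [phi', psi', iot_zero _ (Or.inl zero_lt_one)]
  · by_cases hj : j < 2 * n + 1 <;> simp [phi', psi', hj, iot_rho _ h, Pi.single_eq_of_ne h.ne',
      iot_zero _ (Or.inr (not_lt.1 _))]
  · simp [phi', psi', iot_zero _ (Or.inl zero_lt_one)]
  · by_cases hj : j < 2 * n + 1 <;> simp [phi', psi', hj, iot_rho _ h, Pi.single_eq_of_ne h.ne',
      iot_zero _ (Or.inr (not_lt.1 _))]

lemma win_psi' (n : ℕ) (v : ℂ × Hc n × Hc n) : Win (2 * n + 1) (psi' n v) := by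
  rw [← phi_psi' n v, psi_phi']; exact win_P _ _

lemma phi_J2 (n : ℕ) (z : Z2) : phi' n (J2 z) = I • phi' n z := by
  refine Prod.ext ?_ (Prod.ext ?_ ?_)
  · apply Complex.ext <;> simp [phi', J2_zero]
  · ext a; apply Complex.ext <;> simp [phi', rho_re, rho_im, J2_even, J2_odd]
  · ext a; apply Complex.ext <;> simp [phi', rho_re, rho_im, J2_even, J2_odd]

lemma psi_I' (n : ℕ) (v : ℂ × Hc n × Hc n) : psi' n (I • v) = J2 (psi' n v) := by
  rw [← (win_psi' n v).J2.P_eq, ← psi_phi' n, phi_J2, phi_psi']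

lemma eu_eq (n : ℕ) (z : Z2) : eu (2 * n + 1) z =
    ‖(phi' n z).1‖ ^ 2 + ‖(phi' n z).2.1‖ ^ 2 + ‖(phi' n z).2.2‖ ^ 2 := by
  simp only [phi', LinearMap.coe_mk, AddHom.coe_mk, norm_rho, eu, sum_range_succ', Complex.sq_norm,
    normSq_apply]
  ring

/-- A real linear map commuting with multiplication by `I` is complex linear. -/
def toC {V W : Type*} [AddCommGroup V] [Module ℂ V] [AddCommGroup W] [Module ℂ W]
    (f : V →ₗ[ℝ] W) (h : ∀ v, f (I • v) = I • f v) : V →ₗ[ℂ] W where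
  toFun := f
  map_add' := f.map_add
  map_smul' c v := by
    have h1 : ∀ {U : Type _} [AddCommGroup U] [Module ℂ U] (u : U),
        c • u = c.re • u + c.im • I • u := fun u => by
      rw [← Complex.coe_smul, ← Complex.coe_smul, smul_smul, ← add_smul, re_add_im]
    rw [RingHom.id_apply, h1 v, map_add, map_smul, map_smul, h]
    rw [← Complex.coe_smul, ← Complex.coe_smul, smul_smul, ← add_smul, re_add_im]

end Pool.Agent.Lib.MP_7f6eca_an
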