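import Mathlib

/-! The Kalton-Peck space. -/

namespace Pool.Agent.Lib.MP_7f6eca_an

open Real

/-- The sequence `x` is square summable. -/
def L2 (x : ℕ → ℝ) : Prop := Summable fun n => x n ^ 2

/-- The norm of the space of square summable sequences. -/
noncomputable def l2norm (x : ℕ → ℝ) : ℝ := √(∑' n, x n ^ 2)

/-- The Kalton-Peck map. -/
noncomputable def KP (x : ℕ → ℝ) : ℕ → ℝ := fun n => x n * log (|x n| / l2norm x)

lemma l2norm_nonneg (x : ℕ → ℝ) : 0 ≤ l2norm x := sqrt_nonneg _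

lemma l2norm_sq (x : ℕ → ℝ) : l2norm x ^ 2 = ∑' n, x n ^ 2 :=
  sq_sqrt (tsum_nonneg fun _ => sq_nonneg _)

lemma L2.abs_le {x : ℕ → ℝ} (hx : L2 x) (n : ℕ) : |x n| ≤ l2norm x :=
  abs_le_sqrt (hx.le_tsum n fun _ _ => sq_nonneg _)

lemma L2.KP_eq {x : ℕ → ℝ} (hx : L2 x) (n : ℕ) :
    KP x n = x n * log |x n| - x n * log (l2norm x) := by
  by_cases h : x n = 0
  · simp [KP, h]
  · have h1 := abs_pos.2 h
    rw [KP, log_div h1.ne' (h1.trans_le (hx.abs_le n)).ne', mul_sub]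

lemma L2.of_le {x y : ℕ → ℝ} (hy : L2 y) (c : ℝ) (h : ∀ n, x n ^ 2 ≤ c * y n ^ 2) : L2 x :=
  Summable.of_nonneg_of_le (fun _ => sq_nonneg _) h (hy.mul_left c)

lemma L2.add {x y : ℕ → ℝ} (hx : L2 x) (hy : L2 y) : L2 (x + y) :=
  Summable.of_nonneg_of_le (fun _ => sq_nonneg _)
    (fun n => by rw [Pi.add_apply]; nlinarith [sq_nonneg (x n - y n)])
    ((hx.mul_left 2).add (hy.mul_left 2))

lemma L2.smul {x : ℕ → ℝ} (hx : L2 x) (c : ℝ) : L2 (c • x) :=
  hx.of_le (c ^ 2) fun n => by simp [mul_pow]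

lemma mul_log_sq_le {a M : ℝ} (ha : 0 ≤ a) (h : a ≤ M) : a * (log a - log M) ^ 2 ≤ 4 * M := by
  rcases ha.eq_or_lt with rfl | ha
  · linarith
  · have hM : 0 < M := ha.trans_le h
    have h1 : log M - log a = 2 * log √(M / a) := by
      rw [log_sqrt (by positivity), log_div hM.ne' ha.ne']; ring
    have h2 : log √(M / a) ≤ √(M / a) := (log_le_sub_one_of_pos (by positivity)).trans (by linarith)
    have h3 : 0 ≤ log √(M / a) := log_nonneg (by
      rw [one_le_sqrt, one_le_div ha]; exact h)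
    have h4 : log √(M / a) ^ 2 ≤ M / a := by
      exact (pow_le_pow_left₀ h3 h2 2).trans (sq_sqrt (by positivity)).le
    rw [le_div_iff₀ ha] at h4
    rw [← neg_sub, neg_sq, h1]
    nlinarith

lemma sq_log_sq_le {a M : ℝ} (ha : 0 ≤ a) (h : a ≤ M) :
    a ^ 2 * (log a - log M) ^ 2 ≤ 4 * M ^ 2 := by
  have := mul_le_mul h (mul_log_sq_le ha h) (by positivity) (ha.trans h)
  nlinarith

lemma phi_add (s t : ℝ) :
    ((s + t) * log |s + t| - s * log |s| - t * log |t|) ^ 2 ≤ 72 * (s ^ 2 + t ^ 2) := by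
  have h1 := sq_log_sq_le (abs_nonneg _) (abs_add_le s t)
  have h2 := sq_log_sq_le (abs_nonneg s) (le_add_of_nonneg_right (abs_nonneg t))
  have h3 := sq_log_sq_le (abs_nonneg t) (le_add_of_nonneg_left (abs_nonneg s))
  have h4 : (|s| + |t|) ^ 2 ≤ 2 * (s ^ 2 + t ^ 2) := by
    nlinarith [sq_nonneg (|s| - |t|), sq_abs s, sq_abs t]
  rw [sq_abs, ← mul_pow] at h1 h2 h3
  set M := log (|s| + |t|)
  set a := (s + t) * (log |s + t| - M)
  set b := s * (log |s| - M)
  set c := t * (log |t| - M)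
  have h5 : (s + t) * log |s + t| - s * log |s| - t * log |t| = a - b - c := by
    simp only [a, b, c]; ring
  rw [h5]
  nlinarith [sq_nonneg (a + b), sq_nonneg (a + c), sq_nonneg (b - c)]

lemma KP_add_le {x y : ℕ → ℝ} (hx : L2 x) (hy : L2 y) (M : ℝ) (n : ℕ) :
    (KP (x + y) n - KP x n - KP y n) ^ 2 ≤ 288 * (x n ^ 2 + y n ^ 2) +
      4 * ((x + y) n ^ 2 * (log (l2norm (x + y)) - M) ^ 2) +
      4 * (x n ^ 2 * (log (l2norm x) - M) ^ 2) + 4 * (y n ^ 2 * (log (l2norm y) - M) ^ 2) := by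
  have h1 := phi_add (x n) (y n)
  rw [(hx.add hy).KP_eq, hx.KP_eq, hy.KP_eq, Pi.add_apply, ← mul_pow, ← mul_pow, ← mul_pow]
  set d := (x n + y n) * log |x n + y n| - x n * log |x n| - y n * log |y n| with hd
  set a := (x n + y n) * (log (l2norm (x + y)) - M) with ha
  set b := x n * (log (l2norm x) - M) with hb
  set c := y n * (log (l2norm y) - M) with hc
  have h5 : (x n + y n) * log |x n + y n| - (x n + y n) * log (l2norm (x + y)) -
      (x n * log |x n| - x n * log (l2norm x)) - (y n * log |y n| - y n * log (l2norm y)) =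
      d - a + b + c := by
    rw [hd, ha, hb, hc]; ring
  rw [h5]
  nlinarith [sq_nonneg (d + a), sq_nonneg (d - b), sq_nonneg (d - c), sq_nonneg (a + b),
    sq_nonneg (a + c), sq_nonneg (b - c)]

lemma L2.summable {x : ℕ → ℝ} (hx : L2 x) : Summable fun n => x n ^ 2 := hx

lemma L2.KP_add {x y : ℕ → ℝ} (hx : L2 x) (hy : L2 y) : L2 (KP (x + y) - KP x - KP y) :=
  Summable.of_nonneg_of_le (fun _ => sq_nonneg _) (KP_add_le hx hy 0)
    (((((hx.summable.add hy.summable).mul_left _).add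
      (((hx.add hy).summable.mul_right _).mul_left _)).add
      ((hx.summable.mul_right _).mul_left _)).add ((hy.summable.mul_right _).mul_left _))

lemma l2norm_smul (c : ℝ) (x : ℕ → ℝ) : l2norm (c • x) = |c| * l2norm x := by
  simp only [l2norm, Pi.smul_apply, smul_eq_mul, mul_pow, tsum_mul_left]
  rw [sqrt_mul (sq_nonneg c), sqrt_sq_eq_abs]

lemma KP_smul (c : ℝ) (x : ℕ → ℝ) : KP (c • x) = c • KP x := by
  ext n
  by_cases hc : c = 0
  · simp [KP, hc]
  · simp only [KP, l2norm_smul, Pi.smul_apply, smul_eq_mul, abs_mul,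
      mul_div_mul_left _ _ (abs_ne_zero.2 hc), mul_assoc]

/-- The Kalton-Peck space: pairs `(y, x)` with `x` and `y - KP x` square summable. -/
def Z2 : Submodule ℝ ((ℕ → ℝ) × (ℕ → ℝ)) where
  carrier := {z | L2 z.2 ∧ L2 (z.1 - KP z.2)}
  zero_mem' := ⟨by simp [L2, summable_zero], by simp [L2, KP, summable_zero]⟩
  add_mem' := fun {z w} hz hw => ⟨hz.1.add hw.1, by
    convert (hz.2.add hw.2).add ((hz.1.KP_add hw.1).smul (-1)) using 1
    ext n
    simp only [Prod.fst_add, Prod.snd_add, Pi.add_apply, Pi.sub_apply, Pi.smul_apply, smul_eq_mul]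
    ring⟩
  smul_mem' := fun c z hz => ⟨hz.1.smul c, by
    rw [Prod.smul_fst, Prod.smul_snd, KP_smul, ← smul_sub]
    exact hz.2.smul c⟩

/-- The quasi-norm of the Kalton-Peck space. -/
noncomputable def qnorm (z : Z2) : ℝ := l2norm (z.1.1 - KP z.1.2) + l2norm z.1.2

section

variable {E : Type} [AddCommGroup E] [Module ℝ E] (q : E → ℝ)

/-- The real-linear operator `T` is bounded for the quasi-norm `q`. -/
def BddFor (T : E →ₗ[ℝ] E) : Prop := ∃ C : ℝ, ∀ z, q (T z) ≤ C * q z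

/-- `J` is a complex structure on the space with quasi-norm `q`. -/
def IsCS (J : E →ₗ[ℝ] E) : Prop := BddFor q J ∧ ∀ z, J (J z) = -z

/-- `J₁` and `J₂` are isomorphic: a bounded operator with bounded inverse intertwines them. -/
def IsoCS (J₁ J₂ : E →ₗ[ℝ] E) : Prop :=
  ∃ T : E ≃ₗ[ℝ] E, BddFor q T.toLinearMap ∧ BddFor q T.symm.toLinearMap ∧
    ∀ z, T (J₁ z) = J₂ (T z)

/-- Any two complex structures on the space with quasi-norm `q` are isomorphic. -/
def AllIso : Prop := ∀ J₁ J₂ : E →ₗ[ℝ] E, IsCS q J₁ → IsCS q J₂ → IsoCS q J₁ J₂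

end

end Pool.Agent.Lib.MP_7f6eca_an
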