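import Mathlib

/-! Signs of determinants and orientations in finite dimension. -/

namespace Pool.Agent.Lib.MP_7f6eca_an

open Module

section

variable {G : Type*} [NormedAddCommGroup G] [NormedSpace ℝ G] [FiniteDimensional ℝ G]

omit [FiniteDimensional ℝ G] in
lemma det_mul' (A B : G →L[ℝ] G) : (A * B).det = A.det * B.det :=
  LinearMap.det_comp (A : G →ₗ[ℝ] G) (B : G →ₗ[ℝ] G)

omit [FiniteDimensional ℝ G] in
lemma det_one' : (1 : G →L[ℝ] G).det = 1 := LinearMap.det_id

omit [FiniteDimensional ℝ G] in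
lemma norm_one_le' : ‖(1 : G →L[ℝ] G)‖ ≤ 1 := ContinuousLinearMap.norm_id_le

omit [FiniteDimensional ℝ G] in
lemma det_path {F : ℝ → G →L[ℝ] G} (hF : Continuous F)
    (h : ∀ t ∈ Set.Icc (0 : ℝ) 1, (F t).det ≠ 0) (h0 : 0 < (F 0).det) : 0 < (F 1).det := by
  by_contra h1
  have hc : ContinuousOn (fun t => (F t).det) (Set.Icc 0 1) :=
    (ContinuousLinearMap.continuous_det.comp hF).continuousOn
  obtain ⟨t, ht, h2⟩ := intermediate_value_Icc' zero_le_one hc
    (show (0 : ℝ) ∈ _ from ⟨not_lt.1 h1, h0.le⟩)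
  exact h t ht h2

lemma det_ne_of_near {X : G →L[ℝ] G} (h : ‖X - 1‖ < 1) : X.det ≠ 0 := by
  refine (LinearMap.isUnit_det _ ((LinearMap.isUnit_iff_ker_eq_bot _).2
    (LinearMap.ker_eq_bot'.2 fun v hv => ?_))).ne_zero
  by_contra h0
  have h1 := (X - 1).le_opNorm v
  have h2 : (X - 1) v = -v := by
    have h3 : X v = 0 := hv
    simp [h3]
  rw [h2, norm_neg] at h1
  have := norm_pos_iff.2 h0
  nlinarith

lemma det_pos_of_near {X : G →L[ℝ] G} (h : ‖X - 1‖ < 1) : 0 < X.det := by
  have := det_path (F := fun t : ℝ => 1 + t • (X - 1)) (by fun_prop) (fun t ht =>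
    det_ne_of_near (by
      rw [add_sub_cancel_left, norm_smul, Real.norm_of_nonneg ht.1]
      exact (mul_le_of_le_one_left (norm_nonneg _) ht.2).trans_lt h)) (by simp [det_one'])
  simpa using this

lemma det_ne_of_mul {X V : G →L[ℝ] G} (h : ‖X * V - 1‖ < 1) : X.det ≠ 0 :=
  left_ne_zero_of_mul (det_mul' X V ▸ det_ne_of_near h)

lemma exists_inv {X V : G →L[ℝ] G} (h : ‖X * V - 1‖ ≤ 1 / 2) :
    ∃ X' : G →L[ℝ] G, X * X' = 1 ∧ X' * X = 1 ∧ ‖X'‖ ≤ 2 * ‖V‖ := by
  let e := LinearMap.equivOfDetNeZero (X : G →ₗ[ℝ] G) (det_ne_of_mul (h.trans_lt (by norm_num)))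
  let X' : G →L[ℝ] G := LinearMap.toContinuousLinearMap e.symm.toLinearMap
  have h1 : X * X' = 1 := ContinuousLinearMap.ext fun v => e.apply_symm_apply v
  have h2 : X' * X = 1 := ContinuousLinearMap.ext fun v => e.symm_apply_apply v
  refine ⟨X', h1, h2, ?_⟩
  have h3 : X' = V - X' * (X * V - 1) := by rw [mul_sub, ← mul_assoc, h2]; simp
  have h4 := (congrArg norm h3).trans_le ((norm_sub_le _ _).trans (add_le_add le_rfl
    ((norm_mul_le _ _).trans (mul_le_mul_of_nonneg_left h (norm_nonneg _)))))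
  linarith

end

lemma cx_coord {V : Type*} [AddCommGroup V] [Module ℝ V] [FiniteDimensional ℝ V] {b : End ℝ V}
    (hb : b * b = -1) : ∃ (m : ℕ) (e : V ≃ₗ[ℝ] (Fin m → ℂ)), finrank ℝ V = 2 * m ∧
      ∀ v, e (b v) = Complex.I • e v := by
  let : Module ℂ V := Module.compHom V (Complex.liftAux b hb).toRingHom
  have h1 : ∀ (z : ℂ) (v : V), z • v = z.re • v + z.im • b v := fun z v => rfl
  have : IsScalarTower ℝ ℂ V := ⟨fun r z v => by
    simp [h1, mul_smul]⟩
  have : FiniteDimensional ℂ V := Module.Finite.of_restrictScalars_finite ℝ ℂ V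
  let e := (Module.finBasis ℂ V).equivFun
  refine ⟨finrank ℂ V, e.restrictScalars ℝ, ?_, fun v => ?_⟩
  · rw [← finrank_mul_finrank ℝ ℂ V, Complex.finrank_real_complex]
  · have h2 : b v = Complex.I • v := by simp [h1]
    rw [h2]
    exact e.map_smul _ _

lemma cx_conj {V : Type*} [AddCommGroup V] [Module ℝ V] [FiniteDimensional ℝ V] {a b : End ℝ V}
    (ha : a * a = -1) (hb : b * b = -1) : ∃ t : V ≃ₗ[ℝ] V, ∀ v, t (a v) = b (t v) := by
  obtain ⟨m, e, h1, h2⟩ := cx_coord ha
  obtain ⟨m', e', h3, h4⟩ := cx_coord hb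
  obtain rfl : m = m' := by omega
  refine ⟨e.trans e'.symm, fun v => e'.injective ?_⟩
  simp [h2, h4]

lemma det_nonneg_of_comm {V : Type*} [AddCommGroup V] [Module ℝ V] [FiniteDimensional ℝ V]
    {i X : End ℝ V} (hi : i * i = -1) (h : ∀ v, X (i v) = i (X v)) : 0 ≤ LinearMap.det X := by
  obtain ⟨m, e, -, h2⟩ := cx_coord hi
  have h3 : ∀ w, e.symm (Complex.I • w) = i (e.symm w) := fun w => e.injective (by simp [h2])
  let f : (Fin m → ℂ) →ₗ[ℝ] (Fin m → ℂ) := e.toLinearMap ∘ₗ X ∘ₗ e.symm.toLinearMap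
  have h4 : ∀ w, f (Complex.I • w) = Complex.I • f w := fun w => by simp [f, h3, h, h2]
  let g : (Fin m → ℂ) →ₗ[ℂ] (Fin m → ℂ) :=
    { toFun := f
      map_add' := f.map_add
      map_smul' := fun c w => by
        have h5 : ∀ u : Fin m → ℂ, c • u = c.re • u + c.im • Complex.I • u := fun u => by
          ext j
          simp only [Pi.smul_apply, Pi.add_apply, smul_eq_mul, Complex.real_smul]
          rw [← mul_assoc, ← add_mul, Complex.re_add_im]
        rw [h5, map_add, map_smul, map_smul, h4, RingHom.id_apply, h5 (f w)] }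
  rw [← LinearMap.det_conj X e]
  change 0 ≤ LinearMap.det (g.restrictScalars ℝ)
  rw [LinearMap.det_restrictScalars, Algebra.norm_complex_apply]
  exact Complex.normSq_nonneg _

lemma det_mul_nonneg {V : Type*} [AddCommGroup V] [Module ℝ V] [FiniteDimensional ℝ V]
    {i L T W : End ℝ V} (hi : i * i = -1) (hT : ∀ v, T (i v) = L (T v))
    (hW : ∀ v, W (i v) = L (W v)) : 0 ≤ LinearMap.det T * LinearMap.det W := by
  by_cases h : LinearMap.det T = 0
  · simp [h]
  let e := LinearMap.equivOfDetNeZero T h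
  have h1 : ∀ v, T (e.symm v) = v := e.apply_symm_apply
  have h2 := det_nonneg_of_comm (X := e.symm.toLinearMap ∘ₗ W) hi fun v => e.injective (by
    change T (e.symm (W (i v))) = T (i (e.symm (W v)))
    rw [hT, h1, h1, hW])
  have h3 : W = T ∘ₗ (e.symm.toLinearMap ∘ₗ W) := LinearMap.ext fun v => (h1 _).symm
  rw [h3, LinearMap.det_comp, ← mul_assoc]
  exact mul_nonneg (mul_self_nonneg _) h2

lemma newton {B : Type*} [NormedRing B] [NormedAlgebra ℝ B] [CompleteSpace B] {a : B} {η : ℝ}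
    (h : ‖a * a + 1‖ ≤ η) (hη : η ≤ 1 / 2) : ∃ b : B, b * b = -1 ∧ ‖b - a‖ ≤ 2 * η * ‖a‖ := by
  let ν : B → B := fun x => x + (1 / 2 : ℝ) • (x * (x * x + 1))
  have h0 : 0 ≤ η := (norm_nonneg _).trans h
  have key : ∀ x : B, ν x * ν x + 1 = (3 / 4 : ℝ) • ((x * x + 1) * (x * x + 1)) +
      (1 / 4 : ℝ) • ((x * x + 1) * (x * x + 1) * (x * x + 1)) := fun x => by
    simp only [ν, mul_add, add_mul, smul_add, mul_smul_comm, smul_mul_assoc, mul_one, one_mul,
      smul_smul, mul_assoc]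
    module
  have step : ∀ x : B, ‖ν x - x‖ ≤ 1 / 2 * (‖x‖ * ‖x * x + 1‖) := fun x => by
    simp only [ν, add_sub_cancel_left, norm_smul, Real.norm_of_nonneg (by norm_num : (0 : ℝ) ≤ 1 / 2)]
    exact mul_le_mul_of_nonneg_left (norm_mul_le _ _) (by norm_num)
  have inv : ∀ k, ‖ν^[k] a * ν^[k] a + 1‖ ≤ η * (1 / 2) ^ k ∧
      ‖ν^[k] a - a‖ ≤ 2 * η * ‖a‖ * (1 - (1 / 2) ^ k) := fun k => by
    induction k with
    | zero => simpa using h
    | succ k ih =>
      rw [Function.iterate_succ_apply']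
      set x := ν^[k] a
      set E := x * x + 1
      have h1 : (0 : ℝ) < (1 / 2) ^ k := by positivity
      have h2 : (1 / 2 : ℝ) ^ k ≤ 1 := pow_le_one₀ (by norm_num) (by norm_num)
      have h3 : ‖E‖ ≤ 1 / 2 := ih.1.trans ((mul_le_of_le_one_right h0 h2).trans hη)
      have h4 := norm_nonneg E
      have h5 := norm_nonneg a
      constructor
      · rw [key]
        have h6 := norm_mul_le E E
        have h7 := (norm_mul_le (E * E) E).trans (mul_le_mul_of_nonneg_right h6 h4)
        refine (norm_add_le _ _).trans ?_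
        rw [norm_smul, norm_smul, Real.norm_of_nonneg (by norm_num), Real.norm_of_nonneg (by norm_num),
          pow_succ]
        nlinarith [ih.1, mul_nonneg h4 h4]
      · have h6 : ‖x‖ ≤ 2 * ‖a‖ := by
          have h7 := norm_add_le (x - a) a
          rw [sub_add_cancel] at h7
          have h8 : 2 * η * ‖a‖ * (1 - (1 / 2) ^ k) ≤ 2 * η * ‖a‖ :=
            mul_le_of_le_one_right (by positivity) (by linarith)
          nlinarith [ih.2]
        have h7 := (step x).trans (mul_le_mul_of_nonneg_left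
          (mul_le_mul h6 ih.1 h4 (by positivity)) (by norm_num))
        have h8 := norm_add_le (ν x - x) (x - a)
        rw [sub_add_sub_cancel] at h8
        rw [pow_succ]
        nlinarith [ih.2]
  have hc : CauchySeq fun k => ν^[k] a :=
    cauchySeq_of_le_geometric (1 / 2) (η * ‖a‖) (by norm_num) fun k => by
      rw [Function.iterate_succ_apply', dist_comm, dist_eq_norm]
      have h1 : (0 : ℝ) < (1 / 2) ^ k := by positivity
      have h5 := norm_nonneg a
      have h6 : ‖ν^[k] a‖ ≤ 2 * ‖a‖ := by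
        have h7 := norm_add_le (ν^[k] a - a) a
        rw [sub_add_cancel] at h7
        have h8 : 2 * η * ‖a‖ * (1 - (1 / 2) ^ k) ≤ 2 * η * ‖a‖ :=
          mul_le_of_le_one_right (by positivity) (by linarith)
        nlinarith [(inv k).2]
      refine ((step _).trans (mul_le_mul_of_nonneg_left
        (mul_le_mul h6 (inv k).1 (norm_nonneg _) (by positivity)) (by norm_num))).trans_eq ?_
      ring
  obtain ⟨b, hb⟩ := cauchySeq_tendsto_of_complete hc
  refine ⟨b, ?_, le_of_tendsto' (hb.sub_const a).norm fun k => (inv k).2.trans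
    (mul_le_of_le_one_right (by positivity) (sub_le_self _ (by positivity)))⟩
  have h1 := le_of_tendsto_of_tendsto' ((hb.mul hb).add_const 1).norm
    ((tendsto_pow_atTop_nhds_zero_of_lt_one (by norm_num : (0 : ℝ) ≤ 1 / 2)
      (by norm_num)).const_mul η) fun k => (inv k).1
  rw [mul_zero, norm_le_zero_iff] at h1
  exact eq_neg_of_add_eq_zero_left h1

end Pool.Agent.Lib.MP_7f6eca_an
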