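import Pool.Agent.Lib.MP_7f6eca_an.Mdl

/-! Construction of the finite model. -/

namespace Pool.Agent.Lib.MP_7f6eca_an

open Real Finset Filter

section

variable {G : Type*} [NormedAddCommGroup G] [NormedSpace ℝ G] {ι : Type*} [DecidableEq ι]
  (D : (ι → ℝ) →ₐ[ℝ] (G →L[ℝ] G)) (a : ι) (g : ι → ℝ) (X : G →L[ℝ] G)

lemma D_atom_left : D g * (D (Pi.single a 1) * X * D (Pi.single a 1)) =
    g a • (D (Pi.single a 1) * X * D (Pi.single a 1)) := by
  rw [← mul_assoc, ← mul_assoc, D_mul_single, smul_mul_assoc, smul_mul_assoc]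

lemma D_atom_right : D (Pi.single a 1) * X * D (Pi.single a 1) * D g =
    g a • (D (Pi.single a 1) * X * D (Pi.single a 1)) := by
  rw [mul_assoc, D_single_mul, mul_smul_comm]

end

lemma P_sub_left {A B : Set ℕ} (h : A ⊆ B) (z : Z2) : P A (P B z) = P A z := by
  rw [P_P, Set.inter_eq_left.2 h]

lemma P_sub_right {A B : Set ℕ} (h : A ⊆ B) (z : Z2) : P B (P A z) = P A z := by
  rw [P_P, Set.inter_eq_right.2 h]

lemma P_empty (z : Z2) : P ∅ z = 0 := by ext n <;> simp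

lemma tail_cm {T : Z2 →ₗ[ℝ] Z2} {C : ℝ} (hT : BQ T C) {η : ℝ} (hη : 0 < η) :
    ∀ᶠ m in atTop, ∀ z, Q (P (Set.Ici m) (cm T z)) ≤ η * Q z := by
  have hδ : 0 < η / 82000 := by positivity
  obtain ⟨n, hn⟩ := (cm_small hT hδ).exists
  filter_upwards [eventually_tail (cm T) n hδ] with m h z
  have e : P (Set.Ici m) (cm T z) = P (Set.Ici m) (cm T (P (Set.Iio n) z)) +
      P (Set.Ici m) (cm T (P (Set.Ici n) z)) := by
    rw [← map_add, ← map_add, P_Ici n, add_sub_cancel]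
  have h1 := (hn _ (P_Iio_Ici n z)).trans (mul_le_mul_of_nonneg_left (Q_P_le _ z) hδ.le)
  have h2 := Q_P_le (Set.Ici m) (cm T (P (Set.Ici n) z))
  have h3 := h z
  rw [e]
  refine (Q_add_le _ _).trans ?_
  linarith

lemma exists_cuts {T : Z2 →ₗ[ℝ] Z2} {C : ℝ} (hT : BQ T C) {η : ℝ} (hη : 0 < η) :
    ∃ a : ℕ → ℕ, a 0 = 0 ∧ StrictMono a ∧ ∀ i,
      (∀ z, Q (P (Set.Ici (2 * a (i + 1))) (T (P (Set.Iio (2 * a i)) z))) ≤ η * Q z) ∧
      (∀ z, P (Set.Iio (2 * a (i + 1))) z = 0 → Q (P (Set.Iio (2 * a i)) (T z)) ≤ η * Q z) ∧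
      ∀ z, Q (P (Set.Ici (2 * a (i + 1))) (cm T z)) ≤ η * Q z := by
  have h : ∀ x : ℕ, ∃ y, x < y ∧
      (∀ z, Q (P (Set.Ici (2 * y)) (T (P (Set.Iio (2 * x)) z))) ≤ η * Q z) ∧
      (∀ z, P (Set.Iio (2 * y)) z = 0 → Q (P (Set.Iio (2 * x)) (T z)) ≤ η * Q z) ∧
      ∀ z, Q (P (Set.Ici (2 * y)) (cm T z)) ≤ η * Q z := fun x => by
    obtain ⟨m, hm⟩ := eventually_atTop.1 ((eventually_tail T (2 * x) hη).and
      ((shrinking' hT (2 * x) hη).and (tail_cm hT hη)))
    exact ⟨m + x + 1, by omega, hm _ (by omega)⟩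
  choose f hf hf' using h
  refine ⟨fun k => f^[k] 0, rfl, strictMono_nat_of_lt_succ fun k => ?_, fun k => ?_⟩
  · rw [Function.iterate_succ_apply']; exact hf _
  · dsimp only
    rw [Function.iterate_succ_apply']; exact hf' _

lemma exists_far {T : Z2 →ₗ[ℝ] Z2} {C : ℝ} (hT : BQ T C) {t : ℝ} (ht : 0 < t) {k : ℕ} (hk : 0 < k) :
    ∃ (n : ℕ) (β : ℕ → ℕ), 0 < n ∧ β 0 = 0 ∧ (∀ j, β j ≤ k) ∧
      (∀ z, Q ((∑ m ∈ range (k + 1), (PS {j | m + 2 ≤ β j} ∘ₗ T ∘ₗ PS {j | β j = m ∧ j < n} +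
        PS {j | β j + 2 ≤ m} ∘ₗ T ∘ₗ PS {j | β j = m ∧ j < n})) z) ≤ t * Q z) ∧
      (∀ z, Q (PS {j | β j < k} (T (P (Set.Ici (2 * n)) (T z)))) ≤ t * Q z) ∧
      ∀ z, Q (PS {j | 1 ≤ β j} (cm T z)) ≤ t * Q z := by
  classical
  have hC := hT.1
  obtain ⟨c, hc⟩ : ∃ c : ℝ, c = 1000 ^ (k + 1) * ((k + 1 : ℕ) * 162000) := ⟨_, rfl⟩
  have hc0 : 0 < c := by rw [hc]; positivity
  obtain ⟨η, hη, hη1, hη2⟩ : ∃ η > 0, c * η ≤ t ∧ 81 * C * η ≤ t :=
    ⟨t / (c + 81 * C), by positivity, by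
      rw [mul_div_assoc', div_le_iff₀ (by positivity)]; nlinarith, by
      rw [mul_div_assoc', div_le_iff₀ (by positivity)]; nlinarith⟩
  obtain ⟨a, ha0, ha, h⟩ := exists_cuts hT hη
  let β : ℕ → ℕ := fun j => Nat.findGreatest (fun i => a i ≤ j) k
  have b1 : ∀ j, β j ≤ k := fun j => Nat.findGreatest_le k
  have b2 : ∀ j, a (β j) ≤ j := fun j =>
    Nat.findGreatest_spec (P := fun i => a i ≤ j) (Nat.zero_le k) (by simp [ha0])
  have b3 : ∀ i j, i ≤ k → β j < i → j < a i := fun i j hi hj =>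
    not_le.1 fun h => hj.not_ge (Nat.le_findGreatest hi h)
  have b4 : ∀ i j, i ≤ β j → a i ≤ j := fun i j hi => (ha.monotone hi).trans (b2 j)
  refine ⟨a (k + 1), β, ha0 ▸ ha k.succ_pos, ?_, b1, fun z => ?_, fun z => ?_, fun z => ?_⟩
  · exact ha.injective (by rw [ha0]; exact Nat.le_zero.1 (b2 0))
  · have h0 := Q_nonneg z
    rw [LinearMap.sum_apply]
    refine (Q_sum_le' (δ := 162000 * (η * Q z)) fun m hm => ?_).trans ?_
    · set u := PS {j | β j = m ∧ j < a (k + 1)} z with hu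
      have u0 : η * Q u ≤ η * (9 * Q z) := mul_le_mul_of_nonneg_left (Q_P_le _ z) hη.le
      have u1 : P (Set.Iio (2 * a (m + 1))) u = u := P_sub_right (fun j hj => by
        obtain ⟨h1, h2⟩ := hj
        have := b3 (m + 1) (j / 2)
        rcases (by omega : m = k ∨ m + 1 ≤ k) with rfl | h3 <;> simp only [Set.mem_Iio] <;> omega) z
      have u2 : P (Set.Iio (2 * a m)) u = 0 := by
        rw [hu, PS, P_P, ← P_empty z]
        congr 2
        refine Set.eq_empty_of_forall_notMem fun j ⟨h1, h2, h3⟩ => ?_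
        have := b4 m (j / 2) h2.ge
        simp only [Set.mem_Iio] at h1
        omega
      have v1 : Q (PS {j | m + 2 ≤ β j} (T u)) ≤ 9 * (η * Q u) := by
        rw [PS, ← P_sub_left (B := Set.Ici (2 * a (m + 1 + 1))) (fun j hj => by
          have := b4 (m + 1 + 1) (j / 2) hj
          simp only [Set.mem_Ici]
          omega)]
        refine (Q_P_le _ _).trans (mul_le_mul_of_nonneg_left ?_ (by norm_num))
        have := (h (m + 1)).1 u
        rwa [u1] at this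
      have v2 : Q (PS {j | β j + 2 ≤ m} (T u)) ≤ 9 * (η * Q u) := by
        rcases m with _ | m
        · have := Q_nonneg u
          rw [PS, Set.eq_empty_of_forall_notMem (s := {j | j / 2 ∈ {j | β j + 2 ≤ 0}})
            fun j (hj : β (j / 2) + 2 ≤ 0) => by omega, P_empty, Q_zero]
          positivity
        · rw [PS, ← P_sub_left (B := Set.Iio (2 * a m)) (fun j hj => by
            have h1 : β (j / 2) + 2 ≤ m + 1 := hj
            have := b3 m (j / 2) (by omega) (by omega)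
            simp only [Set.mem_Iio]
            omega)]
          exact (Q_P_le _ _).trans (mul_le_mul_of_nonneg_left ((h m).2.1 u u2) (by norm_num))
      refine (Q_add_le _ _).trans ?_
      change 1000 * (Q (PS _ (T u)) + Q (PS _ (T u))) ≤ _
      linarith
    · refine le_trans (le_of_eq ?_) (mul_le_mul_of_nonneg_right hη1 h0)
      rw [hc]; ring
  · rw [PS, ← P_sub_left (B := Set.Iio (2 * a k)) (fun j hj => by
      have := b3 k (j / 2) le_rfl hj
      simp only [Set.mem_Iio]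
      omega)]
    have h1 := ((h k).2.1 _ (P_Iio_Ici _ (T z))).trans (mul_le_mul_of_nonneg_left
      ((Q_P_le _ _).trans (mul_le_mul_of_nonneg_left (hT.2 z) (by norm_num))) hη.le)
    have h2 := mul_le_mul_of_nonneg_right hη2 (Q_nonneg z)
    refine (Q_P_le _ _).trans ?_
    linarith
  · rw [PS, ← P_sub_left (B := Set.Ici (2 * a (0 + 1))) (fun j hj => by
      have := b4 1 (j / 2) hj
      simp only [Set.mem_Ici, zero_add]
      omega)]
    have h1 := (h 0).2.2 z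
    have h2 := mul_le_mul_of_nonneg_right hη2 (Q_nonneg z)
    have h3 : η * Q z ≤ C * (η * Q z) :=
      le_mul_of_one_le_left (mul_nonneg hη.le (Q_nonneg z)) hC
    have h4 := mul_nonneg hη.le (Q_nonneg z)
    refine (Q_P_le _ _).trans ?_
    linarith

theorem loc {T p : Z2 →ₗ[ℝ] Z2} (hT : Bdd T) (hp : Bdd p) (hTT : ∀ z, T (T z) = p z - z)
    (hTp : ∀ z, T (p z) = 0) (hpT : ∀ z, p (T z) = 0) (hpp : ∀ z, p (p z) = p z)
    (hl : ∀ z, PS {0} (p z) = p z) (hr : ∀ z, p (PS {0} z) = p z) :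
    ∃ C : ℝ, 1 ≤ C ∧ ∀ ε > 0, ∃ n, 0 < n ∧ ∃ (Y : ℕ → ℝ) (ψ : Fin n → ℝ),
      Model (fun ω => Dm n fun a => cos (ω * ψ a)) (fun ω => Dm n fun a => sin (ω * ψ a))
        (mdl n Y T) (mdl n Y p) (tri 0 1) C ε := by
  obtain ⟨C, hT, hp⟩ : ∃ C, BQ T C ∧ BQ p C := by
    obtain ⟨C₁, h1⟩ := hT.bq
    obtain ⟨C₂, h2⟩ := hp.bq
    exact ⟨max C₁ C₂, ⟨le_max_of_le_left h1.1, fun z => (h1.2 z).trans
      (mul_le_mul_of_nonneg_right (le_max_left _ _) (Q_nonneg z))⟩, le_max_of_le_left h1.1,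
      fun z => (h2.2 z).trans (mul_le_mul_of_nonneg_right (le_max_right _ _) (Q_nonneg z))⟩
  obtain ⟨C', hC', hd⟩ := dens' (Fin 5) hT.1
  refine ⟨C', hC', fun ε hε => ?_⟩
  obtain ⟨t, ht, ht1, ht2⟩ : ∃ t > 0, t * C' ≤ ε / 4 ∧ t * C' ≤ 1 :=
    ⟨min (ε / 4) 1 / C', by positivity, by
      rw [div_mul_cancel₀ _ (by positivity)]; exact min_le_left _ _, by
      rw [div_mul_cancel₀ _ (by positivity)]; exact min_le_right _ _⟩
  obtain ⟨k, hk⟩ := exists_nat_gt (48 * (C' + 1) / ε)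
  have hk0 : (0 : ℝ) < k := lt_trans (by positivity) hk
  obtain ⟨n, β, hn, β0, βk, w1, w2, w3⟩ := exists_far hT (by positivity : 0 < t ^ 2)
    (k := k) (by exact_mod_cast hk0)
  set W := ∑ m ∈ range (k + 1), (PS {j | m + 2 ≤ β j} ∘ₗ T ∘ₗ PS {j | β j = m ∧ j < n} +
    PS {j | β j + 2 ≤ m} ∘ₗ T ∘ₗ PS {j | β j = m ∧ j < n}) with hW
  have sc : ∀ u z : Z2, Q u ≤ t ^ 2 * Q z → Q (t⁻¹ • u) ≤ C * Q z := fun u z h => by
    rw [Q_smul, inv_pow, inv_mul_le_iff₀ (by positivity)]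
    exact h.trans (mul_le_mul_of_nonneg_left (le_mul_of_one_le_left (Q_nonneg z) hT.1)
      (by positivity))
  obtain ⟨Y, hY⟩ := hd n ![T, p, t⁻¹ • W, t⁻¹ • (PS {j | β j < k} ∘ₗ T ∘ₗ P (Set.Ici (2 * n)) ∘ₗ T),
    t⁻¹ • (PS {j | 1 ≤ β j} ∘ₗ cm T)] fun i z => by
      fin_cases i
      exacts [hT.2 z, hp.2 z, sc _ _ (w1 z), sc _ _ (w2 z), sc _ _ (w3 z)]
  have sc' : ∀ X, ‖mdl n Y (t⁻¹ • X)‖ ≤ C' → ‖mdl n Y X‖ ≤ t * C' := fun X h => by
    rwa [map_smul, norm_smul, Real.norm_of_nonneg (by positivity), inv_mul_le_iff₀ ht] at h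
  have y0 : ‖mdl n Y T‖ ≤ C' := hY 0
  have y2 := sc' _ (hY 2)
  have y3 := sc' _ (hY 3)
  have y4 := sc' _ (hY 4)
  rw [mdl_PS_left] at y3 y4
  have hcont := LinearMap.continuous_of_finiteDimensional (Dm n).toLinearMap
  have p1 : ∀ z, P (Set.Iio (2 * n)) (p z) = p z := fun z => by
    rw [← hl, PS, P_sub_right fun j hj => by
      have : j / 2 = 0 := hj
      simp only [Set.mem_Iio]
      omega]
  have p2 : ∀ z, p (P (Set.Iio (2 * n)) z) = p z := fun z => by
    rw [← hr, ← hr z, PS, P_sub_left fun j hj => by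
      have : j / 2 = 0 := hj
      simp only [Set.mem_Iio]
      omega]
  have p3 : mdl n Y p = Dm n (Pi.single ⟨0, hn⟩ 1) * mdl n Y p * Dm n (Pi.single ⟨0, hn⟩ 1) := by
    have h1 : (fun a : Fin n => Set.indicator {0} (1 : ℕ → ℝ) (a : ℕ)) = Pi.single ⟨0, hn⟩ 1 := by
      ext a
      simp [Set.indicator, Pi.single_apply, Fin.ext_iff]
    rw [← h1, ← mdl_PS]
    congr 1
    exact LinearMap.ext fun z => by simp [hl, hr]
  have p4 : ∀ g, Dm n g * mdl n Y p = g ⟨0, hn⟩ • mdl n Y p := fun g => by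
    rw [p3, D_atom_left]
  have p5 : ∀ g, mdl n Y p * Dm n g = g ⟨0, hn⟩ • mdl n Y p := fun g => by
    rw [p3, D_atom_right]
  have hcomm : ∀ f : ℝ → ℝ, (∀ x, |f x| ≤ 1) → (∀ x y, |f x - f y| ≤ |x - y|) →
      ∀ ω ∈ Set.Icc 0 π, ‖mdl n Y T * Dm n (fun a => f (ω * (1 - β a / k))) -
        Dm n (fun a => f (ω * (1 - β a / k))) * mdl n Y T‖ ≤ ε := fun f f1 f2 ω hω => by
    have h1 := comm_tri (Dm n) (norm_Dm n) (fun a => β a) (X := mdl n Y T - mdl n Y W)
      (fun a b hab => by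
        simp only [hW, map_sum, map_add, mdl_PS, mul_sub, sub_mul, mul_add, add_mul, mul_sum,
          sum_mul, D_sandwich, ← add_smul, ← sum_smul]
        rw [sum_eq_single (β b) (fun m _ hm => by simp [Set.indicator, hm.symm])
          (fun h => absurd (mem_range.2 (Nat.lt_succ_of_le (βk b))) h), sub_eq_zero]
        rcases hab with h | h
        · simp [Set.indicator, h, show ¬ β b + 2 ≤ β a by omega]
        · simp [Set.indicator, h, show ¬ β a + 2 ≤ β b by omega])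
      (fun i => f (ω * (1 - i / k))) (δ := 4 / k) fun i => (f2 _ _).trans (by
        have : ω * (1 - ((i + 1 : ℕ) : ℝ) / k) - ω * (1 - i / k) = -(ω / k) := by
          push_cast; ring
        rw [this, abs_neg, abs_of_nonneg (div_nonneg hω.1 hk0.le)]
        exact div_le_div_of_nonneg_right (hω.2.trans pi_le_four) hk0.le)
    have h2 := norm_Dm n (fun a => f (ω * (1 - β a / k))) 1 zero_le_one fun a => f1 _
    set F := Dm n fun a => f (ω * (1 - β a / k))
    have h3 := (norm_mul_le (mdl n Y W) F).trans ((mul_le_of_le_one_right (norm_nonneg _) h2).trans y2)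
    have h4 := (norm_mul_le F (mdl n Y W)).trans ((mul_le_of_le_one_left (norm_nonneg _) h2).trans y2)
    have h5 := mul_le_mul_of_nonneg_left ((norm_sub_le (mdl n Y T) (mdl n Y W)).trans
      (add_le_add y0 (y2.trans ht2))) (by positivity : (0 : ℝ) ≤ 4 / k)
    have h6 : 4 / k * (C' + 1) ≤ ε / 12 := by
      rw [div_lt_iff₀ hε] at hk
      rw [div_mul_eq_mul_div, div_le_iff₀ hk0]
      linarith
    have e : mdl n Y T * F - F * mdl n Y T = ((mdl n Y T - mdl n Y W) * F -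
        F * (mdl n Y T - mdl n Y W)) + (mdl n Y W * F - F * mdl n Y W) := by
      rw [sub_mul, mul_sub]; abel
    have h7 := norm_sub_le (mdl n Y W * F) (F * mdl n Y W)
    rw [e]
    refine (norm_add_le _ _).trans ?_
    linarith
  have ns : ∀ ω : ℝ, ‖Dm n fun a => sin (ω * (1 - β a / k))‖ ≤ 1 := fun ω =>
    norm_Dm n _ 1 zero_le_one fun a => abs_sin_le_one _
  refine ⟨n, hn, Y, fun a => 1 - β a / k, hcont.comp (by fun_prop), hcont.comp (by fun_prop),
    by simp only [zero_mul, cos_zero]; exact map_one (Dm n),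
    by simp only [zero_mul, sin_zero]; exact map_zero (Dm n), fun a b => ?_, fun a b => ?_,
    fun ω => norm_Dm n _ 1 zero_le_one fun a => abs_cos_le_one _, ns, fun ω => by simp [p4, β0],
    fun ω => by simp [p5, β0], fun ω => by simp [p4, β0], fun ω => by simp [p5, β0], ?_, ?_, ?_,
    y0, hY 1, hcomm _ abs_cos_le_one abs_cos_sub_cos_le, hcomm _ abs_sin_le_one abs_sin_sub_sin_le,
    fun ω => ?_, fun ω => Dm_N n _, fun ω => Dm_N n _, ?_⟩
  · rw [← map_mul, ← map_mul, ← map_add]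
    congr 1
    ext j
    simp [sub_mul, cos_sub]
  · rw [← map_mul, ← map_mul, ← map_sub]
    congr 1
    ext j
    simp [sub_mul, sin_sub]
  · rw [mdl_mul]
    congr 1
    exact LinearMap.ext fun z => by simp [p1, hpp]
  · rw [mdl_mul, ← map_zero (mdl n Y)]
    congr 1
    exact LinearMap.ext fun z => by simp [p1, hTp]
  · rw [mdl_mul, ← map_zero (mdl n Y)]
    congr 1
    exact LinearMap.ext fun z => by simp [p2, hpT]
  · have e1 : mdl n Y p - (mdl n Y T * mdl n Y T + 1) =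
        mdl n Y (T ∘ₗ P (Set.Ici (2 * n)) ∘ₗ T) := by
      rw [mdl_mul, ← mdl_id n Y, ← map_add, ← map_sub]
      congr 1
      refine LinearMap.ext fun z => ?_
      simp only [LinearMap.sub_apply, LinearMap.add_apply, LinearMap.comp_apply, LinearMap.id_apply,
        P_Ici, map_sub, hTT]
      abel
    have e2 : (Dm n fun a => sin (ω * (1 - β a / k))) = (Dm n fun a => sin (ω * (1 - β a / k))) *
        Dm n fun a => Set.indicator {j | β j < k} 1 (a : ℕ) := by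
      rw [← map_mul]
      congr 1
      ext a
      rcases (βk a).lt_or_eq with h | h <;> simp [h, hk0.ne']
    rw [← norm_neg, ← mul_neg, neg_sub, e1]
    change ‖(Dm n fun a => sin (ω * (1 - β a / k))) * _‖ ≤ ε
    rw [e2, mul_assoc]
    exact (norm_mul_le _ _).trans ((mul_le_of_le_one_left (norm_nonneg _) (ns ω)).trans
      (y3.trans (by linarith)))
  · have e2 : (Dm n fun a => sin (π * (1 - β a / k))) = (Dm n fun a => sin (π * (1 - β a / k))) *
        Dm n fun a => Set.indicator {j | 1 ≤ β j} 1 (a : ℕ) := by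
      rw [← map_mul]
      congr 1
      ext a
      rcases Nat.eq_zero_or_pos (β a) with h | h <;> simp [h, Nat.succ_le_iff]
    rw [← mdl_cm]
    change ‖(Dm n fun a => sin (π * (1 - β a / k))) * _‖ ≤ ε
    rw [e2, mul_assoc]
    exact (norm_mul_le _ _).trans ((mul_le_of_le_one_left (norm_nonneg _) (ns π)).trans
      (y4.trans (by linarith)))

end Pool.Agent.Lib.MP_7f6eca_an
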