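import Mathlib

/-! Almost idempotents that almost commute with the standard nilpotent have even rank. -/

namespace Pool.Agent.Lib.MP_7f6eca_an

open Module

/-- The Newton step towards an idempotent. -/
def nw {R : Type*} [Ring R] (X : R) : R := 3 * X ^ 2 - 2 * X ^ 3

section

variable {V : Type*} [AddCommGroup V] [Module ℂ V]

/-- All eigenvalues are almost idempotent. -/
def Gd (X : End ℂ V) (η : ℝ) : Prop := ∀ μ, X.HasEigenvalue μ → ‖μ ^ 2 - μ‖ ≤ η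

variable [FiniteDimensional ℂ V]

lemma Gd.nw {X : End ℂ V} {η : ℝ} (h : Gd X η) (hη : η ≤ 1 / 8) : Gd (nw X) (η / 2) := by
  intro μ hμ
  have h1 : Polynomial.aeval X (3 * Polynomial.X ^ 2 - 2 * Polynomial.X ^ 3 : Polynomial ℂ) =
      MP_7f6eca_an.nw X := by
    simp [MP_7f6eca_an.nw, map_ofNat]
  have h2 : 0 < (3 * Polynomial.X ^ 2 - 2 * Polynomial.X ^ 3 : Polynomial ℂ).degree := by
    have : (3 * Polynomial.X ^ 2 - 2 * Polynomial.X ^ 3 : Polynomial ℂ).degree = 3 := by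
      compute_degree!
    rw [this]; norm_num
  rw [End.hasEigenvalue_iff_mem_spectrum, ← h1,
    spectrum.map_polynomial_aeval_of_degree_pos _ _ h2] at hμ
  obtain ⟨l, hl, rfl⟩ := hμ
  have h3 := h l (End.hasEigenvalue_iff_mem_spectrum.2 hl)
  have h4 : ∀ l : ℂ, (3 * l ^ 2 - 2 * l ^ 3) ^ 2 - (3 * l ^ 2 - 2 * l ^ 3) =
      (l ^ 2 - l) ^ 2 * (4 * (l ^ 2 - l) - 3) := fun l => by ring
  simp only [Polynomial.eval_sub, Polynomial.eval_mul, Polynomial.eval_ofNat, Polynomial.eval_pow,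
    Polynomial.eval_X, h4, norm_mul, norm_pow]
  have h5 := norm_sub_le (4 * (l ^ 2 - l)) 3
  rw [norm_mul, Complex.norm_ofNat, Complex.norm_ofNat] at h5
  have h6 := norm_nonneg (l ^ 2 - l)
  calc _ ≤ η ^ 2 * 4 := by gcongr; linarith
    _ ≤ η / 2 := by nlinarith

lemma Gd.iter {X : End ℂ V} (h : Gd X (1 / 8)) (k : ℕ) : Gd (MP_7f6eca_an.nw^[k] X) (1 / 8 / 2 ^ k) := by
  induction k with
  | zero => simpa using h
  | succ k ih =>
    rw [Function.iterate_succ_apply', pow_succ, ← div_div]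
    exact ih.nw (div_le_self (by norm_num) (one_le_pow₀ (by norm_num)))

lemma near_int {η : ℝ} (s : Multiset ℂ) (h : ∀ μ ∈ s, ‖μ ^ 2 - μ‖ ≤ η) :
    ∃ n : ℤ, ‖s.sum - n‖ ≤ s.card * (2 * η) := by
  induction s using Multiset.induction_on with
  | empty => exact ⟨0, by simp⟩
  | cons μ s ih =>
    obtain ⟨n, hn⟩ := ih fun l hl => h l (Multiset.mem_cons_of_mem hl)
    have h1 := h μ (Multiset.mem_cons_self _ _)
    rw [show μ ^ 2 - μ = μ * (μ - 1) by ring, norm_mul] at h1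
    have h2 := norm_sub_le μ (μ - 1)
    rw [sub_sub_cancel, norm_one] at h2
    obtain ⟨m, hm⟩ : ∃ m : ℤ, ‖μ - m‖ ≤ 2 * η := by
      rcases le_total (1 / 2) ‖μ‖ with h3 | h3
      · exact ⟨1, by push_cast; nlinarith [norm_nonneg (μ - 1)]⟩
      · exact ⟨0, by simp only [Int.cast_zero, sub_zero]; nlinarith [norm_nonneg μ]⟩
    refine ⟨m + n, ?_⟩
    rw [Multiset.sum_cons, Multiset.card_cons]
    push_cast
    rw [add_sub_add_comm]
    exact (norm_add_le _ _).trans (by linarith)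

lemma Gd.trace_near {X : End ℂ V} (h : Gd X (1 / 8)) {k : ℕ} (hk : 4 * finrank ℂ V ≤ 2 ^ k) :
    ∃ n : ℤ, ‖LinearMap.trace ℂ V (MP_7f6eca_an.nw^[k] X) - n‖ ≤ 1 / 16 := by
  set Y := MP_7f6eca_an.nw^[k] X
  obtain ⟨n, hn⟩ := near_int Y.charpoly.roots fun μ hμ => h.iter k μ
    ((End.hasEigenvalue_iff_isRoot_charpoly Y μ).2 (Polynomial.isRoot_of_mem_roots hμ))
  refine ⟨n, ?_⟩
  rw [End.trace_eq_sum_roots_charpoly_of_splits (IsAlgClosed.splits _)]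
  refine hn.trans ?_
  have h1 : (Y.charpoly.roots.card : ℝ) ≤ finrank ℂ V := by
    exact_mod_cast (Polynomial.card_roots' _).trans (LinearMap.charpoly_natDegree Y).le
  have h2 : (4 * finrank ℂ V : ℝ) ≤ 2 ^ k := by exact_mod_cast hk
  have h3 : (0 : ℝ) < 2 ^ k := by positivity
  rw [← mul_div_assoc, ← mul_div_assoc, div_le_iff₀ h3]
  linarith

lemma path_int {f : ℝ → ℂ} (hf : Continuous f)
    (h : ∀ t ∈ Set.Icc (0 : ℝ) 1, ∃ n : ℤ, ‖f t - n‖ ≤ 1 / 16) : ‖f 1 - f 0‖ ≤ 1 / 8 := by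
  have hre : ∀ t (n : ℤ), ‖f t - n‖ ≤ 1 / 16 → |(f t).re - n| ≤ 1 / 16 := fun t n h => by
    simpa using (Complex.abs_re_le_norm (f t - n)).trans h
  have hno : ∀ t ∈ Set.Icc (0 : ℝ) 1, ∀ m : ℤ, (f t).re ≠ m + 1 / 2 := fun t ht m hm => by
    obtain ⟨n, hn⟩ := h t ht
    have h1 := abs_le.1 (hre t n hn)
    rw [hm] at h1
    have h2 : (n : ℝ) < m + 1 := by linarith [h1.1]
    have h3 : (m : ℝ) < n := by linarith [h1.2]
    have h4 : n < m + 1 := by exact_mod_cast h2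
    have h5 : m < n := by exact_mod_cast h3
    omega
  obtain ⟨n0, h0⟩ := h 0 ⟨le_rfl, zero_le_one⟩
  obtain ⟨n1, h1⟩ := h 1 ⟨zero_le_one, le_rfl⟩
  have h2 := abs_le.1 (hre _ _ h0)
  have h3 := abs_le.1 (hre _ _ h1)
  have hc : ContinuousOn (fun t => (f t).re) (Set.Icc 0 1) :=
    (Complex.continuous_re.comp hf).continuousOn
  have h4 : n0 = n1 := by
    rcases lt_trichotomy n0 n1 with h4 | h4 | h4
    · have h5 : (n0 : ℝ) + 1 ≤ n1 := by exact_mod_cast h4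
      obtain ⟨t, ht, h6⟩ := intermediate_value_Icc zero_le_one hc
        (show (n0 : ℝ) + 1 / 2 ∈ _ from ⟨by linarith [h2.2], by linarith [h3.1]⟩)
      exact absurd h6 (hno t ht n0)
    · exact h4
    · have h5 : (n1 : ℝ) + 1 ≤ n0 := by exact_mod_cast h4
      obtain ⟨t, ht, h6⟩ := intermediate_value_Icc' zero_le_one hc
        (show (n1 : ℝ) + 1 / 2 ∈ _ from ⟨by linarith [h3.2], by linarith [h2.1]⟩)
      exact absurd h6 (hno t ht n1)
  subst h4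
  have h5 := norm_sub_le (f 1 - n0) (f 0 - n0)
  rw [sub_sub_sub_cancel_right] at h5
  linarith

lemma continuous_trace (X D : End ℂ V) (k : ℕ) :
    Continuous fun t : ℝ => LinearMap.trace ℂ V (nw^[k] (X + (t : ℂ) • D)) := by
  let b := Module.finBasis ℂ V
  have h1 : ∀ Y : End ℂ V, LinearMap.toMatrixAlgEquiv b (nw^[k] Y) =
      nw^[k] (LinearMap.toMatrixAlgEquiv b Y) := fun Y => by
    induction k with
    | zero => rfl
    | succ k ih =>
      rw [Function.iterate_succ_apply', Function.iterate_succ_apply', ← ih]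
      simp only [nw, map_sub, map_mul, map_pow, map_ofNat]
  have h2 : Continuous (nw : Matrix (Fin (finrank ℂ V)) (Fin (finrank ℂ V)) ℂ → _) := by
    unfold nw; fun_prop
  have h3 : ∀ Y : End ℂ V, LinearMap.trace ℂ V Y = (LinearMap.toMatrixAlgEquiv b Y).trace :=
    fun Y => LinearMap.trace_eq_matrix_trace ℂ b Y
  simp only [h3, h1, map_add, map_smul]
  exact ((h2.iterate k).comp (by fun_prop)).matrix_trace

lemma path_trace {X D : End ℂ V} (h : ∀ t ∈ Set.Icc (0 : ℝ) 1, Gd (X + (t : ℂ) • D) (1 / 8)) {k : ℕ}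
    (hk : 4 * finrank ℂ V ≤ 2 ^ k) :
    ‖LinearMap.trace ℂ V (nw^[k] (X + D)) - LinearMap.trace ℂ V (nw^[k] X)‖ ≤ 1 / 8 := by
  simpa using path_int (continuous_trace X D k) fun t ht => (h t ht).trace_near hk

omit [FiniteDimensional ℂ V] in
lemma nw_apply (X : End ℂ V) (v : V) : nw X v = (3 : ℂ) • X (X v) - (2 : ℂ) • X (X (X v)) := by
  simp [nw, pow_succ, Module.End.mul_apply, Module.End.ofNat_apply, ofNat_smul_eq_nsmul]

omit [FiniteDimensional ℂ V] in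
lemma nw_one (k : ℕ) : nw^[k] (1 : End ℂ V) = 1 :=
  Function.iterate_fixed (by simp only [nw, one_pow]; norm_num) k

lemma trace_tri {X : End ℂ (V × V)} {A : End ℂ V} (h1 : ∀ x, X (x, 0) = (A x, 0))
    (h2 : ∀ v, (X v).2 = A v.2) (k : ℕ) :
    LinearMap.trace ℂ _ (nw^[k] X) = 2 * LinearMap.trace ℂ _ (nw^[k] A) := by
  induction k generalizing X A with
  | succ k ih =>
    exact ih (fun x => by simp [nw_apply, h1]) fun v => by simp [nw_apply, h2]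
  | zero =>
    have h3 : X = LinearMap.inl ℂ V V ∘ₗ (LinearMap.fst ℂ V V ∘ₗ X) +
        LinearMap.inr ℂ V V ∘ₗ (LinearMap.snd ℂ V V ∘ₗ X) := by
      refine LinearMap.ext fun v => ?_
      simp
    have h4 : (LinearMap.fst ℂ V V ∘ₗ X) ∘ₗ LinearMap.inl ℂ V V = A :=
      LinearMap.ext fun v => by simp [h1]
    have h5 : (LinearMap.snd ℂ V V ∘ₗ X) ∘ₗ LinearMap.inr ℂ V V = A :=
      LinearMap.ext fun v => by simp [h2]
    simp only [Function.iterate_zero, id]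
    rw [h3, map_add, LinearMap.trace_comp_comm', h4, LinearMap.trace_comp_comm', h5, two_mul]

lemma trace_swap {W : Type*} [AddCommGroup W] [Module ℂ W] [FiniteDimensional ℂ W]
    (U : V →ₗ[ℂ] W) (R : W →ₗ[ℂ] V) (k : ℕ) :
    LinearMap.trace ℂ _ (nw^[k] (U ∘ₗ R : End ℂ W)) =
      LinearMap.trace ℂ _ (nw^[k] (R ∘ₗ U : End ℂ V)) := by
  have h : ∃ G : End ℂ V, nw^[k] (U ∘ₗ R : End ℂ W) = U ∘ₗ (G ∘ₗ R) ∧
      nw^[k] (R ∘ₗ U : End ℂ V) = (G ∘ₗ R) ∘ₗ U := by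
    induction k with
    | zero => exact ⟨1, rfl, rfl⟩
    | succ k ih =>
      obtain ⟨G, h1, h2⟩ := ih
      refine ⟨(3 : ℂ) • (G ∘ₗ R ∘ₗ U ∘ₗ G) - (2 : ℂ) • (G ∘ₗ R ∘ₗ U ∘ₗ G ∘ₗ R ∘ₗ U ∘ₗ G), ?_, ?_⟩
      · rw [Function.iterate_succ_apply', h1]
        exact LinearMap.ext fun v => by simp [nw_apply]
      · rw [Function.iterate_succ_apply', h2]
        exact LinearMap.ext fun v => by simp [nw_apply]
  obtain ⟨G, h1, h2⟩ := h
  rw [h1, h2, LinearMap.trace_comp_comm']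

end

lemma gd_of_norm {V : Type*} [NormedAddCommGroup V] [NormedSpace ℂ V] {X : End ℂ V} {η : ℝ}
    (h : ∀ v, ‖X (X v) - X v‖ ≤ η * ‖v‖) : Gd X η := by
  intro μ hμ
  obtain ⟨v, hv⟩ := hμ.exists_hasEigenvector
  have h1 := h v
  rw [hv.apply_eq_smul, map_smul, hv.apply_eq_smul, smul_smul, ← sub_smul, norm_smul, ← sq] at h1
  exact le_of_mul_le_mul_right h1 (norm_pos_iff.2 hv.2)

theorem no_odd {H V : Type*} [NormedAddCommGroup H] [NormedSpace ℂ H] [FiniteDimensional ℂ H]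
    [NormedAddCommGroup V] [NormedSpace ℂ V] [FiniteDimensional ℂ V] (hodd : Odd (finrank ℂ V))
    (U : V →ₗ[ℂ] H × H) (R : H × H →ₗ[ℂ] V) {C ε : ℝ} (hC : 1 ≤ C) (hε0 : 0 ≤ ε)
    (hε : ε * C ≤ 1 / 100) (h1 : ∀ v, ‖U (R v)‖ ≤ C * ‖v‖)
    (h2 : ∀ v, ‖U (R (U (R v))) - U (R v)‖ ≤ ε * ‖v‖)
    (h3 : ∀ v, ‖U (R (v.2, 0)) - ((U (R v)).2, 0)‖ ≤ ε * ‖v‖)
    (h4 : ∀ v, ‖R (U v) - v‖ ≤ 1 / 16 * ‖v‖) : False := by
  let X : End ℂ (H × H) := U ∘ₗ R
  let A : End ℂ H := LinearMap.fst ℂ H H ∘ₗ X ∘ₗ LinearMap.inl ℂ H H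
  let D : End ℂ (H × H) :=
    LinearMap.inr ℂ H H ∘ₗ (LinearMap.snd ℂ H H ∘ₗ X - A ∘ₗ LinearMap.snd ℂ H H)
  have hD : ∀ v, D v = (0, (X v).2 - (X (v.2, 0)).1) := fun v => rfl
  have hε1 : ε ≤ 1 / 100 := (le_mul_of_one_le_right hε0 hC).trans hε
  have hD1 : ∀ v, ‖D v‖ ≤ 2 * ε * ‖v‖ := fun v => by
    have a1 := (norm_snd_le _).trans (h3 (0, v.1))
    have a2 := (norm_fst_le _).trans (h3 (0, v.2))
    have a3 : X v = X (v.1, 0) + X (0, v.2) := by rw [← map_add]; simp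
    have a4 := mul_le_mul_of_nonneg_left (norm_fst_le v) hε0
    have a5 := mul_le_mul_of_nonneg_left (norm_snd_le v) hε0
    have a6 := norm_sub_le (X (v.1, 0)).2 ((X (v.2, 0)).1 - (X (0, v.2)).2)
    simp only [Prod.snd_sub, Prod.fst_sub, sub_zero, Prod.norm_mk, norm_zero, norm_nonneg,
      sup_of_le_right] at a1 a2
    rw [hD, Prod.norm_mk, norm_zero, max_eq_right (norm_nonneg _), a3, Prod.snd_add,
      show (X (v.1, 0)).2 + (X (0, v.2)).2 - (X (v.2, 0)).1 =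
        (X (v.1, 0)).2 - ((X (v.2, 0)).1 - (X (0, v.2)).2) by abel]
    change ‖(X (v.1, 0)).2‖ ≤ _ at a1
    change ‖(X (v.2, 0)).1 - (X (0, v.2)).2‖ ≤ _ at a2
    linarith
  have hp : ∀ t ∈ Set.Icc (0 : ℝ) 1, Gd (X - D + (t : ℂ) • D) (1 / 8) := fun t ht =>
    gd_of_norm fun v => by
      have e1 : ∀ w, (X - D + (t : ℂ) • D) w = X w + ((t - 1 : ℝ) : ℂ) • D w := fun w => by
        simp [sub_smul]; abel
      have e2 : ∀ w, ‖((t - 1 : ℝ) : ℂ) • D w‖ ≤ 2 * ε * ‖w‖ := fun w => by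
        rw [norm_smul, Complex.norm_real, Real.norm_eq_abs]
        exact (mul_le_of_le_one_left (norm_nonneg _)
          (abs_le.2 ⟨by linarith [ht.1], by linarith [ht.2]⟩)).trans (hD1 w)
      rw [e1, e1, map_add]
      set d := ((t - 1 : ℝ) : ℂ) • D v with hd
      have b1 : ‖X (X v) - X v‖ ≤ ε * ‖v‖ := h2 v
      have b2 : ‖d‖ ≤ 2 * ε * ‖v‖ := e2 v
      have b3 : ‖X d‖ ≤ C * (2 * ε * ‖v‖) :=
        (h1 d).trans (mul_le_mul_of_nonneg_left b2 (by linarith))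
      have b4 := (e2 (X v + d)).trans (mul_le_mul_of_nonneg_left
        ((norm_add_le _ _).trans (add_le_add (h1 v) b2)) (by positivity))
      have b5 := norm_nonneg v
      have b6 := mul_le_mul_of_nonneg_right hε b5
      have b7 := mul_le_mul_of_nonneg_right hε1 b5
      have b8 := mul_le_mul hε1 b7 (by positivity) (by norm_num)
      calc _ = ‖(X (X v) - X v) + X d + ((t - 1 : ℝ) : ℂ) • D (X v + d) - d‖ := by congr 1; abel
        _ ≤ ‖X (X v) - X v‖ + ‖X d‖ + ‖((t - 1 : ℝ) : ℂ) • D (X v + d)‖ + ‖d‖ :=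
          (norm_sub_le _ _).trans (add_le_add (norm_add₃_le) le_rfl)
        _ ≤ 1 / 8 * ‖v‖ := by nlinarith
  have hq : ∀ t ∈ Set.Icc (0 : ℝ) 1, Gd (1 + (t : ℂ) • (R ∘ₗ U - 1) : End ℂ V) (1 / 8) :=
    fun t ht => gd_of_norm fun v => by
      have e1 : ∀ w, (1 + (t : ℂ) • (R ∘ₗ U - 1) : End ℂ V) w = w + (t : ℂ) • (R (U w) - w) :=
        fun w => rfl
      have e2 : ∀ w, ‖(t : ℂ) • (R (U w) - w)‖ ≤ 1 / 16 * ‖w‖ := fun w => by
        rw [norm_smul, Complex.norm_real, Real.norm_eq_abs]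
        exact (mul_le_of_le_one_left (norm_nonneg _)
          (abs_le.2 ⟨by linarith [ht.1], ht.2⟩)).trans (h4 w)
      rw [e1, e1, add_sub_cancel_left]
      have := (norm_add_le v _).trans (add_le_add le_rfl (e2 v))
      have := norm_nonneg v
      exact (e2 _).trans (by linarith)
  have t1 : ∀ x, (X - D) (x, 0) = (A x, 0) := fun x => by
    rw [LinearMap.sub_apply, hD]
    ext <;> simp [A, Prod.mk_zero_zero]
  have t2 : ∀ v, ((X - D) v).2 = A v.2 := fun v => by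
    rw [LinearMap.sub_apply, hD]
    simp [A]
  have hA : Gd A (1 / 8) := fun μ hμ => by
    obtain ⟨v, hv⟩ := hμ.exists_hasEigenvector
    refine hp 0 ⟨le_rfl, zero_le_one⟩ μ (End.hasEigenvalue_of_hasEigenvector (x := (v, 0))
      ⟨End.mem_eigenspace_iff.2 ?_, fun h => hv.2 (congrArg Prod.fst h)⟩)
    simp [t1, hv.apply_eq_smul]
  obtain ⟨k, hk⟩ : ∃ k, 4 * (finrank ℂ (H × H) + finrank ℂ H + finrank ℂ V) ≤ 2 ^ k :=
    ⟨_, Nat.lt_two_pow_self.le⟩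
  have c1 := path_trace hp (k := k) (by omega)
  have c2 := path_trace hq (k := k) (by omega)
  obtain ⟨n, c3⟩ := hA.trace_near (k := k) (by omega)
  obtain ⟨r, hr⟩ := hodd
  rw [sub_add_cancel, trace_tri t1 t2, trace_swap] at c1
  rw [add_sub_cancel, nw_one, LinearMap.trace_one, hr] at c2
  set a := LinearMap.trace ℂ V (nw^[k] (R ∘ₗ U : End ℂ V))
  set b := LinearMap.trace ℂ H (nw^[k] A)
  have c4 : ‖((((2 * r + 1 : ℕ) : ℤ) - 2 * n : ℤ) : ℂ)‖ < 1 := by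
    have c5 : (((((2 * r + 1 : ℕ) : ℤ) - 2 * n : ℤ)) : ℂ) =
        (a - 2 * b) - (a - ((2 * r + 1 : ℕ) : ℂ)) + 2 * (b - n) := by push_cast; ring
    rw [c5]
    have c6 := (norm_add_le _ (2 * (b - n))).trans (add_le_add
      (norm_sub_le (a - 2 * b) (a - ((2 * r + 1 : ℕ) : ℂ))) le_rfl)
    rw [norm_mul, Complex.norm_ofNat] at c6
    linarith
  rw [Complex.norm_intCast] at c4
  have c5 : |((2 * r + 1 : ℕ) : ℤ) - 2 * n| < 1 := by exact_mod_cast c4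
  rw [Int.abs_lt_one_iff] at c5
  omega

end Pool.Agent.Lib.MP_7f6eca_an
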