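import Pool.Agent.Lib.MP_7f6eca_an.Cx
import Pool.Agent.Lib.MP_7f6eca_an.Trace

/-! The two complex structures are not isomorphic. -/

namespace Pool.Agent.Lib.MP_7f6eca_an

open Filter Complex

lemma cm_E {T S : Z2 →ₗ[ℝ] Z2} {C : ℝ} (hT : BQ T C) (hS : BQ S C) (h : ∀ z, T (S z) = z) {η : ℝ}
    (hη : 0 < η) : ∀ᶠ l in atTop, ∀ z, Q (cm (T ∘ₗ P (Set.Iio l) ∘ₗ S) z) ≤ η * Q z := by
  have hC := hT.1
  obtain ⟨δ, hδ, hδ'⟩ : ∃ δ > 0, η = 10 ^ 8 * C * δ :=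
    ⟨η / (10 ^ 8 * C), by positivity, by field_simp⟩
  obtain ⟨n, hn⟩ := (cm_small hS hδ).exists
  filter_upwards [cm_small hT hδ, eventually_tail (cm S) n hδ] with l h1 h2 z
  have e1 : cm (T ∘ₗ P (Set.Iio l) ∘ₗ S) z = -(T (P (Set.Ici l) (cm S (P (Set.Iio n) z)) +
      P (Set.Ici l) (cm S (P (Set.Ici n) z))) + cm T (P (Set.Ici l) (S z))) := by
    rw [← map_add, ← map_add, P_Ici n, add_sub_cancel]
    simp only [cm_apply, LinearMap.comp_apply, P_Ici, map_sub, h, al_P]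
    abel
  have h3 := h1 _ (P_Iio_Ici l (S z))
  have h4 := mul_le_mul_of_nonneg_left ((Q_P_le (Set.Ici l) (S z)).trans
    (mul_le_mul_of_nonneg_left (hS.2 z) (by norm_num))) hδ.le
  have h5 := (hn _ (P_Iio_Ici n z)).trans (mul_le_mul_of_nonneg_left (Q_P_le _ z) hδ.le)
  have h6 := Q_P_le (Set.Ici l) (cm S (P (Set.Ici n) z))
  have h7 := Q_add_le (P (Set.Ici l) (cm S (P (Set.Iio n) z)))
    (P (Set.Ici l) (cm S (P (Set.Ici n) z)))
  have h8 := (hT.2 _).trans (mul_le_mul_of_nonneg_left (h7.trans (show _ ≤ 82000 * (δ * Q z) by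
    have := h2 z
    linarith)) (by linarith))
  have h9 : 0 ≤ C * (δ * Q z) := by have := Q_nonneg z; positivity
  rw [e1, Q_neg, hδ']
  refine (Q_add_le _ _).trans ?_
  linarith

lemma prod_sq {E F : Type*} [NormedAddCommGroup E] [NormedAddCommGroup F] (v : E × F) :
    ‖v‖ ^ 2 ≤ ‖v.1‖ ^ 2 + ‖v.2‖ ^ 2 ∧ ‖v.1‖ ^ 2 ≤ ‖v‖ ^ 2 ∧ ‖v.2‖ ^ 2 ≤ ‖v‖ ^ 2 := by
  refine ⟨?_, pow_le_pow_left₀ (norm_nonneg _) (norm_fst_le v) 2,
    pow_le_pow_left₀ (norm_nonneg _) (norm_snd_le v) 2⟩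
  rw [Prod.norm_def]
  rcases le_total ‖v.1‖ ‖v.2‖ with h | h
  · rw [max_eq_right h]; exact le_add_of_nonneg_left (sq_nonneg _)
  · rw [max_eq_left h]; exact le_add_of_nonneg_right (sq_nonneg _)

theorem no_iso {T S : Z2 →ₗ[ℝ] Z2} (hT : Bdd T) (hS : Bdd S) (hTS : ∀ z, T (S z) = z)
    (hST : ∀ z, S (T z) = z) (hJ : ∀ z, T (J2 z) = J1 (T z)) : False := by
  obtain ⟨C, hT, hS⟩ : ∃ C, BQ T C ∧ BQ S C := by
    obtain ⟨C₁, h1⟩ := hT.bq
    obtain ⟨C₂, h2⟩ := hS.bq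
    exact ⟨max C₁ C₂, ⟨le_max_of_le_left h1.1, fun z => (h1.2 z).trans
      (mul_le_mul_of_nonneg_right (le_max_left _ _) (Q_nonneg z))⟩, le_max_of_le_left h1.1,
      fun z => (h2.2 z).trans (mul_le_mul_of_nonneg_right (le_max_right _ _) (Q_nonneg z))⟩
  have hJ' : ∀ z, S (J1 z) = J2 (S z) := fun z => by rw [← hST (J2 (S z)), hJ, hTS]
  have hC := hT.1
  obtain ⟨C', hC', hd⟩ := dens (Fin 4) (C := 81 * C ^ 2) (by nlinarith)
  obtain ⟨ε, hε, hε'⟩ : ∃ ε > 0, ε * (2 * C') * (2 * C') = 1 / 100 :=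
    ⟨1 / (400 * C' ^ 2), by positivity, by field_simp; norm_num⟩
  obtain ⟨l, hl⟩ := eventually_atTop.1 (cm_E hT hS hTS (by positivity : 0 < ε ^ 2))
  replace hl := hl (2 * l + 1) (by omega)
  set E := T ∘ₗ P (Set.Iio (2 * l + 1)) ∘ₗ S with hE
  have hEQ : ∀ z, Q (E z) ≤ 9 * C ^ 2 * Q z := fun z => by
    have := (hT.2 _).trans (mul_le_mul_of_nonneg_left ((Q_P_le (Set.Iio (2 * l + 1)) _).trans
      (mul_le_mul_of_nonneg_left (hS.2 z) (by norm_num))) (by linarith))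
    exact this.trans (le_of_eq (by ring))
  obtain ⟨η, hη, hη1, hη2⟩ : ∃ η > 0, η * C ≤ ε ^ 2 ∧
      9 * (2 * l + 1) * (C * (η * ((8 * (2 * l + 1) + 3) * 3))) ≤ 1 / 256 := by
    refine ⟨min (ε ^ 2 / C) (1 / (256 * (9 * (2 * l + 1) * C * ((8 * (2 * l + 1) + 3) * 3)))),
      by positivity, (le_div_iff₀ (by positivity)).1 (min_le_left _ _), ?_⟩
    have := (le_div_iff₀ (by positivity)).1 (min_le_right (ε ^ 2 / C)
      (1 / (256 * (9 * (2 * l + 1) * C * ((8 * (2 * l + 1) + 3) * 3)))))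
    linarith
  obtain ⟨n, hn⟩ := eventually_atTop.1 (eventually_tail T (2 * l + 1) hη)
  replace hn := hn (2 * n) (by omega)
  set Pm := P (Set.Iio (2 * n)) with hPm
  have hPP : ∀ z, Pm (Pm z) = Pm z := fun z => (win_P _ z).P_eq
  have hEE : ∀ z, E (Pm (E z)) - E z = -E (P (Set.Ici (2 * n)) (E z)) := fun z => by
    rw [P_Ici, map_sub, neg_sub]
    congr 1
    simp only [hE, LinearMap.comp_apply, hST, P_P, Set.inter_self]
  obtain ⟨w, hw⟩ := hd n ![Pm, Pm ∘ₗ E ∘ₗ Pm, ε⁻¹ • (Pm ∘ₗ (E ∘ₗ Pm ∘ₗ E - E) ∘ₗ Pm),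
      ε⁻¹ • (Pm ∘ₗ cm E ∘ₗ Pm)] (fun i z => by
      fin_cases i
      · exact win_P _ _
      · exact win_P _ _
      · change Win (2 * n) (ε⁻¹ • Pm _)
        rw [← map_smul]
        exact win_P _ _
      · change Win (2 * n) (ε⁻¹ • Pm _)
        rw [← map_smul]
        exact win_P _ _) (fun i z => by
      have h0 := Q_nonneg (Pm z)
      have h1 : 1 ≤ C ^ 2 := by nlinarith
      fin_cases i
      · exact le_mul_of_one_le_left h0 (by linarith)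
      · change Q (Pm (E (Pm z))) ≤ 81 * C ^ 2 * Q (Pm z)
        have h2 : Q (Pm (E (Pm z))) ≤ 9 * Q (E (Pm z)) := Q_P_le _ _
        have := hEQ (Pm z)
        linarith
      · change Q (ε⁻¹ • Pm (E (Pm (E (Pm z))) - E (Pm z))) ≤ 81 * C ^ 2 * Q (Pm z)
        rw [Q_smul, inv_pow, inv_mul_le_iff₀ (by positivity), hEE]
        have h2 : Q (Pm (-E (P (Set.Ici (2 * n)) (E (Pm z))))) ≤
          9 * Q (-E (P (Set.Ici (2 * n)) (E (Pm z)))) := Q_P_le _ _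
        have h3 := mul_le_mul_of_nonneg_left ((hn (S (Pm z))).trans ((mul_le_mul_of_nonneg_left
          (hS.2 (Pm z)) hη.le).trans ((mul_assoc _ _ _).symm.trans_le
          (mul_le_mul_of_nonneg_right hη1 h0)))) (by positivity : 0 ≤ 9 * C ^ 2)
        have h4 : Q (E (P (Set.Ici (2 * n)) (E (Pm z)))) ≤ 9 * C ^ 2 * (ε ^ 2 * Q (Pm z)) :=
          (hEQ _).trans h3
        rw [Q_neg] at h2
        linarith
      · change Q (ε⁻¹ • Pm (cm E (Pm z))) ≤ 81 * C ^ 2 * Q (Pm z)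
        rw [Q_smul, inv_pow, inv_mul_le_iff₀ (by positivity)]
        have h2 : Q (Pm (cm E (Pm z))) ≤ 9 * Q (cm E (Pm z)) := Q_P_le _ _
        have h3 := hl (Pm z)
        have h4 : ε ^ 2 * Q (Pm z) ≤ C ^ 2 * (ε ^ 2 * Q (Pm z)) :=
          le_mul_of_one_le_left (by positivity) h1
        have h5 : 0 ≤ C ^ 2 * (ε ^ 2 * Q (Pm z)) := by positivity
        linarith) 0 rfl
  set Y : ℕ → ℝ := fun a => Real.log (w a) with hY
  have hφP : ∀ z, phi n Y (Pm z) = phi n Y z := fun z => by rw [hPm, ← psi_phi n Y, phi_psi]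
  have hPψ : ∀ v, Pm (psi n Y v) = psi n Y v := fun v => (win_psi n Y v).P_eq
  have hw' : ∀ (v : Hc n × Hc n) (u : Z2), qY (2 * n) (fun j => w (j / 2)) u ≤
      C' * qY (2 * n) (fun j => w (j / 2)) (Pm (psi n Y v)) → ‖phi n Y u‖ ≤ 2 * C' * ‖v‖ := by
    intro v u h
    rw [qY_eq, qY_eq, ← hY, hPψ, phi_psi] at h
    refine abs_le_of_sq_le_sq' ?_ (by positivity) |>.2
    obtain ⟨-, h1, h2⟩ := prod_sq v
    have h3 := mul_le_mul_of_nonneg_left (add_le_add h1 h2) (by linarith : 0 ≤ C')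
    have h4 : C' * ‖v‖ ^ 2 ≤ C' ^ 2 * ‖v‖ ^ 2 :=
      mul_le_mul_of_nonneg_right (by nlinarith) (sq_nonneg _)
    have h5 : 0 ≤ C' * ‖v‖ ^ 2 := by positivity
    have h6 := (prod_sq (phi n Y u)).1
    rw [mul_pow, mul_pow]
    linarith
  have hw'' : ∀ (v u : Hc n × Hc n), ‖ε⁻¹ • u‖ ≤ 2 * C' * ‖v‖ → ‖u‖ ≤ ε * (2 * C') * ‖v‖ := by
    intro v u h
    rwa [norm_smul, Real.norm_of_nonneg (by positivity), inv_mul_le_iff₀ hε, ← mul_assoc] at h
  let U := toC (phi n Y ∘ₗ T ∘ₗ psi' l) fun v => by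
    simp only [LinearMap.comp_apply, psi_I', hJ, phi_J1]
  let R := toC (phi' l ∘ₗ S ∘ₗ psi n Y) fun v => by
    simp only [LinearMap.comp_apply, psi_I, hJ', phi_J2]
  have hUR : ∀ v, U (R v) = phi n Y (E (psi n Y v)) := fun v => by
    change phi n Y (T (psi' l (phi' l (S (psi n Y v))))) = _
    rw [psi_phi']; rfl
  refine no_odd (V := ℂ × Hc l × Hc l) ⟨l, by simp; ring⟩ U R (C := 2 * C') (ε := ε * (2 * C'))
    (by linarith) (by positivity) hε'.le (fun v => ?_) (fun v => hw'' _ _ ?_)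
    (fun v => hw'' _ _ ?_) fun v => ?_
  · have := hw' v _ (hw 1 (psi n Y v))
    change ‖phi n Y (Pm (E (Pm (psi n Y v))))‖ ≤ _ at this
    rwa [hφP, hPψ, ← hUR] at this
  · have := hw' v _ (hw 2 (psi n Y v))
    change ‖phi n Y (ε⁻¹ • Pm (E (Pm (E (Pm (psi n Y v)))) - E (Pm (psi n Y v))))‖ ≤ _ at this
    rw [map_smul, hφP, hPψ, map_sub] at this
    rwa [hUR, hUR, psi_phi]
  · have := hw' v _ (hw 3 (psi n Y v))
    change ‖phi n Y (ε⁻¹ • Pm (cm E (Pm (psi n Y v))))‖ ≤ _ at this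
    rw [map_smul, hφP, hPψ, cm_apply, map_sub, phi_al] at this
    rwa [hUR, hUR, psi_al]
  · have h1 : R (U v) - v = phi' l (-S (P (Set.Ici (2 * n)) (T (P (Set.Iio (2 * l + 1))
        (psi' l v))))) := by
      change phi' l (S (psi n Y (phi n Y (T (psi' l v))))) - v = _
      rw [(win_psi' l v).P_eq, P_Ici, map_sub, neg_sub, map_sub, hST, phi_psi', psi_phi]
    refine abs_le_of_sq_le_sq' ?_ (by positivity) |>.2
    have h2 := (prod_sq (R (U v) - v)).1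
    have h3 := (prod_sq (R (U v) - v).2).1
    obtain ⟨-, h4, h5⟩ := prod_sq v
    obtain ⟨-, h6, h7⟩ := prod_sq v.2
    have h8 := (win_psi' l v).le_eu
    rw [eu_eq, phi_psi'] at h8
    have h9 := eu_le (2 * l + 1) (-S (P (Set.Ici (2 * n)) (T (P (Set.Iio (2 * l + 1))
      (psi' l v)))))
    rw [eu_eq, ← h1, Q_neg] at h9
    have h10 := h9.trans (mul_le_mul_of_nonneg_left ((hS.2 _).trans (mul_le_mul_of_nonneg_left
      ((hn _).trans (mul_le_mul_of_nonneg_left (h8.trans (mul_le_mul_of_nonneg_left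
      (show _ ≤ 3 * ‖v‖ ^ 2 by linarith) (by positivity))) hη.le)) (by linarith))) (by positivity))
    have h11 := mul_le_mul_of_nonneg_right hη2 (sq_nonneg ‖v‖)
    push_cast at h10
    rw [mul_pow]
    linarith

end Pool.Agent.Lib.MP_7f6eca_an
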