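import Pool.Agent.Lib.MP_7f6eca_an.Tri

/-! Rotations with a slowly varying angle. -/

namespace Pool.Agent.Lib.MP_7f6eca_an

open Real

section

variable {G : Type*} [NormedAddCommGroup G] [NormedSpace ℝ G]

/-- A finite model: `c`, `s` are cosine and sine of a slowly varying angle, `M` is almost a
complex structure on the kernel of the projection `p`, `N` almost commutes with `M` far out. -/
structure Model (c s : ℝ → G →L[ℝ] G) (M p N : G →L[ℝ] G) (C ε : ℝ) : Prop where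
  cc : Continuous c
  cs : Continuous s
  c0 : c 0 = 1
  s0 : s 0 = 0
  hcos : ∀ a b, c a * c b + s a * s b = c (a - b)
  hsin : ∀ a b, s a * c b - c a * s b = s (a - b)
  nc : ∀ a, ‖c a‖ ≤ 1
  ns : ∀ a, ‖s a‖ ≤ 1
  cp : ∀ a, c a * p = cos a • p
  pc : ∀ a, p * c a = cos a • p
  sp : ∀ a, s a * p = sin a • p
  ps : ∀ a, p * s a = sin a • p
  pp : p * p = p
  Mp : M * p = 0
  pM : p * M = 0
  nM : ‖M‖ ≤ C
  np : ‖p‖ ≤ C
  Mc : ∀ a ∈ Set.Icc 0 π, ‖M * c a - c a * M‖ ≤ ε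
  Ms : ∀ a ∈ Set.Icc 0 π, ‖M * s a - s a * M‖ ≤ ε
  edge : ∀ a, ‖s a * (M * M + 1 - p)‖ ≤ ε
  cN : ∀ a, c a * N = N * c a
  sN : ∀ a, s a * N = N * s a
  MN : ‖s π * (M * N - N * M)‖ ≤ ε

variable {c s : ℝ → G →L[ℝ] G} {M p N : G →L[ℝ] G} {C ε : ℝ}

lemma Model.err (h : Model c s M p N C ε) (hC : 1 ≤ C) {a : ℝ} (ha : a ∈ Set.Icc 0 π) (b : ℝ) :
    ‖s b * (M * c a - c a * M)‖ + ‖s b * (M * s a - s a * M) * M‖ +
      ‖s b * (s a * (M * M + 1 - p))‖ ≤ 3 * (ε * C) := by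
  have hε : 0 ≤ ε := (norm_nonneg _).trans h.MN
  have key : ∀ x : G →L[ℝ] G, ‖x‖ ≤ ε → ‖s b * x‖ ≤ ε := fun x hx =>
    (norm_mul_le _ _).trans ((mul_le_of_le_one_left (norm_nonneg _) (h.ns b)).trans hx)
  have h1 := key _ (h.Mc a ha)
  have h2 := (norm_mul_le _ M).trans (mul_le_mul (key _ (h.Ms a ha)) h.nM (norm_nonneg _) hε)
  have h3 := key _ (h.edge a)
  have h4 := le_mul_of_one_le_right hε hC
  linarith

lemma Model.UV (h : Model c s M p N C ε) (hC : 1 ≤ C) {a : ℝ} (ha : a ∈ Set.Icc 0 π) :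
    ‖(c a + s a * M + (1 - cos a) • p) * (c a - s a * M + (1 - cos a) • p) - 1‖ ≤ 3 * (ε * C) := by
  have e1 : c a * c a = 1 - s a * s a := by rw [← h.c0, ← sub_self a, ← h.hcos]; abel
  have e2 : ∀ x, c a * (s a * x) = s a * (c a * x) := fun x => by
    have := h.hsin a a
    rw [sub_self, h.s0, sub_eq_zero] at this
    rw [← mul_assoc, ← this, mul_assoc]
  have e3 : p * (s a * M) = 0 := by rw [← mul_assoc, h.ps, smul_mul_assoc, h.pM, smul_zero]
  have e4 : sin a * sin a = 1 - cos a * cos a := by nlinarith [sin_sq_add_cos_sq a]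
  have e : (c a + s a * M + (1 - cos a) • p) * (c a - s a * M + (1 - cos a) • p) - 1 =
      s a * (M * c a - c a * M) - s a * (M * s a - s a * M) * M -
        s a * (s a * (M * M + 1 - p)) := by
    simp only [mul_add, add_mul, mul_sub, sub_mul, smul_mul_assoc, mul_smul_comm, mul_assoc, e1, e2,
      e3, h.cp, h.pc, h.sp, h.pp, h.Mp, mul_zero, mul_one, smul_smul, e4]
    module
  rw [e]
  exact (norm_sub_le _ _).trans ((add_le_add (norm_sub_le _ _) le_rfl).trans (h.err hC ha a))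

lemma Model.normV (h : Model c s M p N C ε) (hC : 1 ≤ C) (a : ℝ) :
    ‖c a - s a * M + (1 - cos a) • p‖ ≤ 4 * C := by
  have h1 := (norm_mul_le (s a) M).trans ((mul_le_of_le_one_left (norm_nonneg _) (h.ns a)).trans h.nM)
  have h2 := mul_le_mul (show 1 - cos a ≤ 2 by linarith [neg_one_le_cos a]) h.np (norm_nonneg _)
    zero_le_two
  have h3 := norm_sub_le (c a) (s a * M)
  refine (norm_add_le _ _).trans ?_
  rw [norm_smul, Real.norm_of_nonneg (by linarith [cos_le_one a])]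
  linarith [h.nc a]

lemma Model.norm2 (h : Model c s M p N C ε) (hC : 1 ≤ C) : ‖1 - (2 : ℝ) • p‖ ≤ 3 * C := by
  refine (norm_sub_le _ _).trans ?_
  rw [norm_smul, Real.norm_of_nonneg zero_le_two]
  linarith [h.np, norm_one_le' (G := G)]

lemma Model.commN (h : Model c s M p N C ε) :
    ‖(c π + s π * M) * N - N * (c π + s π * M)‖ ≤ ε := by
  refine le_of_eq_of_le (congrArg _ ?_) h.MN
  rw [add_mul, mul_add, h.cN, ← mul_assoc N, ← h.sN, mul_sub, mul_assoc, mul_assoc]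
  abel

variable [FiniteDimensional ℝ G]

lemma Model.det_pos (h : Model c s M p N C ε) (hC : 1 ≤ C) (hε : ε * C ≤ 1 / 6) {a : ℝ}
    (ha : a ∈ Set.Icc 0 π) : 0 < (c a + s a * M + (1 - cos a) • p).det := by
  have h1 := h.cc
  have h2 := h.cs
  have := det_path (F := fun t : ℝ => c (t * a) + s (t * a) * M + (1 - cos (t * a)) • p)
    (by fun_prop) (fun t ht => det_ne_of_mul ((h.UV hC ⟨mul_nonneg ht.1 ha.1,
      (mul_le_of_le_one_left ha.1 ht.2).trans ha.2⟩).trans_lt (by linarith)))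
    (by simp [h.c0, h.s0, det_one'])
  simpa using this

lemma Model.stepA (h : Model c s M p N C ε) (hC : 1 ≤ C) (hε : ε * C ≤ 1 / 6)
    (hp : (1 - (2 : ℝ) • p).det < 0) : (c π + s π * M).det < 0 ∧
      ∃ V, ‖(c π + s π * M) * V - 1‖ ≤ 1 / 2 ∧ ‖V‖ ≤ 12 * C ^ 2 := by
  have hπ : π ∈ Set.Icc 0 π := ⟨pi_pos.le, le_rfl⟩
  have e : c π + s π * M + (1 - cos π) • p = (c π + s π * M) * (1 - (2 : ℝ) • p) := by
    simp only [mul_sub, add_mul, mul_smul_comm, mul_assoc, h.cp, h.Mp, mul_zero, mul_one, cos_pi]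
    module
  have h1 := h.det_pos hC hε hπ
  have h2 := h.UV hC hπ
  rw [e] at h1 h2
  rw [det_mul'] at h1
  refine ⟨by nlinarith, _, by rw [mul_assoc] at h2; linarith, (norm_mul_le _ _).trans
    ((mul_le_mul (h.norm2 hC) (h.normV hC π) (norm_nonneg _) (by linarith)).trans_eq (by ring))⟩

lemma Model.stepC (h : Model c s M p N C ε) (hC : 1 ≤ C) (hε : ε * C ^ 2 ≤ 1 / 100) (hN : ‖N‖ ≤ 1)
    {i ρ : G →L[ℝ] G} (hi : i * i = -1) (ni : ‖i‖ ≤ 1) (ic : ∀ a, c a * i = i * c a)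
    (is : ∀ a, s a * i = i * s a) (ip : p * i = i * p) (iM : M * i = -(i * M)) (iN : i * N = N * i)
    (hρ : ρ * i = i * (1 - (2 : ℝ) • p) * ρ) (hd : ρ.det < 0) :
    ∃ L T : G →L[ℝ] G, L * L = -1 ∧ ‖L‖ ≤ 3 * C ∧ ‖L * N - N * L‖ ≤ 49 * (ε * C ^ 2) ∧
      T * i = L * T ∧ T.det < 0 := by
  have hε0 : 0 ≤ ε := (norm_nonneg _).trans h.MN
  have p1 : ε ≤ ε * C := le_mul_of_one_le_right hε0 hC
  have p2 : ε * C ≤ ε * C ^ 2 := mul_le_mul_of_nonneg_left (by nlinarith) hε0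
  have hπ : π / 2 ∈ Set.Icc 0 π := ⟨by positivity, by linarith [pi_pos]⟩
  have h1 := h.det_pos hC (by linarith) hπ
  obtain ⟨R', h2, h3, h4⟩ := exists_inv ((h.UV hC hπ).trans (by linarith))
  replace h4 := h4.trans (mul_le_mul_of_nonneg_left (h.normV hC _) zero_le_two)
  rw [cos_pi_div_two, sub_zero, one_smul] at h1 h2 h3
  set R := c (π / 2) + s (π / 2) * M + p with hR
  set i' := i * (1 - (2 : ℝ) • p) with hi'
  have ic' : ∀ a x, c a * (i * x) = i * (c a * x) := fun a x => by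
    rw [← mul_assoc, ic, mul_assoc]
  have is' : ∀ a x, s a * (i * x) = i * (s a * x) := fun a x => by
    rw [← mul_assoc, is, mul_assoc]
  have ip' : ∀ x, p * (i * x) = i * (p * x) := fun x => by rw [← mul_assoc, ip, mul_assoc]
  have iM' : ∀ x, M * (i * x) = -(i * (M * x)) := fun x => by
    rw [← mul_assoc, iM, neg_mul, mul_assoc]
  have ii' : ∀ x, i * (i * x) = -x := fun x => by rw [← mul_assoc, hi, neg_one_mul]
  have h5 : i' * i' = -1 := by
    simp only [hi', mul_sub, sub_mul, smul_mul_assoc, mul_smul_comm, mul_assoc, mul_one, ip', ip,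
      ii', hi, h.pp]
    module
  have e1 : c π * c (π / 2) = c (π / 2) - s π * s (π / 2) := by
    have := h.hcos π (π / 2)
    rw [sub_half] at this
    exact eq_sub_of_add_eq this
  have e2 : ∀ x, c π * (s (π / 2) * x) = s π * (c (π / 2) * x) - s (π / 2) * x := fun x => by
    have := h.hsin π (π / 2)
    rw [sub_half] at this
    rw [← mul_assoc, ← mul_assoc, ← sub_mul, ← sub_sub_cancel (s π * c (π / 2)) (c π * s (π / 2)),
      this]
  have e : R * i' - (c π + s π * M) * i * R = i * (s π * (M * c (π / 2) - c (π / 2) * M) +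
      s π * (M * s (π / 2) - s (π / 2) * M) * M + s π * (s (π / 2) * (M * M + 1 - p))) := by
    simp only [hR, hi', mul_add, add_mul, mul_sub, sub_mul, mul_smul_comm, neg_mul,
      mul_assoc, mul_one, ic', is', ip', iM', ic, ip, iM, mul_neg, e1, e2, h.cp, h.sp, h.pp,
      h.Mp, mul_zero, cos_pi, sin_pi, cos_pi_div_two, sin_pi_div_two]
    module
  have h6 : ‖R * i' * R' - (c π + s π * M) * i‖ ≤ 24 * (ε * C ^ 2) := by
    have e' : R * i' * R' - (c π + s π * M) * i = (R * i' - (c π + s π * M) * i * R) * R' := by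
      rw [sub_mul, mul_assoc _ R R', h2, mul_one]
    rw [e', e]
    refine (norm_mul_le _ _).trans ((mul_le_mul ((norm_mul_le _ _).trans
      ((mul_le_of_le_one_left (norm_nonneg _) ni).trans (norm_add₃_le.trans (h.err hC hπ π)))) h4
      (norm_nonneg _) (by positivity)).trans_eq (by ring))
  have h7 : ‖(c π + s π * M) * i‖ ≤ 2 * C := by
    have a1 := (norm_mul_le (s π) M).trans
      ((mul_le_of_le_one_left (norm_nonneg _) (h.ns π)).trans h.nM)
    have a2 := norm_add_le (c π) (s π * M)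
    exact (norm_mul_le _ _).trans ((mul_le_of_le_one_right (norm_nonneg _) ni).trans
      (by linarith [h.nc π]))
  have h8 : ‖(c π + s π * M) * i * N - N * ((c π + s π * M) * i)‖ ≤ ε := by
    rw [mul_assoc, iN, ← mul_assoc, ← mul_assoc, ← sub_mul]
    exact (norm_mul_le _ _).trans ((mul_le_of_le_one_right (norm_nonneg _) ni).trans h.commN)
  refine ⟨R * i' * R', R * ρ, ?_, ?_, ?_, ?_, ?_⟩
  · rw [mul_assoc, ← mul_assoc R', ← mul_assoc R', h3, one_mul, mul_assoc, ← mul_assoc i', h5,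
      neg_one_mul, mul_neg, h2]
  · have := norm_add_le (R * i' * R' - (c π + s π * M) * i) ((c π + s π * M) * i)
    rw [sub_add_cancel] at this
    linarith
  · set L := R * i' * R'
    set L' := (c π + s π * M) * i
    have e' : L * N - N * L = (L' * N - N * L') + ((L - L') * N - N * (L - L')) := by noncomm_ring
    have a1 := (norm_mul_le (L - L') N).trans ((mul_le_of_le_one_right (norm_nonneg _) hN).trans h6)
    have a2 := (norm_mul_le N (L - L')).trans ((mul_le_of_le_one_left (norm_nonneg _) hN).trans h6)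
    have a3 := norm_sub_le ((L - L') * N) (N * (L - L'))
    rw [e']
    refine (norm_add_le _ _).trans ?_
    linarith
  · rw [mul_assoc, hρ, mul_assoc (R * i'), ← mul_assoc R', h3, one_mul, mul_assoc R i']
  · rw [det_mul']
    exact mul_neg_of_pos_of_neg h1 hd

end

variable {H : Type*} [NormedAddCommGroup H] [NormedSpace ℝ H] [FiniteDimensional ℝ H]
  {c s : ℝ → H × H →L[ℝ] H × H} {M p : H × H →L[ℝ] H × H} {C ε : ℝ}

theorem Model.noA (h : Model c s M p (tri 0 1) C ε) (hC : 1 ≤ C) (hε : ε * C ^ 2 ≤ 1 / 100)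
    (hp : (1 - (2 : ℝ) • p).det < 0) : False := by
  have hε0 : 0 ≤ ε := (norm_nonneg _).trans h.MN
  have p2 : ε * C ≤ ε * C ^ 2 := mul_le_mul_of_nonneg_left (by nlinarith) hε0
  obtain ⟨h1, V, h2, h3⟩ := h.stepA hC (by linarith) hp
  have h4 := mul_le_mul_of_nonneg_left h3 hε0
  exact lt_asymm h1 (det_pos_of_comm h.commN h2 (by linarith))

theorem Model.noC (h : Model c s M p (tri 0 1) C ε) (hC : 1 ≤ C) (hε : ε * C ^ 7 ≤ 1 / 10 ^ 7)
    {σ : H →L[ℝ] H} (hσ : σ * σ = -1) (nσ : ‖σ‖ ≤ 1) {ρ : H × H →L[ℝ] H × H}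
    (ic : ∀ a, c a * tri σ 0 = tri σ 0 * c a) (is : ∀ a, s a * tri σ 0 = tri σ 0 * s a)
    (ip : p * tri σ 0 = tri σ 0 * p) (iM : M * tri σ 0 = -(tri σ 0 * M))
    (hρ : ρ * tri σ 0 = tri σ 0 * (1 - (2 : ℝ) • p) * ρ) (hd : ρ.det < 0) : False := by
  have hε0 : 0 ≤ ε := (norm_nonneg _).trans h.MN
  have p2 : ε * C ^ 2 ≤ ε * C ^ 7 :=
    mul_le_mul_of_nonneg_left (pow_le_pow_right₀ hC (by norm_num)) hε0
  obtain ⟨L, T, h1, h2, h3, h4, h5⟩ := h.stepC hC (by linarith)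
    ((norm_tri_le _ _).trans (by simpa using norm_one_le')) (i := tri σ 0)
    (by rw [tri_mul, hσ, mul_zero, zero_mul, add_zero, tri_neg_one])
    ((norm_tri_le _ _).trans (by simpa using nσ)) ic is ip iM (by simp [tri_mul]) hρ hd
  exact h5.not_ge (orient hσ (by linarith) h1 h2 h3 (by linarith) h4)

end Pool.Agent.Lib.MP_7f6eca_an
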