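import Pool.Agent.Lib.MP_7f6eca_an.Cx
import Pool.Agent.Lib.MP_7f6eca_an.Rot

/-! Finite sections of operators on the Kalton-Peck space. -/

namespace Pool.Agent.Lib.MP_7f6eca_an

open Real Finset

section

variable {G : Type*} [NormedAddCommGroup G] [NormedSpace ℝ G] {ι : Type*} [Fintype ι]
  [DecidableEq ι] (D : (ι → ℝ) →ₐ[ℝ] (G →L[ℝ] G))

omit [Fintype ι] in
lemma D_single_mul (a : ι) (g : ι → ℝ) : D (Pi.single a 1) * D g = g a • D (Pi.single a 1) := by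
  rw [← map_mul, ← map_smul]
  congr 1
  ext b
  by_cases h : b = a <;> simp [h]

omit [Fintype ι] in
lemma D_mul_single (a : ι) (g : ι → ℝ) : D g * D (Pi.single a 1) = g a • D (Pi.single a 1) := by
  rw [← map_mul, mul_comm, map_mul, D_single_mul]

omit [Fintype ι] in
lemma D_sandwich (a b : ι) (g g' : ι → ℝ) (X : G →L[ℝ] G) :
    D (Pi.single a 1) * (D g * X * D g') * D (Pi.single b 1) =
      (g a * g' b) • (D (Pi.single a 1) * X * D (Pi.single b 1)) := by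
  rw [← mul_assoc, ← mul_assoc, D_single_mul, mul_assoc, D_mul_single, smul_mul_assoc,
    smul_mul_assoc, mul_smul_comm, smul_smul]

lemma eq_zero_of_atoms {Z : G →L[ℝ] G}
    (h : ∀ a b, D (Pi.single a 1) * Z * D (Pi.single b 1) = 0) : Z = 0 := by
  have h1 : ∑ a, D (Pi.single a 1) = 1 := by
    rw [← map_sum, univ_sum_single]
    exact map_one D
  rw [← one_mul Z, ← mul_one (1 * Z), ← h1, sum_mul, sum_mul]
  exact sum_eq_zero fun a _ => by rw [mul_sum]; exact sum_eq_zero fun b _ => h a b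

lemma comm_tri (hD : ∀ (g : ι → ℝ) (δ : ℝ), 0 ≤ δ → (∀ a, |g a| ≤ δ) → ‖D g‖ ≤ δ) (β : ι → ℕ)
    {X : G →L[ℝ] G} (hX : ∀ a b, β a + 2 ≤ β b ∨ β b + 2 ≤ β a →
      D (Pi.single a 1) * X * D (Pi.single b 1) = 0) (f : ℕ → ℝ) {δ : ℝ}
    (hf : ∀ i, |f (i + 1) - f i| ≤ δ) :
    ‖X * D (fun a => f (β a)) - D (fun a => f (β a)) * X‖ ≤ 6 * (δ * ‖X‖) := by
  have hδ : 0 ≤ δ := (abs_nonneg _).trans (hf 0)
  let u : ℕ → ι → ℝ := fun r a => if β a % 3 = (r + 1) % 3 then 1 else 0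
  let d : ℕ → ι → ℝ := fun r a => if β a % 3 = r then f (β a + 1) - f (β a) else 0
  have e : X * D (fun a => f (β a)) - D (fun a => f (β a)) * X =
      ∑ r ∈ range 3, (D (d r) * X * D (u r) - D (u r) * X * D (d r)) := by
    refine sub_eq_zero.1 (eq_zero_of_atoms D fun a b => ?_)
    have h1 := D_sandwich D a b 1 (fun a => f (β a)) X
    have h2 := D_sandwich D a b (fun a => f (β a)) 1 X
    rw [map_one, one_mul] at h1
    rw [map_one, mul_one] at h2
    simp only [mul_sub, sub_mul, mul_sum, sum_mul, h1, h2, D_sandwich, ← sub_smul, ← sum_smul]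
    by_cases h : β a + 2 ≤ β b ∨ β b + 2 ≤ β a
    · rw [hX a b h, smul_zero]
    · refine smul_eq_zero_of_left ?_ _
      simp only [u, d, sum_range_succ, sum_range_zero, Pi.one_apply]
      rcases (by omega : β a = β b ∨ β a = β b + 1 ∨ β b = β a + 1) with h3 | h3 | h3 <;>
        rw [h3] <;> split_ifs <;> first | omega | ring
  have hu : ∀ r, ‖D (u r)‖ ≤ 1 := fun r => hD _ _ zero_le_one fun a => by
    simp only [u]; split_ifs <;> simp
  have hd : ∀ r, ‖D (d r)‖ ≤ δ := fun r => hD _ _ hδ fun a => by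
    simp only [d]; split_ifs <;> simp [hf, hδ]
  rw [e]
  refine (norm_sum_le_of_le (n := fun _ => 2 * (δ * ‖X‖)) _ fun r _ => ?_).trans_eq (by simp; ring)
  have h1 := (norm_mul_le (D (d r) * X) _).trans ((mul_le_of_le_one_right (norm_nonneg _) (hu r)).trans
    ((norm_mul_le _ _).trans (mul_le_mul_of_nonneg_right (hd r) (norm_nonneg _))))
  have h2 := (norm_mul_le (D (u r) * X) _).trans (mul_le_mul ((norm_mul_le _ _).trans
    (mul_le_of_le_one_left (norm_nonneg _) (hu r))) (hd r) (norm_nonneg _) (norm_nonneg _))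
  refine (norm_sub_le _ _).trans ?_
  linarith

end

/-- Diagonal multipliers of complex Euclidean space. -/
noncomputable def dH (n : ℕ) (g : Fin n → ℝ) : Hc n →L[ℝ] Hc n :=
  LinearMap.toContinuousLinearMap
    { toFun := fun v => WithLp.toLp 2 fun a => (g a : ℂ) * v a
      map_add' := fun x y => by ext a; simp [mul_add]
      map_smul' := fun c x => by ext a; simp [mul_left_comm] }

lemma dH_apply (n : ℕ) (g : Fin n → ℝ) (v : Hc n) (a : Fin n) : dH n g v a = g a * v a := rfl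

/-- Diagonal multipliers of the finite section. -/
noncomputable def Dm (n : ℕ) : (Fin n → ℝ) →ₐ[ℝ] (Hc n × Hc n →L[ℝ] Hc n × Hc n) :=
  AlgHom.ofLinearMap
    { toFun := fun g => tri (dH n g) 0
      map_add' := fun x y => ContinuousLinearMap.ext fun v => by
        ext a <;> simp [tri_apply, dH_apply, add_mul]
      map_smul' := fun c x => ContinuousLinearMap.ext fun v => by
        ext a <;> simp [tri_apply, dH_apply, mul_assoc] }
    (ContinuousLinearMap.ext fun v => by ext a <;> simp [tri_apply, dH_apply])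
    fun x y => ContinuousLinearMap.ext fun v => by ext a <;> simp [tri_apply, dH_apply, mul_assoc]

lemma Dm_eq (n : ℕ) (g : Fin n → ℝ) : Dm n g = tri (dH n g) 0 := rfl

lemma norm_Dm (n : ℕ) (g : Fin n → ℝ) (δ : ℝ) (hδ : 0 ≤ δ) (h : ∀ a, |g a| ≤ δ) : ‖Dm n g‖ ≤ δ := by
  refine (norm_tri_le _ _).trans ?_
  rw [norm_zero, add_zero]
  refine ContinuousLinearMap.opNorm_le_bound _ hδ fun v =>
    (abs_le_of_sq_le_sq' ?_ (by positivity)).2
  rw [mul_pow, EuclideanSpace.norm_sq_eq, EuclideanSpace.norm_sq_eq, mul_sum]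
  refine sum_le_sum fun a _ => ?_
  rw [dH_apply, norm_mul, Complex.norm_real, mul_pow]
  exact mul_le_mul_of_nonneg_right (pow_le_pow_left₀ (norm_nonneg _) (h a) 2) (sq_nonneg _)

/-- Multiplication by the imaginary unit. -/
noncomputable def sg (n : ℕ) : Hc n →L[ℝ] Hc n :=
  LinearMap.toContinuousLinearMap
    { toFun := fun v => Complex.I • v
      map_add' := fun _ _ => smul_add _ _ _
      map_smul' := fun _ _ => smul_comm _ _ _ }

lemma sg_apply (n : ℕ) (v : Hc n) : sg n v = Complex.I • v := rfl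

lemma sg_sq (n : ℕ) : sg n * sg n = -1 :=
  ContinuousLinearMap.ext fun v => by simp [sg_apply, smul_smul]

lemma norm_sg (n : ℕ) : ‖sg n‖ ≤ 1 :=
  ContinuousLinearMap.opNorm_le_bound _ zero_le_one fun v => by simp [sg_apply, norm_smul]

lemma tri_sg (n : ℕ) (v : Hc n × Hc n) : tri (sg n) 0 v = Complex.I • v := by
  ext a <;> simp [tri_apply, sg_apply]

lemma Dm_sg (n : ℕ) (g : Fin n → ℝ) : Dm n g * tri (sg n) 0 = tri (sg n) 0 * Dm n g :=
  ContinuousLinearMap.ext fun v => by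
    ext a <;> simp [Dm_eq, tri_apply, sg_apply, dH_apply, mul_left_comm]

lemma Dm_N (n : ℕ) (g : Fin n → ℝ) : Dm n g * tri 0 1 = tri 0 1 * Dm n g := by
  simp [Dm_eq, tri_mul]

/-- The finite section of an operator. -/
noncomputable def mdl (n : ℕ) (Y : ℕ → ℝ) : (Z2 →ₗ[ℝ] Z2) →ₗ[ℝ] (Hc n × Hc n →L[ℝ] Hc n × Hc n) where
  toFun X := LinearMap.toContinuousLinearMap (phi n Y ∘ₗ X ∘ₗ psi n Y)
  map_add' _ _ := ContinuousLinearMap.ext fun v => by simp
  map_smul' _ _ := ContinuousLinearMap.ext fun v => by simp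

lemma mdl_apply (n : ℕ) (Y : ℕ → ℝ) (X : Z2 →ₗ[ℝ] Z2) (v : Hc n × Hc n) :
    mdl n Y X v = phi n Y (X (psi n Y v)) := rfl

lemma mdl_id (n : ℕ) (Y : ℕ → ℝ) : mdl n Y LinearMap.id = 1 :=
  ContinuousLinearMap.ext fun v => phi_psi n Y v

lemma mdl_mul (n : ℕ) (Y : ℕ → ℝ) (X X' : Z2 →ₗ[ℝ] Z2) :
    mdl n Y X * mdl n Y X' = mdl n Y (X ∘ₗ P (Set.Iio (2 * n)) ∘ₗ X') :=
  ContinuousLinearMap.ext fun v => by simp [mdl_apply, psi_phi]

lemma mdl_J1_left (n : ℕ) (Y : ℕ → ℝ) (X : Z2 →ₗ[ℝ] Z2) :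
    mdl n Y (J1 ∘ₗ X) = tri (sg n) 0 * mdl n Y X :=
  ContinuousLinearMap.ext fun v => by simp [mdl_apply, phi_J1, tri_sg]

lemma mdl_J1_right (n : ℕ) (Y : ℕ → ℝ) (X : Z2 →ₗ[ℝ] Z2) :
    mdl n Y (X ∘ₗ J1) = mdl n Y X * tri (sg n) 0 :=
  ContinuousLinearMap.ext fun v => by simp [mdl_apply, psi_I, tri_sg]

lemma mdl_cm (n : ℕ) (Y : ℕ → ℝ) (X : Z2 →ₗ[ℝ] Z2) :
    mdl n Y (cm X) = mdl n Y X * tri 0 1 - tri 0 1 * mdl n Y X :=
  ContinuousLinearMap.ext fun v => by simp [mdl_apply, cm_apply, phi_al, ← psi_al, tri_apply]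

/-- The projection onto a set of pairs of coordinates. -/
noncomputable def PS (A : Set ℕ) : Z2 →ₗ[ℝ] Z2 := P {j | j / 2 ∈ A}

lemma phi_PS (n : ℕ) (Y : ℕ → ℝ) (A : Set ℕ) (z : Z2) :
    phi n Y (PS A z) = Dm n (fun a => A.indicator 1 (a : ℕ)) (phi n Y z) := by
  have h1 : ∀ a : ℕ, (2 * a + 1) / 2 = a := fun a => by omega
  ext a <;> by_cases h : (a : ℕ) ∈ A <;> apply Complex.ext <;>
    simp [phi, PS, rho_re, rho_im, Dm_eq, tri_apply, dH_apply, h, h1, Set.indicator]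

lemma PS_psi (n : ℕ) (Y : ℕ → ℝ) (A : Set ℕ) (v : Hc n × Hc n) :
    PS A (psi n Y v) = psi n Y (Dm n (fun a => A.indicator 1 (a : ℕ)) v) := by
  have h : Win (2 * n) (PS A (psi n Y v)) := fun j hj => by
    simp [PS, Set.indicator, win_psi n Y v j hj]
  rw [← h.P_eq, ← psi_phi n Y, phi_PS, phi_psi]

lemma mdl_PS (n : ℕ) (Y : ℕ → ℝ) (A B : Set ℕ) (X : Z2 →ₗ[ℝ] Z2) :
    mdl n Y (PS A ∘ₗ X ∘ₗ PS B) = Dm n (fun a => A.indicator 1 (a : ℕ)) * mdl n Y X *
      Dm n (fun a => B.indicator 1 (a : ℕ)) :=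
  ContinuousLinearMap.ext fun v => by simp [mdl_apply, phi_PS, PS_psi]

lemma mdl_PS_left (n : ℕ) (Y : ℕ → ℝ) (A : Set ℕ) (X : Z2 →ₗ[ℝ] Z2) :
    mdl n Y (PS A ∘ₗ X) = Dm n (fun a => A.indicator 1 (a : ℕ)) * mdl n Y X :=
  ContinuousLinearMap.ext fun v => by simp [mdl_apply, phi_PS]

lemma dens' (ι : Type) [Fintype ι] {C : ℝ} (hC : 1 ≤ C) : ∃ C' : ℝ, 1 ≤ C' ∧
    ∀ (n : ℕ) (X : ι → Z2 →ₗ[ℝ] Z2), (∀ i z, Q (X i z) ≤ C * Q z) →
      ∃ Y : ℕ → ℝ, ∀ i, ‖mdl n Y (X i)‖ ≤ C' := by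
  obtain ⟨C', hC', hd⟩ := dens (Option ι) (C := 9 * C) (by linarith)
  refine ⟨2 * C', by linarith, fun n X hX => ?_⟩
  obtain ⟨w, hw⟩ := hd n (fun i => i.elim (P (Set.Iio (2 * n)))
    fun i => P (Set.Iio (2 * n)) ∘ₗ X i ∘ₗ P (Set.Iio (2 * n)))
    (fun i z => by cases i <;> exact win_P _ _) (fun i z => by
      have h0 := Q_nonneg (P (Set.Iio (2 * n)) z)
      cases i with
      | none => exact le_mul_of_one_le_left h0 (by linarith)
      | some i =>
        exact (Q_P_le _ _).trans ((mul_le_mul_of_nonneg_left (hX i _) (by norm_num)).trans_eq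
          (mul_assoc _ _ _).symm)) none rfl
  refine ⟨fun a => log (w a), fun i => ContinuousLinearMap.opNorm_le_bound _ (by positivity)
    fun v => ?_⟩
  have h := hw (some i) (psi n (fun a => log (w a)) v)
  set Y : ℕ → ℝ := fun a => log (w a) with hY
  have hφP : ∀ z, phi n Y (P (Set.Iio (2 * n)) z) = phi n Y z := fun z => by
    rw [← psi_phi n Y, phi_psi]
  simp only [Option.elim, LinearMap.comp_apply, qY_eq, ← hY, hφP, (win_psi n Y v).P_eq,
    phi_psi] at h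
  rw [mdl_apply]
  set u := phi n Y (X i (psi n Y v))
  refine (abs_le_of_sq_le_sq' ?_ (by positivity)).2
  have h1 := pow_le_pow_left₀ (norm_nonneg _) (norm_fst_le v) 2
  have h2 := pow_le_pow_left₀ (norm_nonneg _) (norm_snd_le v) 2
  have h3 := mul_le_mul_of_nonneg_left (add_le_add h1 h2) (by linarith : 0 ≤ C')
  have h4 : C' * ‖v‖ ^ 2 ≤ C' ^ 2 * ‖v‖ ^ 2 :=
    mul_le_mul_of_nonneg_right (by nlinarith) (sq_nonneg _)
  have h5 : 0 ≤ C' * ‖v‖ ^ 2 := by positivity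
  have h6 : ‖u‖ ^ 2 ≤ ‖u.1‖ ^ 2 + ‖u.2‖ ^ 2 := by
    rw [Prod.norm_def]
    rcases le_total ‖u.1‖ ‖u.2‖ with h | h
    · rw [max_eq_right h]; exact le_add_of_nonneg_left (sq_nonneg _)
    · rw [max_eq_left h]; exact le_add_of_nonneg_right (sq_nonneg _)
  rw [mul_pow, mul_pow]
  linarith

end Pool.Agent.Lib.MP_7f6eca_an
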