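import Pool.Agent.Lib.MP_7f6eca_an.Basic

/-! Completeness of the Kalton-Peck space and the bounded inverse theorem for its quasi-norm. -/

namespace Pool.Agent.Lib.MP_7f6eca_an

open Real Filter Topology Finset

lemma fatou {u : ℕ → ℕ → ℝ} {v : ℕ → ℝ} {B : ℝ} (hu : ∀ m, L2 (u m)) (hB : ∀ m, sq2 (u m) ≤ B)
    (hv : ∀ j, Tendsto (fun m => u m j) atTop (𝓝 (v j))) : L2 v ∧ sq2 v ≤ B := by
  have h : ∀ s : Finset ℕ, ∑ j ∈ s, v j ^ 2 ≤ B := fun s =>
    le_of_tendsto' (tendsto_finsetSum s fun j _ => (hv j).pow 2) fun m =>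
      ((hu m).summable.sum_le_tsum s fun _ _ => sq_nonneg _).trans (hB m)
  have h1 : L2 v := summable_of_sum_le (fun _ => sq_nonneg _) h
  exact ⟨h1, h1.summable.tsum_le_of_sum_le h⟩

lemma sq2_log_smul {x : ℕ → ℝ} {B : ℝ} (hB : 0 ≤ B) (h : sq2 x ≤ B) :
    sq2 ((log (l2norm x) - log √B) • x) ≤ 4 * B := by
  have h1 := sq_log_sq_le (l2norm_nonneg x) (l2norm_le (x := x) (sqrt_nonneg B)
    (by rw [sq_sqrt hB]; exact h))
  rw [sq_sqrt hB, l2norm_sq'] at h1
  rw [sq2_smul, mul_comm]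
  exact h1

lemma closed_ball {w : ℕ → Z2} {y x : ℕ → ℝ} {B : ℝ} (hB : ∀ m, Q (w m) ≤ B)
    (hy : ∀ j, Tendsto (fun m => (w m).1.1 j) atTop (𝓝 (y j)))
    (hx : ∀ j, Tendsto (fun m => (w m).1.2 j) atTop (𝓝 (x j))) :
    ∃ z : Z2, z.1 = (y, x) ∧ Q z ≤ 29 * B := by
  have hB0 : 0 ≤ B := (Q_nonneg _).trans (hB 0)
  have h1 : ∀ m, sq2 (w m).1.2 ≤ B := fun m =>
    (le_add_of_nonneg_left (sq2_nonneg _)).trans (hB m)
  have h2 : ∀ m, sq2 ((w m).1.1 - KP (w m).1.2) ≤ B := fun m =>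
    (le_add_of_nonneg_right (sq2_nonneg _)).trans (hB m)
  obtain ⟨hxL, hxB⟩ := fatou (fun m => (w m).2.1) h1 hx
  have key : ∀ a b : ℕ → ℝ, L2 b → ∀ j, a j - b j * log (b j) + log √B * b j =
      (a - KP b + (-1 : ℝ) • (log (l2norm b) - log √B) • b) j := fun a b hb j => by
    simp only [Pi.add_apply, Pi.sub_apply, Pi.smul_apply, smul_eq_mul, hb.KP_eq, log_abs]
    ring
  obtain ⟨hL, hS⟩ := fatou (B := 10 * B)
    (u := fun m => (w m).1.1 - KP (w m).1.2 +
      (-1 : ℝ) • (log (l2norm (w m).1.2) - log √B) • (w m).1.2)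
    (v := y - KP x + (-1 : ℝ) • (log (l2norm x) - log √B) • x)
    (fun m => (w m).2.2.add (((w m).2.1.smul _).smul _))
    (fun m => by
      have h3 := sq2_add_le (w m).2.2
        (((w m).2.1.smul (log (l2norm (w m).1.2) - log √B)).smul (-1))
      have h4 := sq2_log_smul hB0 (h1 m)
      have h5 := h2 m
      rw [sq2_smul (-1)] at h3
      linarith)
    (fun j => by
      rw [← key y x hxL j]
      refine (((hy j).sub ((continuous_mul_log.tendsto _).comp (hx j))).add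
        ((hx j).const_mul _)).congr fun m => ?_
      exact key _ _ (w m).2.1 j)
  have e : y - KP x = (y - KP x + (-1 : ℝ) • (log (l2norm x) - log √B) • x) +
      (log (l2norm x) - log √B) • x := by
    rw [neg_one_smul, neg_add_cancel_right]
  have h6 := sq2_add_le hL (hxL.smul (log (l2norm x) - log √B))
  have h7 := hL.add (hxL.smul (log (l2norm x) - log √B))
  have h8 := sq2_log_smul hB0 hxB
  rw [← e] at h6 h7
  refine ⟨⟨(y, x), hxL, h7⟩, rfl, ?_⟩
  change sq2 (y - KP x) + sq2 x ≤ _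
  linarith

lemma Q_block {f : ℕ → Z2} {A r : ℝ} (hA : 0 ≤ A) (hr : 0 ≤ r) (hr' : r ≤ 1 / 2000)
    (h : ∀ k, Q (f k) ≤ A * r ^ k) (m n : ℕ) :
    Q (∑ j ∈ range m, f (n + j)) ≤ 2000 * (A * r ^ n) := by
  induction m generalizing n with
  | zero => simpa [Q_zero] using by positivity
  | succ m ih =>
    rw [sum_range_succ']
    have h1 := ih (n + 1)
    have h2 := Q_add_le (∑ j ∈ range m, f (n + (j + 1))) (f (n + 0))
    have h3 := h n
    have h4 : A * r ^ (n + 1) ≤ A * r ^ n * (1 / 2000) := by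
      rw [pow_succ, ← mul_assoc]
      exact mul_le_mul_of_nonneg_left hr' (by positivity)
    simp only [add_assoc, add_comm 1] at h1
    rw [add_zero] at h2 ⊢
    linarith

lemma exists_sum {f : ℕ → Z2} {A s : ℝ} (hA : 0 ≤ A) (hs : 0 ≤ s) (hs' : s ≤ 1 / 100)
    (h : ∀ k, Q (f k) ≤ A * (s ^ 2) ^ k) :
    ∃ z : Z2, ∀ n, Q (z - ∑ k ∈ range n, f k) ≤ 58000 * (A * (s ^ 2) ^ n) := by
  have hsum : ∀ t : ℕ → ℝ, (∀ k, t k ^ 2 ≤ 8 * Q (f k)) → Summable t := fun t ht => by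
    refine Summable.of_norm_bounded
      ((summable_geometric_of_lt_one hs (by linarith)).mul_left (8 * A + 1)) fun k => ?_
    refine abs_le_of_sq_le_sq' ?_ (by positivity) |> fun h => abs_le.2 h
    have h1 := (ht k).trans (mul_le_mul_of_nonneg_left (h k) (by norm_num))
    have h2 : 8 * A ≤ (8 * A + 1) ^ 2 := by nlinarith
    have h3 := mul_le_mul_of_nonneg_right h2 (by positivity : 0 ≤ (s ^ k) ^ 2)
    rw [← pow_mul, mul_comm 2 k, pow_mul] at h1
    rw [mul_pow]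
    linarith
  have h1 : ∀ j, Summable fun k => (f k).1.1 j := fun j => hsum _ fun k => fst_sq_le _ j
  have h2 : ∀ j, Summable fun k => (f k).1.2 j := fun j => hsum _ fun k =>
    (snd_sq_le _ j).trans (by have := Q_nonneg (f k); linarith)
  have h3 : ∀ n, ∃ z : Z2, z.1 = (fun j => ∑' k, (f (k + n)).1.1 j,
      fun j => ∑' k, (f (k + n)).1.2 j) ∧ Q z ≤ 29 * (2000 * (A * (s ^ 2) ^ n)) := fun n => by
    refine closed_ball (w := fun m => ∑ j ∈ range m, f (n + j))
      (fun m => Q_block hA (by positivity) (by nlinarith) h m n) (fun j => ?_) fun j => ?_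
    · refine ((summable_nat_add_iff n).2 (h1 j)).hasSum.tendsto_sum_nat.congr fun m => ?_
      simp [Prod.fst_sum, Finset.sum_apply, add_comm]
    · refine ((summable_nat_add_iff n).2 (h2 j)).hasSum.tendsto_sum_nat.congr fun m => ?_
      simp [Prod.snd_sum, Finset.sum_apply, add_comm]
  obtain ⟨z, hz, -⟩ := h3 0
  refine ⟨z, fun n => ?_⟩
  obtain ⟨w, hw, hQ⟩ := h3 n
  have e : z - ∑ k ∈ range n, f k = w := by
    ext j
    · have := (h1 j).sum_add_tsum_nat_add n
      simp only [AddSubgroupClass.coe_sub, Prod.fst_sub, Pi.sub_apply, hz, hw,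
        AddSubmonoidClass.coe_finsetSum, Prod.fst_sum, Finset.sum_apply, add_zero]
      linarith
    · have := (h2 j).sum_add_tsum_nat_add n
      simp only [AddSubgroupClass.coe_sub, Prod.snd_sub, Pi.sub_apply, hz, hw,
        AddSubmonoidClass.coe_finsetSum, Prod.snd_sum, Finset.sum_apply, add_zero]
      linarith
  rw [e]
  linarith

lemma eq_zero_of_Q {z : Z2} (h : Q z ≤ 0) : z = 0 := by
  ext j
  · have := fst_sq_le z j
    exact pow_eq_zero_iff two_ne_zero |>.1 (le_antisymm (by linarith) (sq_nonneg _))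
  · have := snd_sq_le z j
    exact pow_eq_zero_iff two_ne_zero |>.1 (le_antisymm (by linarith) (sq_nonneg _))

lemma approx_onto (T : Z2 ≃ₗ[ℝ] Z2) :
    ∃ M, 0 ≤ M ∧ ∀ y, Q y ≤ 1 → ∃ x, Q x ≤ M ∧ Q (y - T x) ≤ (1 / 100) ^ 2 := by
  by_contra hc
  push Not at hc
  choose! Y hY1 hY2 using hc
  set s : ℝ := 1 / 10 ^ 5 with hs
  have hs0 : 0 < s := by positivity
  let Mk : ℕ → Z2 → ℝ := fun k u => (s ^ k)⁻¹ ^ 2 * (1000 * (k + Q (T.symm u)))
  have hMk : ∀ k u, 0 ≤ Mk k u := fun k u => by have := Q_nonneg (T.symm u); positivity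
  let u : ℕ → Z2 := fun k => Nat.rec 0 (fun k v => v + s ^ k • Y (Mk k v)) k
  let f : ℕ → Z2 := fun k => s ^ k • Y (Mk k (u k))
  have hu : ∀ n, ∑ k ∈ range n, f k = u n := fun n => by
    induction n with
    | zero => rfl
    | succ n ih => rw [sum_range_succ, ih]
  obtain ⟨z, hz⟩ := exists_sum (f := f) (A := 1) (s := s) zero_le_one hs0.le (by norm_num [hs])
    fun k => by
      rw [Q_smul, one_mul, ← pow_mul, mul_comm k 2, pow_mul]
      exact mul_le_of_le_one_right (by positivity) (hY1 _ (hMk _ _))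
  obtain ⟨k, hk⟩ := exists_nat_ge (Q (T.symm z))
  have h1 := hY2 _ (hMk k (u k)) ((s ^ k)⁻¹ • (T.symm z - T.symm (u k))) (by
    rw [Q_smul]
    refine mul_le_mul_of_nonneg_left ((Q_sub_le _ _).trans ?_) (by positivity)
    linarith)
  have e : Y (Mk k (u k)) - T ((s ^ k)⁻¹ • (T.symm z - T.symm (u k))) =
      (-(s ^ k)⁻¹) • (z - ∑ j ∈ range (k + 1), f j) := by
    have e1 : (s ^ k)⁻¹ • f k = Y (Mk k (u k)) := by
      simp only [f]
      rw [smul_smul, inv_mul_cancel₀ (by positivity), one_smul]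
    rw [sum_range_succ, hu, map_smul, map_sub, T.apply_symm_apply, T.apply_symm_apply, ← e1]
    module
  rw [e, Q_smul, neg_sq] at h1
  have h2 := mul_le_mul_of_nonneg_left (hz (k + 1)) (by positivity : 0 ≤ (s ^ k)⁻¹ ^ 2)
  have h3 : (s ^ k)⁻¹ ^ 2 * (58000 * (1 * (s ^ 2) ^ (k + 1))) = 58000 * s ^ 2 := by
    rw [pow_succ (s ^ 2), ← pow_mul, mul_comm 2 k, pow_mul]
    field_simp
  rw [h3, hs] at h2
  norm_num at h1 h2
  linarith

lemma approx_onto' (T : Z2 ≃ₗ[ℝ] Z2) :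
    ∃ M, 0 ≤ M ∧ ∀ y, ∃ x, Q x ≤ M * Q y ∧ Q (y - T x) ≤ (1 / 100) ^ 2 * Q y := by
  obtain ⟨M, hM, h⟩ := approx_onto T
  refine ⟨M, hM, fun y => ?_⟩
  rcases (Q_nonneg y).eq_or_lt with h0 | h0
  · exact ⟨0, by rw [Q_zero, ← h0, mul_zero], by rw [map_zero, sub_zero, ← h0, mul_zero]⟩
  · have h1 : √(Q y) ^ 2 = Q y := sq_sqrt h0.le
    have h2 : 0 < √(Q y) := sqrt_pos.2 h0
    obtain ⟨x, hx1, hx2⟩ := h ((√(Q y))⁻¹ • y) (by
      rw [Q_smul, inv_pow, h1, inv_mul_cancel₀ h0.ne'])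
    refine ⟨√(Q y) • x, ?_, ?_⟩
    · rw [Q_smul, h1, mul_comm M]
      exact mul_le_mul_of_nonneg_left hx1 h0.le
    · have e : y - T (√(Q y) • x) = √(Q y) • ((√(Q y))⁻¹ • y - T x) := by
        rw [map_smul, smul_sub, smul_smul, mul_inv_cancel₀ h2.ne', one_smul]
      rw [e, Q_smul, h1, mul_comm _ (Q y)]
      exact mul_le_mul_of_nonneg_left hx2 h0.le

theorem bdd_symm (T : Z2 ≃ₗ[ℝ] Z2) (hT : Bdd T.toLinearMap) : Bdd T.symm.toLinearMap := by
  obtain ⟨C, hC, hT⟩ := hT.bq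
  obtain ⟨M, hM, h⟩ := approx_onto' T
  choose X hX1 hX2 using h
  refine BQ.bdd (C := 58000 * M + 1) ⟨by linarith, fun y => ?_⟩
  have h0 := Q_nonneg y
  let v : ℕ → Z2 := fun k => Nat.rec y (fun _ w => w - T (X w)) k
  have hv : ∀ k, Q (v k) ≤ Q y * ((1 / 100) ^ 2) ^ k := fun k => by
    induction k with
    | zero => exact (mul_one _).ge
    | succ k ih =>
      refine (hX2 (v k)).trans ?_
      rw [pow_succ _ k, ← mul_assoc, mul_comm]
      exact mul_le_mul_of_nonneg_right ih (by positivity)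
  have hs : ∀ n, T (∑ k ∈ range n, X (v k)) = y - v n := fun n => by
    induction n with
    | zero => exact (map_zero T).trans (sub_self y).symm
    | succ n ih =>
      rw [sum_range_succ, map_add, ih]
      change _ = y - (v n - T (X (v n)))
      abel
  obtain ⟨z, hz⟩ := exists_sum (f := fun k => X (v k)) (A := M * Q y) (s := 1 / 100)
    (by positivity) (by norm_num) le_rfl fun k =>
      (hX1 _).trans ((mul_le_mul_of_nonneg_left (hv k) hM).trans_eq (mul_assoc _ _ _).symm)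
  have h1 : T z - y = 0 := by
    refine eq_zero_of_Q (ge_of_tendsto' (x := atTop) (f := fun n : ℕ =>
      1000 * (C * (58000 * (M * Q y)) + Q y) * ((1 / 100 : ℝ) ^ 2) ^ n) ?_ fun n => ?_)
    · have := (tendsto_pow_atTop_nhds_zero_of_lt_one (r := (1 / 100 : ℝ) ^ 2) (by positivity)
        (by norm_num)).const_mul (1000 * (C * (58000 * (M * Q y)) + Q y))
      rwa [mul_zero] at this
    · have e : T z - y = T (z - ∑ k ∈ range n, X (v k)) - v n := by
        rw [map_sub, hs]; abel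
      have h2 := (hT (z - ∑ k ∈ range n, X (v k))).trans
        (mul_le_mul_of_nonneg_left (hz n) (by linarith))
      have h3 := hv n
      rw [e]
      refine (Q_sub_le _ _).trans ?_
      change Q (T _) ≤ _ at h2
      linarith
  have h2 := hz 0
  rw [sum_range_zero, sub_zero, pow_zero, mul_one] at h2
  have h3 : T.symm y = z := by rw [LinearEquiv.symm_apply_eq]; exact (sub_eq_zero.1 h1).symm
  change Q (T.symm y) ≤ _
  rw [h3]
  linarith

end Pool.Agent.Lib.MP_7f6eca_an
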