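import Pool.Agent.Lib.MP_7f6eca_an.Loc

/-! Hyperplanes carry no complex structure; complex hyperplanes carry no quaternionic structure. -/

namespace Pool.Agent.Lib.MP_7f6eca_an

open Real Finset

lemma Bdd.comp {T S : Z2 →ₗ[ℝ] Z2} (hT : Bdd T) (hS : Bdd S) : Bdd (T ∘ₗ S) := by
  obtain ⟨C, hC, h1⟩ := hT.bq
  obtain ⟨D, hD, h2⟩ := hS.bq
  exact BQ.bdd (C := C * D) ⟨one_le_mul_of_one_le_of_one_le hC hD, fun z => (h1 _).trans
    ((mul_le_mul_of_nonneg_left (h2 z) (by linarith)).trans_eq (mul_assoc _ _ _).symm)⟩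

lemma Bdd.add {T S : Z2 →ₗ[ℝ] Z2} (hT : Bdd T) (hS : Bdd S) : Bdd (T + S) := by
  obtain ⟨C, hC, h1⟩ := hT.bq
  obtain ⟨D, hD, h2⟩ := hS.bq
  refine BQ.bdd (C := 1000 * (C + D)) ⟨by linarith, fun z => (Q_add_le _ _).trans ?_⟩
  linarith [h1 z, h2 z]

lemma bdd_of_le {T : Z2 →ₗ[ℝ] Z2} (h : ∀ z, Q (T z) ≤ 9 * Q z) : Bdd T :=
  BQ.bdd (C := 9) ⟨by norm_num, h⟩

lemma bdd_rank (φ : Z2 →ₗ[ℝ] ℝ) {C : ℝ} (h : ∀ z, φ z ^ 2 ≤ C * Q z) (u : Z2) :
    Bdd (φ.smulRight u) := by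
  refine BQ.bdd (C := |C| * Q u + 1) ⟨le_add_of_nonneg_left (mul_nonneg (abs_nonneg _) (Q_nonneg u)),
    fun z => ?_⟩
  have h1 := mul_le_mul_of_nonneg_right ((h z).trans (mul_le_mul_of_nonneg_right (le_abs_self C)
    (Q_nonneg z))) (Q_nonneg u)
  rw [LinearMap.smulRight_apply, Q_smul]
  linarith [Q_nonneg z]

/-- The first coordinate functionals. -/
def cy (j : ℕ) : Z2 →ₗ[ℝ] ℝ := LinearMap.proj j ∘ₗ LinearMap.fst ℝ _ _ ∘ₗ Z2.subtype

/-- The second coordinate functionals. -/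
def cx (j : ℕ) : Z2 →ₗ[ℝ] ℝ := LinearMap.proj j ∘ₗ LinearMap.snd ℝ _ _ ∘ₗ Z2.subtype

@[simp] lemma cy_apply (j : ℕ) (z : Z2) : cy j z = z.1.1 j := rfl

@[simp] lemma cx_apply (j : ℕ) (z : Z2) : cx j z = z.1.2 j := rfl

lemma bdd_cy (j : ℕ) (u : Z2) : Bdd ((cy j).smulRight u) := bdd_rank _ (fst_sq_le · j) u

lemma bdd_cx (j : ℕ) (u : Z2) : Bdd ((cx j).smulRight u) :=
  bdd_rank _ (C := 1) (fun z => by simpa using snd_sq_le z j) u

/-- The rank one coordinate projections. -/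
def pj (j : ℕ) : Z2 →ₗ[ℝ] Z2 := (cx j).smulRight (e2 j)

lemma pj_fst (j : ℕ) (z : Z2) (i : ℕ) : (pj j z).1.1 i = 0 := by simp [pj, e2]

lemma pj_snd (j : ℕ) (z : Z2) (i : ℕ) : (pj j z).1.2 i = if i = j then z.1.2 j else 0 := by
  simp [pj, e2, Pi.single_apply]

lemma det_refl {n j : ℕ} (h : j < 2 * n) (Y : ℕ → ℝ) :
    (1 - (2 : ℝ) • mdl n Y (pj j)).det < 0 := by
  have e : ((1 - (2 : ℝ) • mdl n Y (pj j) : Hc n × Hc n →L[ℝ] Hc n × Hc n) :
      Hc n × Hc n →ₗ[ℝ] Hc n × Hc n) =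
      LinearMap.transvection ((-2 : ℝ) • (cx j ∘ₗ psi n Y)) (phi n Y (e2 j)) :=
    LinearMap.ext fun v => by
      simp [LinearMap.transvection.apply, mdl_apply, pj, smul_smul, sub_eq_add_neg]
  rw [ContinuousLinearMap.det, e, LinearMap.transvection.det]
  simp [psi_phi, h, e2]

theorem no_cs_std {T : Z2 →ₗ[ℝ] Z2} (hT : Bdd T) (hTT : ∀ z, T (T z) = pj 0 z - z)
    (hTp : ∀ z, T (pj 0 z) = 0) (hpT : ∀ z, pj 0 (T z) = 0) : False := by
  obtain ⟨C, hC, h⟩ := loc (p := pj 0) hT (bdd_cx 0 _) hTT hTp hpT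
    (fun z => by ext i <;> simp [pj_fst, pj_snd])
    (fun z => by
      ext i
      · simp [PS, Set.indicator, pj_fst]
      · by_cases hi : i = 0 <;> simp [PS, Set.indicator, pj_snd, hi])
    (fun z => by ext i <;> simp [PS, pj_fst, pj_snd])
  obtain ⟨n, hn, Y, ψ, hm⟩ := h (1 / (100 * C ^ 2)) (by positivity)
  exact hm.noA hC (le_of_eq (by field_simp)) (det_refl (by omega) Y)

theorem no_cs_ker (f : Z2 →ₗ[ℝ] ℝ) (hf : f ≠ 0) {C : ℝ} (hC : ∀ z, |f z| ≤ C * qnorm z)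
    (J : LinearMap.ker f →ₗ[ℝ] LinearMap.ker f) (hJ : IsCS (fun z : LinearMap.ker f => qnorm z.1) J) : False := by
  obtain ⟨u, hu, hu'⟩ : ∃ u : Z2, f u ≠ 0 ∧ u.1.2 0 ≠ 0 := by
    obtain ⟨v, hv⟩ := DFunLike.ne_iff.1 hf
    by_cases h1 : v.1.2 0 = 0
    · by_cases h2 : f (e2 0) = 0
      · exact ⟨v + e2 0, by simpa [h2] using hv, by simp [h1, e2]⟩
      · exact ⟨e2 0, h2, by simp [e2]⟩
    · exact ⟨v, hv, h1⟩
  let A₀ : Z2 →ₗ[ℝ] Z2 := LinearMap.id + (cx 0).smulRight (-e2 0)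
  let A₁ : Z2 →ₗ[ℝ] Z2 := LinearMap.id + f.smulRight (-(f u)⁻¹ • u)
  let B : Z2 →ₗ[ℝ] Z2 := LinearMap.id + (cx 0).smulRight (-(u.1.2 0)⁻¹ • u)
  have hid : Bdd LinearMap.id := ⟨1, fun z => by simp⟩
  have hA : Bdd (A₁ ∘ₗ A₀) := (hid.add (bdd_rank f (C := 2 * C ^ 2) (fun z => by
    have h1 := pow_le_pow_left₀ (abs_nonneg _) (hC z) 2
    have h2 := mul_le_mul_of_nonneg_left (Q_le_qnorm z).2 (sq_nonneg C)
    rw [sq_abs, mul_pow] at h1
    linarith) _)).comp (hid.add (bdd_cx 0 _))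
  have hB : Bdd B := hid.add (bdd_cx 0 _)
  let A : Z2 →ₗ[ℝ] LinearMap.ker f := (A₁ ∘ₗ A₀).codRestrict _ fun z => by
    simp only [A₁, LinearMap.mem_ker, LinearMap.comp_apply, LinearMap.add_apply, LinearMap.id_apply,
      LinearMap.smulRight_apply, map_add, map_smul, smul_eq_mul]
    field_simp
    ring
  have a0 : ∀ z, A₀ z = z - pj 0 z := fun z => by simp [A₀, pj, sub_eq_add_neg]
  have b0 : ∀ z, pj 0 (B z) = 0 := fun z => by
    have : (B z).1.2 0 = 0 := by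
      simp only [B, LinearMap.add_apply, LinearMap.id_apply, LinearMap.smulRight_apply, cx_apply,
        Submodule.coe_add, Submodule.coe_smul, Prod.snd_add, Prod.smul_snd, Pi.add_apply,
        Pi.smul_apply, smul_eq_mul]
      field_simp
      ring
    simp [pj, this]
  have b1 : B u = 0 := by simp [B, smul_smul, hu']
  have a1 : A₁ u = 0 := by simp [A₁, smul_smul, hu]
  have hAB : ∀ x : LinearMap.ker f, A (B x.1) = x := fun x => Subtype.ext (by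
    change A₁ (A₀ (B x.1)) = x.1
    rw [a0, b0, sub_zero]
    change A₁ (x.1 + x.1.1.2 0 • -(u.1.2 0)⁻¹ • u) = _
    rw [map_add, map_smul, map_smul, a1, smul_zero, smul_zero, add_zero]
    change x.1 + f x.1 • -(f u)⁻¹ • u = _
    rw [LinearMap.mem_ker.1 x.2, zero_smul, add_zero])
  have hBA : ∀ z, B (A z).1 = z - pj 0 z := fun z => by
    change B (A₀ z + f (A₀ z) • -(f u)⁻¹ • u) = _
    rw [map_add, map_smul, map_smul, b1, smul_zero, smul_zero, add_zero, a0]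
    simp [B, pj_snd]
  refine no_cs_std (T := B ∘ₗ (LinearMap.ker f).subtype ∘ₗ J ∘ₗ A) (hB.comp ?_) (fun z => ?_)
    (fun z => ?_) fun z => b0 _
  · obtain ⟨D, hD⟩ := hJ.1
    obtain ⟨E, hE⟩ := hA
    exact ⟨|D| * E, fun z => (hD (A z)).trans ((mul_le_mul (le_abs_self D) (hE z) (qnorm_nonneg _)
      (abs_nonneg D)).trans_eq (mul_assoc _ _ _).symm)⟩
  · change B (J (A (B (J (A z)).1))).1 = _
    rw [hAB, hJ.2, Submodule.coe_neg, map_neg, hBA, neg_sub]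
  · have : A (pj 0 z) = 0 := Subtype.ext (by
      change A₁ (A₀ (pj 0 z)) = 0
      rw [a0, show pj 0 (pj 0 z) = pj 0 z by ext i <;> simp [pj_fst, pj_snd], sub_self, map_zero])
    simp [this]

lemma refl_rel {G : Type*} [NormedAddCommGroup G] [NormedSpace ℝ G] {i q₀ q₁ : G →L[ℝ] G}
    (h1 : q₁ * q₁ = q₁) (h2 : q₀ * q₁ = 0) (h3 : q₁ * i = i * q₀) :
    (1 - (2 : ℝ) • q₁) * i = i * (1 - (2 : ℝ) • (q₀ + q₁)) * (1 - (2 : ℝ) • q₁) := by
  simp only [mul_assoc, mul_sub, sub_mul, smul_add, add_mul, mul_add, smul_mul_assoc, mul_smul_comm,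
    mul_one, one_mul, h1, h2, h3, mul_zero]
  module

lemma pj_J1 (z : Z2) : pj 1 (J1 z) = J1 (pj 0 z) ∧ pj 0 (J1 z) = J1 (pj 1 z) := by
  have h0 := (J1_even z 0).2
  have h1 := (J1_odd z 0).2
  constructor <;> ext i <;> rcases Nat.even_or_odd' i with ⟨a, rfl | rfl⟩ <;>
    simp_all [J1_even, J1_odd, pj_fst, pj_snd]
  split_ifs <;> simp

theorem no_quat_std {K : Z2 →ₗ[ℝ] Z2} (hK : Bdd K) (hKK : ∀ z, K (K z) = (pj 0 + pj 1) z - z)
    (hKp : ∀ z, K ((pj 0 + pj 1) z) = 0) (hpK : ∀ z, (pj 0 + pj 1) (K z) = 0)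
    (hJ : ∀ z, K (J1 z) = -J1 (K z)) : False := by
  have pJ : ∀ z, (pj 0 + pj 1) (J1 z) = J1 ((pj 0 + pj 1) z) := fun z => by
    simp [pj_J1, add_comm]
  obtain ⟨C, hC, h⟩ := loc (T := J1 ∘ₗ K) (p := pj 0 + pj 1) (J1_cs.1.comp hK)
    ((bdd_cx 0 _).add (bdd_cx 1 _))
    (fun z => by simp only [LinearMap.comp_apply, hJ, map_neg, J1_cs.2, neg_neg, hKK])
    (fun z => by rw [LinearMap.comp_apply, hKp, map_zero])
    (fun z => by rw [LinearMap.comp_apply, pJ, hpK, map_zero])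
    (fun z => by ext i <;> simp [pj_fst, pj_snd])
    (fun z => by
      ext i
      · simp [PS, Set.indicator, pj_fst]
      · rcases i with _ | _ | i <;> simp [PS, Set.indicator, pj_snd])
    (fun z => by ext i <;> simp [PS, pj_fst, pj_snd, Set.indicator])
  obtain ⟨n, hn, Y, ψ, hm⟩ := h (1 / (10 ^ 7 * C ^ 7)) (by positivity)
  have h2 : 1 < 2 * n := by omega
  refine hm.noC hC (le_of_eq (by field_simp)) (sg_sq n) (norm_sg n) (fun _ => Dm_sg n _)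
    (fun _ => Dm_sg n _) ?_ ?_ ?_ (det_refl h2 Y)
  · rw [← mdl_J1_left, ← mdl_J1_right]
    congr 1
    exact LinearMap.ext pJ
  · rw [← mdl_J1_left, ← mdl_J1_right, ← map_neg]
    congr 1
    exact LinearMap.ext fun z => by simp [hJ]
  · rw [map_add]
    refine refl_rel (q₀ := mdl n Y (pj 0)) (q₁ := mdl n Y (pj 1)) ?_ ?_ ?_
    · rw [mdl_mul]
      congr 1
      exact LinearMap.ext fun z => by ext i <;> simp [pj_fst, pj_snd, h2]
    · rw [mdl_mul, ← map_zero (mdl n Y)]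
      congr 1
      exact LinearMap.ext fun z => by ext i <;> simp [pj_fst, pj_snd, hn]
    · rw [← mdl_J1_left, ← mdl_J1_right]
      congr 1
      exact LinearMap.ext fun z => (pj_J1 z).1

/-- The right shift of sequences. -/
def up (x : ℕ → ℝ) : ℕ → ℝ
  | 0 => 0
  | j + 1 => x j

lemma L2_up {x : ℕ → ℝ} : L2 (up x) ↔ L2 x :=
  (summable_nat_add_iff (f := fun n => up x n ^ 2) 1).symm

lemma sq2_up {x : ℕ → ℝ} (hx : L2 x) : sq2 (up x) = sq2 x := by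
  rw [sq2, (L2_up.2 hx).summable.tsum_eq_zero_add]
  simp [up, sq2]

lemma up_sub_KP (y : ℕ → ℝ) {x : ℕ → ℝ} (hx : L2 x) : up y - KP (up x) = up (y - KP x) := by
  have h1 : l2norm (up x) = l2norm x := congrArg Real.sqrt (sq2_up hx)
  ext (_ | j) <;> simp [KP, up, h1]

lemma up_dn (x : ℕ → ℝ) : up (fun j => x (j + 1)) = (Set.Ici 1).indicator x := by
  ext (_ | j) <;> simp [up]

/-- The right shift. -/
def sh : Z2 →ₗ[ℝ] Z2 where
  toFun z := ⟨(up z.1.1, up z.1.2), L2_up.2 z.2.1, by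
    dsimp only
    rw [up_sub_KP _ z.2.1]
    exact L2_up.2 z.2.2⟩
  map_add' z w := by ext (_ | j) <;> simp [up]
  map_smul' c z := by ext (_ | j) <;> simp [up]

lemma Q_sh (z : Z2) : Q (sh z) = Q z := by
  change sq2 (up z.1.1 - KP (up z.1.2)) + sq2 (up z.1.2) = _
  rw [up_sub_KP _ z.2.1, sq2_up z.2.1, sq2_up z.2.2, Q]

/-- The left shift. -/
def dn : Z2 →ₗ[ℝ] Z2 where
  toFun z := ⟨(fun j => z.1.1 (j + 1), fun j => z.1.2 (j + 1)), by
    have h : L2 fun j => z.1.2 (j + 1) := L2_up.1 (up_dn _ ▸ z.2.1.ind _)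
    refine ⟨h, L2_up.1 ?_⟩
    dsimp only
    rw [← up_sub_KP _ h, up_dn, up_dn]
    exact (P (Set.Ici 1) z).2.2⟩
  map_add' z w := rfl
  map_smul' c z := rfl

lemma Q_dn (z : Z2) : Q (dn z) ≤ 9 * Q z := by
  have h : sh (dn z) = P (Set.Ici 1) z := Subtype.ext (Prod.ext (up_dn _) (up_dn _))
  rw [← Q_sh, h]
  exact Q_P_le _ _

/-- An isomorphism of the space onto a subspace of codimension two. -/
noncomputable def emb : Z2 →ₗ[ℝ] Z2 :=
  sh ∘ₗ P (Set.Ici 1) + (cy 0).smulRight (e1 0) + (cx 0).smulRight (e1 1)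

/-- The left inverse of `emb`. -/
noncomputable def ret : Z2 →ₗ[ℝ] Z2 :=
  P (Set.Ici 1) ∘ₗ dn + (cy 0).smulRight (e1 0) + (cy 1).smulRight (e2 0)

lemma bdd_emb : Bdd emb :=
  ((bdd_of_le (T := sh ∘ₗ P (Set.Ici 1)) fun z =>
    (Q_sh (P (Set.Ici 1) z)).trans_le (Q_P_le _ z)).add (bdd_cy 0 _)).add (bdd_cx 0 _)

lemma bdd_ret : Bdd ret :=
  (((bdd_of_le (Q_P_le _)).comp (bdd_of_le Q_dn)).add (bdd_cy 0 _)).add (bdd_cy 1 _)

lemma ret_emb (z : Z2) : ret (emb z) = z := by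
  ext (_ | j) <;> simp [ret, emb, sh, dn, up, e1, e2]

lemma emb_ret (z : Z2) : emb (ret z) = z - (pj 0 + pj 1) z := by
  ext (_ | _ | j) <;> simp [ret, emb, sh, dn, up, e1, e2, pj_fst, pj_snd]

lemma p_emb (z : Z2) : (pj 0 + pj 1) (emb z) = 0 := by
  have := emb_ret (emb z)
  rwa [ret_emb, eq_comm, sub_eq_self] at this

lemma ret_p (z : Z2) : ret ((pj 0 + pj 1) z) = 0 := by
  have := ret_emb (ret z)
  rwa [emb_ret, map_sub, sub_eq_self] at this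

/-- The complex structure of a complex hyperplane, carried to the whole space. -/
noncomputable def J3 : Z2 →ₗ[ℝ] Z2 := ret ∘ₗ J1 ∘ₗ emb

lemma p_J1 (z : Z2) : (pj 0 + pj 1) (J1 z) = J1 ((pj 0 + pj 1) z) := by simp [pj_J1, add_comm]

lemma emb_J3 (z : Z2) : emb (J3 z) = J1 (emb z) := by
  change emb (ret (J1 (emb z))) = _
  rw [emb_ret, p_J1, p_emb, map_zero, sub_zero]

lemma J3_ret (z : Z2) : J3 (ret z) = ret (J1 z) := by
  change ret (J1 (emb (ret z))) = _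
  rw [emb_ret, map_sub, ← p_J1, map_sub, ret_p, sub_zero]

lemma J3_cs : IsComplexStructure J3 :=
  ⟨bdd_ret.comp (J1_cs.1.comp bdd_emb), fun z => by
    change ret (J1 (emb (J3 z))) = _
    rw [emb_J3, J1_cs.2, map_neg, ret_emb]⟩

theorem no_quat {K : Z2 →ₗ[ℝ] Z2} (hK : IsComplexStructure K) (hJ : ∀ z, K (J3 z) = -J3 (K z)) :
    False :=
  no_quat_std (K := emb ∘ₗ K ∘ₗ ret) (bdd_emb.comp (hK.1.comp bdd_ret))
    (fun z => by simp only [LinearMap.comp_apply, ret_emb, hK.2, map_neg, emb_ret, neg_sub])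
    (fun z => by simp only [LinearMap.comp_apply, ret_p, map_zero]) (fun z => p_emb _)
    fun z => by simp only [LinearMap.comp_apply, ← J3_ret, hJ, map_neg, emb_J3]

/-- A quaternionic extension of the standard structure. -/
def K1 : Z2 →ₗ[ℝ] Z2 :=
  sp (Function.Involutive.toPerm (fun n => if n % 4 < 2 then n + 2 else n - 2) fun n => by
    dsimp only; split_ifs <;> omega) (fun n => if n % 4 = 0 ∨ n % 4 = 3 then -1 else 1)
    fun n => by split_ifs <;> simp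

lemma K1_cs : IsComplexStructure K1 := by
  refine ⟨BQ.bdd (C := 1) ⟨le_rfl, fun z => by rw [K1, Q_sp, one_mul]⟩, fun z => ?_⟩
  ext n <;> obtain ⟨a, rfl | rfl | rfl | rfl⟩ :
      ∃ a, n = 4 * a ∨ n = 4 * a + 1 ∨ n = 4 * a + 2 ∨ n = 4 * a + 3 := ⟨n / 4, by omega⟩ <;>
    simp [K1, sp, Function.Involutive.toPerm, Nat.add_mod]

lemma K1_J1 (z : Z2) : K1 (J1 z) = -J1 (K1 z) := by
  have h : ∀ a : ℕ, 4 * a % 2 = 0 := fun a => by omega
  ext n <;> obtain ⟨a, rfl | rfl | rfl | rfl⟩ :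
      ∃ a, n = 4 * a ∨ n = 4 * a + 1 ∨ n = 4 * a + 2 ∨ n = 4 * a + 3 := ⟨n / 4, by omega⟩ <;>
    simp [K1, J1, sp, Function.Involutive.toPerm, Nat.add_mod, h]

end Pool.Agent.Lib.MP_7f6eca_an
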