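import Pool.Agent.Lib.MP_7f6eca_an.Det

/-! Operators that almost commute with the standard nilpotent preserve orientations. -/

namespace Pool.Agent.Lib.MP_7f6eca_an

open Module
open ContinuousLinearMap hiding norm_fst_le norm_snd_le

variable {H : Type*} [NormedAddCommGroup H] [NormedSpace ℝ H]

/-- The triangular operator with equal diagonal entries. -/
noncomputable def tri (A B : H →L[ℝ] H) : H × H →L[ℝ] H × H :=
  (A ∘L fst ℝ H H + B ∘L snd ℝ H H).prod (A ∘L snd ℝ H H)

lemma tri_apply (A B : H →L[ℝ] H) (v : H × H) : tri A B v = (A v.1 + B v.2, A v.2) := rfl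

lemma tri_mul (A B A' B' : H →L[ℝ] H) : tri A B * tri A' B' = tri (A * A') (A * B' + B * A') := by
  refine ContinuousLinearMap.ext fun v => ?_
  simp [tri_apply, add_assoc]

lemma tri_sub (A B A' B' : H →L[ℝ] H) : tri A B - tri A' B' = tri (A - A') (B - B') := by
  refine ContinuousLinearMap.ext fun v => ?_
  simp only [tri_apply, sub_apply, Prod.mk_sub_mk]
  congr 1
  abel

lemma tri_neg_one : tri (-1 : H →L[ℝ] H) 0 = -1 := by
  refine ContinuousLinearMap.ext fun v => ?_
  ext <;> simp [tri_apply]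

lemma norm_tri_le (A B : H →L[ℝ] H) : ‖tri A B‖ ≤ ‖A‖ + ‖B‖ := by
  refine opNorm_le_bound _ (by positivity) fun v => ?_
  have h1 := (A.le_opNorm v.1).trans (mul_le_mul_of_nonneg_left (norm_fst_le v) (norm_nonneg _))
  have h2 := (B.le_opNorm v.2).trans (mul_le_mul_of_nonneg_left (norm_snd_le v) (norm_nonneg _))
  have h3 := (A.le_opNorm v.2).trans (mul_le_mul_of_nonneg_left (norm_snd_le v) (norm_nonneg _))
  have h4 := norm_add_le (A v.1) (B v.2)
  have h5 := mul_nonneg (norm_nonneg B) (norm_nonneg v)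
  rw [tri_apply, Prod.norm_mk, add_mul]
  exact max_le (by linarith) (by linarith)

lemma le_norm_tri (A B : H →L[ℝ] H) : ‖A‖ ≤ ‖tri A B‖ ∧ ‖B‖ ≤ ‖tri A B‖ := by
  refine ⟨opNorm_le_bound _ (norm_nonneg _) fun x => ?_, opNorm_le_bound _ (norm_nonneg _) fun x => ?_⟩
  · simpa [tri_apply] using (norm_fst_le _).trans ((tri A B).le_opNorm (x, 0))
  · simpa [tri_apply] using (norm_fst_le _).trans ((tri A B).le_opNorm (0, x))

lemma det_tri [FiniteDimensional ℝ H] (A B : H →L[ℝ] H) : (tri A B).det = A.det * A.det := by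
  let b := Module.finBasis ℝ H
  have h : LinearMap.toMatrix (b.prod b) (b.prod b) (tri A B : H × H →ₗ[ℝ] H × H) =
      Matrix.fromBlocks (LinearMap.toMatrix b b (A : H →ₗ[ℝ] H))
        (LinearMap.toMatrix b b (B : H →ₗ[ℝ] H)) 0 (LinearMap.toMatrix b b (A : H →ₗ[ℝ] H)) := by
    ext (i | i) (j | j) <;> simp [LinearMap.toMatrix_apply, tri_apply]
  rw [ContinuousLinearMap.det, ← LinearMap.det_toMatrix (b.prod b), h, Matrix.det_fromBlocks_zero₂₁,
    LinearMap.det_toMatrix]

lemma exists_tri {X : H × H →L[ℝ] H × H} {ε : ℝ} (h : ‖X * tri 0 1 - tri 0 1 * X‖ ≤ ε) :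
    ∃ A B : H →L[ℝ] H, ‖X - tri A B‖ ≤ 2 * ε ∧ ‖A‖ ≤ ‖X‖ ∧ ‖B‖ ≤ ‖X‖ := by
  have hε : 0 ≤ ε := (norm_nonneg _).trans h
  have h3 : ∀ x : H, ‖(X (x, 0)).2‖ ≤ ε * ‖x‖ ∧ ‖(X (x, 0)).1 - (X (0, x)).2‖ ≤ ε * ‖x‖ := fun x => by
    have h1 := ((X * tri 0 1 - tri 0 1 * X).le_opNorm (0, x)).trans
      (mul_le_mul_of_nonneg_right h (norm_nonneg _))
    constructor
    · simpa [tri_apply] using (norm_snd_le _).trans h1
    · simpa [tri_apply] using (norm_fst_le _).trans h1
  refine ⟨fst ℝ H H ∘L X ∘L inl ℝ H H, fst ℝ H H ∘L X ∘L inr ℝ H H,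
    opNorm_le_bound _ (by positivity) fun v => ?_, opNorm_le_bound _ (norm_nonneg _) fun x => ?_,
    opNorm_le_bound _ (norm_nonneg _) fun x => ?_⟩
  · have a3 : X v = X (v.1, 0) + X (0, v.2) := by rw [← map_add]; simp
    have a4 := (h3 v.1).1.trans (mul_le_mul_of_nonneg_left (norm_fst_le v) hε)
    have a5 := (h3 v.2).2.trans (mul_le_mul_of_nonneg_left (norm_snd_le v) hε)
    have a6 := norm_sub_le (X (v.1, 0)).2 ((X (v.2, 0)).1 - (X (0, v.2)).2)
    have a7 : (X - tri (fst ℝ H H ∘L X ∘L inl ℝ H H) (fst ℝ H H ∘L X ∘L inr ℝ H H)) v =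
        (0, (X (v.1, 0)).2 - ((X (v.2, 0)).1 - (X (0, v.2)).2)) := by
      rw [sub_apply, a3, tri_apply]
      ext
      · simp
      · simp only [Prod.snd_sub, Prod.snd_add, comp_apply, coe_fst', inl_apply]
        abel
    rw [a7, Prod.norm_mk, norm_zero, max_eq_right (norm_nonneg _)]
    linarith
  · simpa using (norm_fst_le _).trans (X.le_opNorm (x, 0))
  · simpa using (norm_fst_le _).trans (X.le_opNorm (0, x))

variable [FiniteDimensional ℝ H]

/-- An invertible operator that almost commutes with the nilpotent has positive determinant. -/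
lemma det_pos_of_comm {X V : H × H →L[ℝ] H × H} {ε : ℝ} (h : ‖X * tri 0 1 - tri 0 1 * X‖ ≤ ε)
    (hV : ‖X * V - 1‖ ≤ 1 / 2) (hε : 2 * ε * ‖V‖ < 1 / 2) : 0 < X.det := by
  obtain ⟨A, B, h1, -⟩ := exists_tri h
  have h2 : ∀ t ∈ Set.Icc (0 : ℝ) 1, (tri A B + t • (X - tri A B)).det ≠ 0 := fun t ht =>
    det_ne_of_mul (V := V) (by
      have h3 : (tri A B + t • (X - tri A B)) * V - 1 =
          X * V - 1 - (1 - t) • ((X - tri A B) * V) := by
        simp only [add_mul, smul_mul_assoc, sub_mul]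
        module
      have h4 := (norm_mul_le (X - tri A B) V).trans (mul_le_mul_of_nonneg_right h1 (norm_nonneg _))
      have h5 := mul_le_of_le_one_left (norm_nonneg ((X - tri A B) * V))
        (show 1 - t ≤ 1 by linarith [ht.1])
      rw [h3]
      refine (norm_sub_le _ _).trans_lt ?_
      rw [norm_smul, Real.norm_of_nonneg (by linarith [ht.2])]
      linarith)
  have h3 := h2 0 ⟨le_rfl, zero_le_one⟩
  have := det_path (F := fun t : ℝ => tri A B + t • (X - tri A B)) (by fun_prop) h2 (by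
    simp only [zero_smul, add_zero, det_tri] at h3 ⊢
    exact (mul_self_nonneg _).lt_of_ne' h3)
  simpa using this

/-- A complex structure that almost commutes with the nilpotent has the standard orientation. -/
lemma orient {σ : H →L[ℝ] H} (hσ : σ * σ = -1) {L T : H × H →L[ℝ] H × H} {C ε : ℝ} (hC : 1 ≤ C)
    (hL : L * L = -1) (hLC : ‖L‖ ≤ C) (h : ‖L * tri 0 1 - tri 0 1 * L‖ ≤ ε)
    (hε : ε * C ^ 5 ≤ 1 / 100) (hT : T * tri σ 0 = L * T) : 0 ≤ T.det := by
  have hε0 : 0 ≤ ε := (norm_nonneg _).trans h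
  have p1 : ∀ {a b : ℕ}, a ≤ b → ε * C ^ a ≤ ε * C ^ b := fun hab =>
    mul_le_mul_of_nonneg_left (pow_le_pow_right₀ hC hab) hε0
  have p0 := p1 (show 0 ≤ 1 by norm_num)
  have p2 := p1 (show 1 ≤ 2 by norm_num)
  have p3 := p1 (show 2 ≤ 3 by norm_num)
  have p4 := p1 (show 3 ≤ 4 by norm_num)
  have p5 := p1 (show 4 ≤ 5 by norm_num)
  rw [pow_zero] at p0
  rw [pow_one] at p0 p2
  obtain ⟨A, B, h1, hA, hB⟩ := exists_tri h
  replace hA := hA.trans hLC
  replace hB := hB.trans hLC
  have h2 : ‖tri (A * A + 1) (A * B + B * A)‖ ≤ 6 * (ε * C) := by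
    have e : tri (A * A + 1) (A * B + B * A) = -((L - tri A B) * tri A B + L * (L - tri A B)) := by
      rw [← sub_neg_eq_add, ← sub_zero (A * B + B * A), ← tri_sub, ← tri_mul, tri_neg_one, sub_mul,
        mul_sub, hL]
      abel
    have a1 := (norm_mul_le (L - tri A B) (tri A B)).trans (mul_le_mul h1
      ((norm_tri_le A B).trans (add_le_add hA hB)) (norm_nonneg _) (by positivity))
    have a2 := (norm_mul_le L (L - tri A B)).trans (mul_le_mul hLC h1 (norm_nonneg _) (by positivity))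
    rw [e, norm_neg]
    refine (norm_add_le _ _).trans ?_
    linarith
  have : CompleteSpace H := FiniteDimensional.complete ℝ H
  obtain ⟨a, ha, h3⟩ := newton ((le_norm_tri _ _).1.trans h2) (by linarith)
  have h4 : ‖a - A‖ ≤ 12 * (ε * C ^ 2) :=
    (h3.trans (mul_le_mul_of_nonneg_left hA (by positivity))).trans_eq (by ring)
  have h5 : ‖a‖ ≤ 2 * C := by
    have := norm_add_le (a - A) A
    rw [sub_add_cancel] at this
    linarith
  have h6 : ‖a * B + B * a‖ ≤ 30 * (ε * C ^ 3) := by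
    have e : a * B + B * a = A * B + B * A + ((a - A) * B + B * (a - A)) := by noncomm_ring
    have a1 := (norm_mul_le (a - A) B).trans (mul_le_mul h4 hB (norm_nonneg _) (by positivity))
    have a2 := (norm_mul_le B (a - A)).trans (mul_le_mul hB h4 (norm_nonneg _) (by positivity))
    have a3 := (le_norm_tri _ _).2.trans h2
    have a4 := norm_add_le ((a - A) * B) (B * (a - A))
    rw [e]
    refine (norm_add_le _ _).trans ?_
    nlinarith
  have ha' : ∀ x, a * (a * x) = -x := fun x => by rw [← mul_assoc, ha, neg_one_mul]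
  set b := (1 / 2 : ℝ) • (B + a * B * a) with hb
  have h7 : ‖b - B‖ ≤ 30 * (ε * C ^ 4) := by
    have e : b - B = (1 / 2 : ℝ) • (a * (a * B + B * a)) := by
      rw [hb, mul_add, ha', mul_assoc]
      module
    have a1 := (norm_mul_le a (a * B + B * a)).trans (mul_le_mul h5 h6 (norm_nonneg _) (by positivity))
    rw [e, norm_smul, Real.norm_of_nonneg (by norm_num)]
    nlinarith
  have h8 : a * b + b * a = 0 := by
    simp only [hb, mul_smul_comm, smul_mul_assoc, mul_add, add_mul, mul_assoc, ha', ha, mul_neg,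
      mul_one]
    module
  have h9 : tri a b * tri a b = -1 := by rw [tri_mul, ha, h8, tri_neg_one]
  have h10 : ‖L - tri a b‖ ≤ 44 * (ε * C ^ 4) := by
    have a1 := norm_sub_le (L - tri A B) (tri a b - tri A B)
    have a2 := norm_tri_le (a - A) (b - B)
    rw [sub_sub_sub_cancel_right, tri_sub] at a1
    linarith
  set S := (1 / 2 : ℝ) • (1 - L * tri a b) with hS
  have h11 : 0 < S.det := det_pos_of_near (by
    have e : S - 1 = (1 / 2 : ℝ) • (L * (L - tri a b)) := by
      rw [hS, mul_sub, hL]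
      module
    have a1 := (norm_mul_le L (L - tri a b)).trans (mul_le_mul hLC h10 (norm_nonneg _) (by positivity))
    rw [e, norm_smul, Real.norm_of_nonneg (by norm_num)]
    nlinarith)
  have h12 : S * tri a b = L * S := by
    have e1 : L * -1 = -L := mul_neg_one L
    have e2 : -1 * tri a b = -tri a b := neg_one_mul (tri a b)
    rw [hS, smul_mul_assoc, mul_smul_comm, sub_mul, mul_sub, mul_assoc, h9, ← mul_assoc L L, hL,
      one_mul, mul_one, e1, e2, sub_neg_eq_add, sub_neg_eq_add, add_comm]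
  obtain ⟨t, ht⟩ := cx_conj (a := (σ : H →ₗ[ℝ] H)) (b := (a : H →ₗ[ℝ] H))
    (LinearMap.ext fun v => DFunLike.congr_fun hσ v) (LinearMap.ext fun v => DFunLike.congr_fun ha v)
  let t' : H →L[ℝ] H := LinearMap.toContinuousLinearMap t.toLinearMap
  have ht' : t' * σ = a * t' := ContinuousLinearMap.ext ht
  have h13 : tri t' ((1 / 2 : ℝ) • (a * b) * t') * tri σ 0 =
      tri a b * tri t' ((1 / 2 : ℝ) • (a * b) * t') := by
    rw [tri_mul, tri_mul, ht', mul_zero, zero_add, mul_assoc, ht']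
    congr 1
    have e : b * a = -(a * b) := eq_neg_of_add_eq_zero_right h8
    simp only [smul_mul_assoc, mul_smul_comm, mul_assoc, ha']
    rw [← mul_assoc b, e, neg_mul, mul_neg, mul_assoc, ha']
    module
  have h14 : 0 < (S * tri t' ((1 / 2 : ℝ) • (a * b) * t')).det := by
    rw [det_mul', det_tri]
    exact mul_pos h11 (mul_self_pos.2 t.isUnit_det'.ne_zero)
  have h15 : S * tri t' ((1 / 2 : ℝ) • (a * b) * t') * tri σ 0 =
      L * (S * tri t' ((1 / 2 : ℝ) • (a * b) * t')) := by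
    rw [mul_assoc, h13, ← mul_assoc, h12, mul_assoc]
  have h16 : tri σ 0 * tri σ 0 = -1 := by rw [tri_mul, hσ, mul_zero, zero_mul, add_zero, tri_neg_one]
  exact nonneg_of_mul_nonneg_left (det_mul_nonneg (i := (tri σ 0 : H × H →ₗ[ℝ] H × H))
    (L := (L : H × H →ₗ[ℝ] H × H)) (LinearMap.ext fun v => DFunLike.congr_fun h16 v)
    (fun v => DFunLike.congr_fun hT v) fun v => DFunLike.congr_fun h15 v) h14

end Pool.Agent.Lib.MP_7f6eca_an
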